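import Pool.Agent.H680_CP.Defs

set_option autoImplicit false

namespace Pool.Agent.H680_CP

open Finset Filter Topology

/-- Sum over a fibre decomposition restricted to a finite set of weights. -/
theorem H0aux_sum_fib {H : Type} (F : Finset H) (w : H → ℕ) (q : ℝ) (s : Finset ℕ) :
    ∑ N ∈ s, (((F.filter (fun h => w h = N)).card : ℕ) : ℝ) * q ^ N =
      ∑ h ∈ F.filter (fun h => w h ∈ s), q ^ (w h) := by
  classical
  rw [← Finset.sum_fiberwise_of_maps_to (s := F.filter (fun h => w h ∈ s)) (t := s) (g := w)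
    (f := fun h => q ^ (w h)) (by intro h hh; exact (Finset.mem_filter.1 hh).2)]
  apply Finset.sum_congr rfl
  intro N hN
  rw [Finset.filter_filter]
  have h1 : (F.filter (fun h => w h ∈ s ∧ w h = N)) = F.filter (fun h => w h = N) := by
    apply Finset.filter_congr
    intro h _
    constructor
    · rintro ⟨_, h2⟩; exact h2
    · intro h2; exact ⟨by rw [h2]; exact hN, h2⟩
  rw [h1]
  rw [Finset.sum_congr rfl (g := fun _ => q ^ N)
    (by intro h hh; rw [(Finset.mem_filter.1 hh).2])]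
  rw [Finset.sum_const, nsmul_eq_mul]

/-! ## Task ML (limit of generating functions) -/
theorem genfun_limit {H : ℕ → Type} (F : ∀ l, Finset (H l)) (w : ∀ l, H l → ℕ) (c : ℕ → ℕ)
    (q Z : ℝ) (hq0 : 0 < q) (hq1 : q < 1)
    (hle : ∀ l N, ((F l).filter (fun h => w l h = N)).card ≤ c N)
    (heq : ∀ N, ∃ l0, ∀ l, l0 ≤ l → ((F l).filter (fun h => w l h = N)).card = c N)
    (hZ : Tendsto (fun l => ∑ h ∈ F l, q ^ (w l h)) atTop (𝓝 Z)) :
    HasSum (fun N => (c N : ℝ) * q ^ N) Z := by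
  classical
  have hnn : ∀ N, 0 ≤ (c N : ℝ) * q ^ N := fun N => by positivity
  -- partial sums are bounded by Z
  have hpart : ∀ s : Finset ℕ, ∑ N ∈ s, (c N : ℝ) * q ^ N ≤ Z := by
    intro s
    have hex : ∃ L, ∀ N ∈ s, ∀ l, L ≤ l → ((F l).filter (fun h => w l h = N)).card = c N := by
      choose l0 hl0 using heq
      refine ⟨s.sup l0, fun N hN l hl => hl0 N l ((Finset.le_sup hN).trans hl)⟩
    obtain ⟨L, hL⟩ := hex
    refine ge_of_tendsto hZ ?_
    filter_upwards [eventually_ge_atTop L] with l hl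
    have h1 : ∑ N ∈ s, (c N : ℝ) * q ^ N
        = ∑ N ∈ s, ((((F l).filter (fun h => w l h = N)).card : ℕ) : ℝ) * q ^ N := by
      apply Finset.sum_congr rfl
      intro N hN
      rw [hL N hN l hl]
    rw [h1, H0aux_sum_fib]
    apply Finset.sum_le_sum_of_subset_of_nonneg (Finset.filter_subset _ _)
    intro i _ _
    positivity
  have hsum : Summable (fun N => (c N : ℝ) * q ^ N) := summable_of_sum_le hnn hpart
  have hle1 : ∑' N, (c N : ℝ) * q ^ N ≤ Z := hsum.tsum_le_of_sum_le hpart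
  have hle2 : Z ≤ ∑' N, (c N : ℝ) * q ^ N := by
    refine le_of_tendsto hZ (Eventually.of_forall fun l => ?_)
    have h1 : ∑ h ∈ F l, q ^ (w l h)
        = ∑ N ∈ (F l).image (w l), ((((F l).filter (fun h => w l h = N)).card : ℕ) : ℝ) * q ^ N := by
      rw [H0aux_sum_fib]
      apply Finset.sum_congr _ (fun _ _ => rfl)
      symm
      apply Finset.filter_true_of_mem
      intro h hh
      exact Finset.mem_image_of_mem _ hh
    rw [h1]
    calc ∑ N ∈ (F l).image (w l), ((((F l).filter (fun h => w l h = N)).card : ℕ) : ℝ) * q ^ N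
        ≤ ∑ N ∈ (F l).image (w l), (c N : ℝ) * q ^ N := by
          apply Finset.sum_le_sum
          intro N _
          apply mul_le_mul_of_nonneg_right _ (by positivity)
          exact_mod_cast hle l N
      _ ≤ ∑' N, (c N : ℝ) * q ^ N := hsum.sum_le_tsum _ (fun N _ => hnn N)
  have := hsum.hasSum
  rwa [le_antisymm hle1 hle2] at this


/-! ## Infinite products `E` -/

theorem H0aux_E_summable (q : ℝ) (hq0 : 0 < q) (hq1 : q < 1) (a m : ℕ) (hm : 0 < m) :
    Summable (fun j : ℕ => ‖-(q ^ (a + m * j))‖) := by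
  have h1 : Summable (fun j : ℕ => q ^ a * (q ^ m) ^ j) := by
    apply Summable.mul_left
    apply summable_geometric_of_lt_one (by positivity)
    exact pow_lt_one₀ hq0.le hq1 hm.ne'
  refine h1.congr fun j => ?_
  rw [norm_neg, Real.norm_of_nonneg (by positivity), pow_add, pow_mul]

theorem H0aux_E_multipliable (q : ℝ) (hq0 : 0 < q) (hq1 : q < 1) (a m : ℕ) (hm : 0 < m) :
    Multipliable (fun j : ℕ => 1 - q ^ (a + m * j)) := by
  have := multipliable_one_add_of_summable (H0aux_E_summable q hq0 hq1 a m hm)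
  simpa [sub_eq_add_neg] using this

theorem H0aux_E_ne_zero (q : ℝ) (hq0 : 0 < q) (hq1 : q < 1) (a m : ℕ) (ha : 0 < a) (hm : 0 < m) :
    E q a m ≠ 0 := by
  unfold E
  have := tprod_one_add_ne_zero_of_summable (f := fun j : ℕ => -(q ^ (a + m * j))) (fun j => by
    have : q ^ (a + m * j) < 1 := pow_lt_one₀ hq0.le hq1 (by omega)
    linarith) (H0aux_E_summable q hq0 hq1 a m hm)
  simpa [sub_eq_add_neg] using this

theorem H0aux_E_tendsto (q : ℝ) (hq0 : 0 < q) (hq1 : q < 1) (a m : ℕ) (hm : 0 < m) :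
    Tendsto (fun l : ℕ => ∏ j ∈ range l, (1 - q ^ (a + m * j))) atTop (𝓝 (E q a m)) :=
  (H0aux_E_multipliable q hq0 hq1 a m hm).hasProd.tendsto_prod_nat

/-! ## The case `n = 0` -/

/-- Description of the set for `n = 0`. -/
theorem H0aux_SS_zero (k : ℕ → ℕ) (N : ℕ) (f : ℕ → ℕ → ℕ) :
    f ∈ SS 0 k N ↔ (∀ c i, f c i ≠ 0 → c = 1 ∧ i ≤ N ∧ i % 2 = 1) ∧
      (∑ i ∈ Finset.Icc 1 N, i * f 1 i) = N ∧ ∀ i, f 1 i ≤ k 0 := by
  constructor
  · rintro ⟨h1, h2, h3⟩
    have h1' : ∀ c i, f c i ≠ 0 → c = 1 ∧ i ≤ N ∧ i % 2 = 1 := by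
      intro c i hci
      obtain ⟨a1, a2, a3, a4, a5⟩ := h1 c i hci
      have hc : c = 1 := by omega
      subst hc
      refine ⟨rfl, a4, ?_⟩
      obtain ⟨r, hr⟩ := a5
      omega
    refine ⟨h1', ?_, ?_⟩
    · simpa using h2
    · intro i
      by_cases hi : f 1 i = 0
      · rw [hi]; exact Nat.zero_le _
      · obtain ⟨_, _, hi2⟩ := h1' 1 i hi
        have := h3 (fun _ => (i : ℤ)) (by
          intro c hc
          simp only [Nat.mul_zero, Nat.zero_add, Finset.Icc_self, Finset.mem_singleton] at hc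
          subst hc
          refine ⟨by omega, ?_⟩
          rw [Int.even_iff]
          push_cast
          omega) (by
          intro c hc
          simp at hc)
        simpa [show ¬ ((i : ℤ) = -1) by omega] using this
  · rintro ⟨h1, h2, h3⟩
    refine ⟨?_, ?_, ?_⟩
    · intro c i hci
      obtain ⟨a1, a2, a3⟩ := h1 c i hci
      subst a1
      refine ⟨le_refl _, by omega, by omega, a2, ?_⟩
      rw [Nat.even_iff]
      omega
    · simpa using h2
    · intro p hp _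
      have h4 := hp 1 (by simp)
      simp only [Nat.mul_zero, Nat.zero_add, Finset.Icc_self, Finset.sum_singleton,
        Finset.range_one]
      split_ifs with h5 h6
      · simp
      · simp
      · exact h3 _

/-- The weight of a bounded multiplicity vector. -/
def H0aux_w0 (K l : ℕ) (h : Fin l → Fin (K + 1)) : ℕ := ∑ j : Fin l, (2 * (j : ℕ) + 1) * (h j : ℕ)

/-- The array attached to a bounded multiplicity vector. -/
def H0aux_Phi0 (K l : ℕ) (h : Fin l → Fin (K + 1)) : ℕ → ℕ → ℕ := fun c i =>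
  if hc : c = 1 ∧ i % 2 = 1 ∧ i / 2 < l then (h ⟨i / 2, hc.2.2⟩ : ℕ) else 0

theorem H0aux_Phi0_apply (K l : ℕ) (h : Fin l → Fin (K + 1)) (j : Fin l) :
    H0aux_Phi0 K l h 1 (2 * (j : ℕ) + 1) = h j := by
  unfold H0aux_Phi0
  have h1 : (2 * (j : ℕ) + 1) / 2 = j := by omega
  have h2 : (2 * (j : ℕ) + 1) % 2 = 1 := by omega
  rw [dif_pos ⟨rfl, h2, by rw [h1]; exact j.2⟩]
  congr 2
  exact Fin.ext h1

theorem H0aux_Phi0_inj (K l : ℕ) : Function.Injective (H0aux_Phi0 K l) := by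
  intro h h' e
  funext j
  apply Fin.ext
  rw [← H0aux_Phi0_apply K l h j, ← H0aux_Phi0_apply K l h' j, e]

/-- Sums over the odd numbers. -/
theorem H0aux_sum_odd (f : ℕ → ℕ) (l N : ℕ) (h1 : ∀ i, f i ≠ 0 → i % 2 = 1 ∧ i / 2 < l ∧ i ≤ N) :
    ∑ i ∈ Finset.Icc 1 N, i * f i = ∑ j : Fin l, (2 * (j : ℕ) + 1) * f (2 * (j : ℕ) + 1) := by
  rw [Fin.sum_univ_eq_sum_range (fun j => (2 * j + 1) * f (2 * j + 1)) l]
  rw [← Finset.sum_image (s := range l) (g := fun j => 2 * j + 1) (f := fun i => i * f i)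
    (by intro a _ b _ hab; simp only at hab; omega)]
  apply Finset.sum_congr_of_eq_on_inter
  · intro i _ hi2
    by_contra hne
    apply hi2
    have h3 : f i ≠ 0 := by
      intro h4; apply hne; rw [h4, Nat.mul_zero]
    obtain ⟨h5, h6, h7⟩ := h1 i h3
    rw [Finset.mem_image]
    exact ⟨i / 2, Finset.mem_range.2 h6, by omega⟩
  · intro i hi hi2
    by_contra hne
    apply hi2
    have h3 : f i ≠ 0 := by
      intro h4; apply hne; rw [h4, Nat.mul_zero]
    obtain ⟨h5, h6, h7⟩ := h1 i h3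
    rw [Finset.mem_Icc]
    omega
  · intro i _ _
    rfl

theorem H0aux_Phi0_mem (K l N : ℕ) (k : ℕ → ℕ) (hK : k 0 = K) (h : Fin l → Fin (K + 1))
    (hw : H0aux_w0 K l h = N) : H0aux_Phi0 K l h ∈ SS 0 k N := by
  have hsupp : ∀ c i, H0aux_Phi0 K l h c i ≠ 0 → c = 1 ∧ i % 2 = 1 ∧ i / 2 < l ∧ i ≤ N := by
    intro c i hci
    by_cases hc : c = 1 ∧ i % 2 = 1 ∧ i / 2 < l
    · refine ⟨hc.1, hc.2.1, hc.2.2, ?_⟩
      have h1 : H0aux_Phi0 K l h c i = h ⟨i / 2, hc.2.2⟩ := by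
        unfold H0aux_Phi0
        rw [dif_pos hc]
      rw [h1] at hci
      have h2 : (2 * ((⟨i / 2, hc.2.2⟩ : Fin l) : ℕ) + 1) * (h ⟨i / 2, hc.2.2⟩ : ℕ) ≤ H0aux_w0 K l h :=
        Finset.single_le_sum (f := fun j : Fin l => (2 * (j : ℕ) + 1) * (h j : ℕ))
          (fun _ _ => Nat.zero_le _) (Finset.mem_univ _)
      have h3 : i ≤ (2 * ((⟨i / 2, hc.2.2⟩ : Fin l) : ℕ) + 1) * (h ⟨i / 2, hc.2.2⟩ : ℕ) := by
        have h4 : 1 ≤ (h ⟨i / 2, hc.2.2⟩ : ℕ) := Nat.one_le_iff_ne_zero.2 hci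
        calc i = (2 * (i / 2) + 1) * 1 := by omega
          _ ≤ _ := Nat.mul_le_mul_left _ h4
      omega
    · exfalso
      apply hci
      unfold H0aux_Phi0
      rw [dif_neg hc]
  rw [H0aux_SS_zero]
  refine ⟨?_, ?_, ?_⟩
  · intro c i hci
    obtain ⟨a1, a2, a3, a4⟩ := hsupp c i hci
    exact ⟨a1, a4, a2⟩
  · rw [H0aux_sum_odd (fun i => H0aux_Phi0 K l h 1 i) l N (fun i hi => by
      obtain ⟨a1, a2, a3, a4⟩ := hsupp 1 i hi
      exact ⟨a2, a3, a4⟩)]
    rw [← hw]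
    unfold H0aux_w0
    apply Finset.sum_congr rfl
    intro j _
    rw [H0aux_Phi0_apply]
  · intro i
    unfold H0aux_Phi0
    split_ifs with hc
    · rw [hK]
      exact Nat.lt_succ_iff.1 (h ⟨i / 2, hc.2.2⟩).2
    · exact Nat.zero_le _

theorem H0aux_Phi0_surj (K l N : ℕ) (k : ℕ → ℕ) (hK : k 0 = K) (hl : N ≤ l) (f : ℕ → ℕ → ℕ)
    (hf : f ∈ SS 0 k N) : ∃ h : Fin l → Fin (K + 1), H0aux_w0 K l h = N ∧ H0aux_Phi0 K l h = f := by
  rw [H0aux_SS_zero] at hf
  obtain ⟨h1, h2, h3⟩ := hf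
  refine ⟨fun j => ⟨f 1 (2 * (j : ℕ) + 1), ?_⟩, ?_, ?_⟩
  · rw [← hK]
    exact Nat.lt_succ_iff.2 (h3 _)
  · unfold H0aux_w0
    rw [← h2]
    rw [H0aux_sum_odd (fun i => f 1 i) l N (fun i hi => by
      obtain ⟨a1, a2, a3⟩ := h1 1 i hi
      refine ⟨a3, ?_, a2⟩
      omega)]
  · funext c i
    unfold H0aux_Phi0
    by_cases hc : c = 1 ∧ i % 2 = 1 ∧ i / 2 < l
    · rw [dif_pos hc]
      show f 1 (2 * (i / 2) + 1) = f c i
      rw [hc.1]
      congr 1
      omega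
    · rw [dif_neg hc]
      by_contra hne
      obtain ⟨a1, a2, a3⟩ := h1 c i (Ne.symm hne)
      exact hc ⟨a1, a3, by omega⟩

theorem H0aux_genfun0 (q : ℝ) (hq0 : 0 < q) (hq1 : q < 1) (K l : ℕ) :
    ∑ h : Fin l → Fin (K + 1), q ^ (H0aux_w0 K l h) =
      (∏ j ∈ range l, (1 - q ^ ((K + 1) + (2 * (K + 1)) * j))) /
        ∏ j ∈ range l, (1 - q ^ (1 + 2 * j)) := by
  have h1 : ∀ h : Fin l → Fin (K + 1),
      q ^ (H0aux_w0 K l h) = ∏ j : Fin l, q ^ ((2 * (j : ℕ) + 1) * (h j : ℕ)) := by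
    intro h
    unfold H0aux_w0
    rw [Finset.prod_pow_eq_pow_sum]
  rw [Finset.sum_congr rfl (fun h _ => h1 h)]
  have h2 := Finset.prod_univ_sum (t := fun _ : Fin l => (Finset.univ : Finset (Fin (K + 1))))
    (f := fun j a => q ^ ((2 * (j : ℕ) + 1) * (a : ℕ)))
  rw [Fintype.piFinset_univ] at h2
  rw [← h2]
  rw [Fin.prod_univ_eq_prod_range (fun j => ∑ a : Fin (K + 1), q ^ ((2 * j + 1) * (a : ℕ))) l]
  rw [← Finset.prod_div_distrib]
  apply Finset.prod_congr rfl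
  intro j _
  have h3 : q ^ (2 * j + 1) < 1 := pow_lt_one₀ hq0.le hq1 (by omega)
  rw [Fin.sum_univ_eq_sum_range (fun a => q ^ ((2 * j + 1) * a)) (K + 1)]
  have h4 : ∀ a ∈ range (K + 1), q ^ ((2 * j + 1) * a) = (q ^ (2 * j + 1)) ^ a := by
    intro a _
    rw [pow_mul]
  rw [Finset.sum_congr rfl h4, geom_sum_eq h3.ne, ← pow_mul]
  rw [← neg_div_neg_eq]
  congr 1
  · rw [neg_sub]
    congr 2
    ring
  · rw [neg_sub, add_comm]

/-! ## Task H0 (may use ML) -/
theorem H0 (q : ℝ) (hq0 : 0 < q) (hq1 : q < 1) (k : ℕ → ℕ) :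
    HasSum (fun N => ((SS 0 k N).ncard : ℝ) * q ^ N)
      (E q (k 0 + 1) (2 * (k 0 + 1)) / E q 1 2) := by
  classical
  have hset : ∀ N l, N ≤ l → SS 0 k N =
      (((Finset.univ.filter (fun h => H0aux_w0 (k 0) l h = N)).image (H0aux_Phi0 (k 0) l) :
        Finset (ℕ → ℕ → ℕ)) : Set (ℕ → ℕ → ℕ)) := by
    intro N l hl
    ext f
    rw [Finset.mem_coe, Finset.mem_image]
    constructor
    · intro hf
      obtain ⟨h, hh1, hh2⟩ := H0aux_Phi0_surj (k 0) l N k rfl hl f hf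
      exact ⟨h, Finset.mem_filter.2 ⟨Finset.mem_univ _, hh1⟩, hh2⟩
    · rintro ⟨h, hh, rfl⟩
      exact H0aux_Phi0_mem (k 0) l N k rfl h (Finset.mem_filter.1 hh).2
  have hcard : ∀ N l, N ≤ l → (SS 0 k N).ncard =
      (Finset.univ.filter (fun h => H0aux_w0 (k 0) l h = N)).card := by
    intro N l hl
    rw [hset N l hl, Set.ncard_coe_finset, Finset.card_image_of_injective _ (H0aux_Phi0_inj _ _)]
  refine genfun_limit (H := fun l => (Fin l → Fin (k 0 + 1))) (fun l => Finset.univ)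
    (fun l h => H0aux_w0 (k 0) l h) (fun N => (SS 0 k N).ncard) q _ hq0 hq1 ?_ ?_ ?_
  · intro l N
    have hfin : (SS 0 k N).Finite := by
      rw [hset N N le_rfl]
      exact Finset.finite_toSet _
    have hsub : (((Finset.univ.filter (fun h => H0aux_w0 (k 0) l h = N)).image (H0aux_Phi0 (k 0) l) :
        Finset (ℕ → ℕ → ℕ)) : Set (ℕ → ℕ → ℕ)) ⊆ SS 0 k N := by
      intro f hf
      rw [Finset.mem_coe, Finset.mem_image] at hf
      obtain ⟨h, hh, rfl⟩ := hf
      exact H0aux_Phi0_mem (k 0) l N k rfl h (Finset.mem_filter.1 hh).2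
    have := Set.ncard_le_ncard hsub hfin
    rwa [Set.ncard_coe_finset, Finset.card_image_of_injective _ (H0aux_Phi0_inj _ _)] at this
  · intro N
    exact ⟨N, fun l hl => (hcard N l hl).symm⟩
  · have h1 := H0aux_E_tendsto q hq0 hq1 (k 0 + 1) (2 * (k 0 + 1)) (by omega)
    have h2 := H0aux_E_tendsto q hq0 hq1 1 2 (by omega)
    have h3 := h1.div h2 (H0aux_E_ne_zero q hq0 hq1 1 2 (by omega) (by omega))
    refine h3.congr fun l => ?_
    rw [H0aux_genfun0 q hq0 hq1]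
    rfl

end Pool.Agent.H680_CP
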