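import Pool.Agent.H680_CP.Defs

/-!
# Task GB: Gaussian binomial coefficients with an integer lower index
-/

set_option autoImplicit false

namespace Pool.Agent.H680_CP

open Finset Filter Topology

theorem G_zero (q : ℝ) (u : ℤ) : G q 0 u = if u = 0 then 1 else 0 := rfl

theorem G_succ (q : ℝ) (L : ℕ) (u : ℤ) : G q (L + 1) u = G q L (u - 1) + q ^ u * G q L u := rfl

theorem G_pascal (q : ℝ) (hq : q ≠ 0) (L : ℕ) (u : ℤ) :
    G q (L + 1) u = G q L u + q ^ ((L : ℤ) + 1 - u) * G q L (u - 1) := by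
  induction L generalizing u with
  | zero =>
    rw [G_succ]
    simp only [G_zero]
    by_cases h0 : u = 0
    · subst h0; simp
    · by_cases h1 : u = 1
      · subst h1; simp
      · have : u - 1 ≠ 0 := by omega
        simp [h0, this]
  | succ L ih =>
    rw [G_succ q (L + 1) u]
    have hA := G_succ q L u
    have hB := G_succ q L (u - 1)
    have hC := ih u
    have hD := ih (u - 1)
    have e1 : q ^ (((L + 1 : ℕ) : ℤ) + 1 - u) = q ^ ((L : ℤ) + 1 - (u - 1)) := by
      congr 1; push_cast; ring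
    have e2 : q ^ u * q ^ ((L : ℤ) + 1 - u) = q ^ ((L : ℤ) + 1) := by
      rw [← zpow_add₀ hq]; congr 1; ring
    have e3 : q ^ ((L : ℤ) + 1 - (u - 1)) * q ^ (u - 1) = q ^ ((L : ℤ) + 1) := by
      rw [← zpow_add₀ hq]; congr 1; ring
    rw [e1]
    linear_combination hD + q ^ u * hC - hA - q ^ ((L : ℤ) + 1 - (u - 1)) * hB +
      (e2 - e3) * G q L (u - 1)

theorem G_symm (q : ℝ) (hq : q ≠ 0) (L : ℕ) (u : ℤ) : G q L (L - u) = G q L u := by
  induction L generalizing u with
  | zero => simp [G_zero]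
  | succ L ih =>
    rw [G_succ, G_pascal q hq L u]
    have e1 : ((L + 1 : ℕ) : ℤ) - u - 1 = L - u := by push_cast; ring
    have e2 : ((L + 1 : ℕ) : ℤ) - u = L - (u - 1) := by push_cast; ring
    rw [e1, ih u, e2, ih (u - 1)]
    have e3 : (L : ℤ) - (u - 1) = (L : ℤ) + 1 - u := by ring
    rw [e3]

theorem G_support (q : ℝ) (L : ℕ) (u : ℤ) (h : u < 0 ∨ (L : ℤ) < u) : G q L u = 0 := by
  induction L generalizing u with
  | zero =>
    rw [G_zero, if_neg]
    rintro rfl
    simp at h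
  | succ L ih =>
    rw [G_succ, ih (u - 1) (by push_cast at h; omega), ih u (by push_cast at h; omega)]
    simp

theorem G_nonneg (q : ℝ) (hq0 : 0 < q) (L : ℕ) (u : ℤ) : 0 ≤ G q L u := by
  induction L generalizing u with
  | zero => rw [G_zero]; split_ifs <;> norm_num
  | succ L ih =>
    rw [G_succ]
    exact add_nonneg (ih _) (mul_nonneg (zpow_pos hq0 u).le (ih _))

/-- The finite product `(q;q)_n`. -/
noncomputable def qP (q : ℝ) (n : ℕ) : ℝ := ∏ j ∈ range n, (1 - q ^ (j + 1))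

theorem qP_zero (q : ℝ) : qP q 0 = 1 := by simp [qP]

theorem qP_succ (q : ℝ) (n : ℕ) : qP q (n + 1) = qP q n * (1 - q ^ (n + 1)) := by
  rw [qP, qP, prod_range_succ]

theorem G_zero_right (q : ℝ) (L : ℕ) : G q L 0 = 1 := by
  induction L with
  | zero => simp [G_zero]
  | succ L ih =>
    rw [G_succ, ih, G_support q L (0 - 1) (by left; norm_num)]
    simp

theorem G_self_right (q : ℝ) (L : ℕ) : G q L L = 1 := by
  induction L with
  | zero => simp [G_zero]
  | succ L ih =>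
    have e : ((L + 1 : ℕ) : ℤ) - 1 = L := by push_cast; ring
    rw [G_succ, e, ih, G_support q L ((L + 1 : ℕ) : ℤ) (by right; push_cast; omega)]
    simp

theorem G_mul_qP (q : ℝ) (u v : ℕ) :
    G q (u + v) (u : ℤ) * (qP q u * qP q v) = qP q (u + v) := by
  suffices H : ∀ L u v : ℕ, u + v = L → G q L (u : ℤ) * (qP q u * qP q v) = qP q L from
    H _ u v rfl
  intro L
  induction L with
  | zero =>
    intro u v h
    have hu : u = 0 := by omega
    have hv : v = 0 := by omega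
    subst hu; subst hv
    simp [G_zero, qP_zero]
  | succ L ih =>
    intro u v h
    rcases Nat.eq_zero_or_pos u with hu | hu
    · subst hu
      have hv : v = L + 1 := by omega
      subst hv
      have := G_zero_right q (L + 1)
      simp only [Nat.cast_zero, this, qP_zero, one_mul]
    rcases Nat.eq_zero_or_pos v with hv | hv
    · subst hv
      have hu : u = L + 1 := by omega
      subst hu
      rw [G_self_right, qP_zero]; ring
    obtain ⟨u, rfl⟩ : ∃ u', u = u' + 1 := ⟨u - 1, by omega⟩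
    obtain ⟨v, rfl⟩ : ∃ v', v = v' + 1 := ⟨v - 1, by omega⟩
    have h1 := ih u (v + 1) (by omega)
    have h2 := ih (u + 1) v (by omega)
    have e : ((u + 1 : ℕ) : ℤ) - 1 = u := by push_cast; ring
    have hL : L = u + v + 1 := by omega
    have e2 : q ^ (((u + 1 : ℕ) : ℤ)) = q ^ (u + 1) := zpow_natCast q (u + 1)
    rw [G_succ, e, e2, qP_succ q L]
    rw [qP_succ q v] at h1
    rw [qP_succ q u] at h2
    have h3 : q ^ (u + 1) * q ^ (v + 1) = q ^ (L + 1) := by
      rw [← pow_add, h]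
    rw [qP_succ q u, qP_succ q v]
    linear_combination (1 - q ^ (u + 1)) * h1 + q ^ (u + 1) * (1 - q ^ (v + 1)) * h2 -
      qP q L * h3

theorem E_summable (q : ℝ) (hq0 : 0 < q) (hq1 : q < 1) (a m : ℕ) (hm : 0 < m) :
    Summable fun j : ℕ => ‖-q ^ (a + m * j)‖ := by
  have hqm : q ^ m < 1 := pow_lt_one₀ hq0.le hq1 (by omega)
  have := (summable_geometric_of_lt_one (pow_nonneg hq0.le m) hqm).mul_left (q ^ a)
  refine this.congr fun j => ?_
  rw [norm_neg, norm_pow, Real.norm_of_nonneg hq0.le, pow_add, pow_mul]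

theorem E_multipliable (q : ℝ) (hq0 : 0 < q) (hq1 : q < 1) (a m : ℕ) (hm : 0 < m) :
    Multipliable fun j : ℕ => (1 - q ^ (a + m * j)) := by
  have := multipliable_one_add_of_summable (E_summable q hq0 hq1 a m hm)
  simpa [sub_eq_add_neg] using this

theorem E_pos (q : ℝ) (hq0 : 0 < q) (hq1 : q < 1) (a m : ℕ) (ha : 0 < a) (hm : 0 < m) :
    0 < E q a m := by
  have h1 : ∀ j : ℕ, 0 < 1 - q ^ (a + m * j) := fun j => by
    have := pow_lt_one₀ hq0.le hq1 (show a + m * j ≠ 0 by omega)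
    linarith
  have hne : E q a m ≠ 0 := by
    rw [E]
    have := tprod_one_add_ne_zero_of_summable (f := fun j : ℕ => -q ^ (a + m * j))
      (fun j => by have := h1 j; rw [← sub_eq_add_neg]; exact this.ne') (E_summable q hq0 hq1 a m hm)
    simpa [sub_eq_add_neg] using this
  have hge : 0 ≤ E q a m := by
    rw [E]
    exact ge_of_tendsto' (E_multipliable q hq0 hq1 a m hm).tendsto_prod_tprod_nat
      (fun n => prod_nonneg fun j _ => (h1 j).le)
  exact lt_of_le_of_ne hge (Ne.symm hne)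

theorem qP_tendsto (q : ℝ) (hq0 : 0 < q) (hq1 : q < 1) :
    Tendsto (qP q) atTop (𝓝 (E q 1 1)) := by
  have := (E_multipliable q hq0 hq1 1 1 one_pos).tendsto_prod_tprod_nat
  refine this.congr fun n => ?_
  rw [qP]
  exact prod_congr rfl fun j _ => by rw [one_mul, add_comm]

theorem qP_pos (q : ℝ) (hq0 : 0 < q) (hq1 : q < 1) (n : ℕ) : 0 < qP q n := by
  rw [qP]
  refine prod_pos fun j _ => ?_
  have := pow_lt_one₀ hq0.le hq1 (show j + 1 ≠ 0 by omega)
  linarith

theorem qP_antitone (q : ℝ) (hq0 : 0 < q) (hq1 : q < 1) : Antitone (qP q) := by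
  refine antitone_nat_of_succ_le fun n => ?_
  rw [qP_succ]
  have h1 := qP_pos q hq0 hq1 n
  have h2 : 0 < q ^ (n + 1) := pow_pos hq0 _
  nlinarith

theorem E_le_qP (q : ℝ) (hq0 : 0 < q) (hq1 : q < 1) (n : ℕ) : E q 1 1 ≤ qP q n :=
  (qP_antitone q hq0 hq1).le_of_tendsto (qP_tendsto q hq0 hq1) n

theorem G_eq_qP (q : ℝ) (hq0 : 0 < q) (hq1 : q < 1) (u v : ℕ) :
    G q (u + v) (u : ℤ) = qP q (u + v) / (qP q u * qP q v) := by
  rw [eq_div_iff (mul_pos (qP_pos q hq0 hq1 u) (qP_pos q hq0 hq1 v)).ne']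
  exact G_mul_qP q u v

theorem G_bounds (q : ℝ) (hq0 : 0 < q) (hq1 : q < 1) (L : ℕ) (u : ℤ) :
    0 ≤ G q L u ∧ G q L u ≤ (E q 1 1)⁻¹ := by
  refine ⟨G_nonneg q hq0 L u, ?_⟩
  have hE := E_pos q hq0 hq1 1 1 one_pos one_pos
  by_cases h : u < 0 ∨ (L : ℤ) < u
  · rw [G_support q L u h]
    exact (inv_pos.mpr hE).le
  · push Not at h
    obtain ⟨u, rfl⟩ : ∃ n : ℕ, u = n := ⟨u.toNat, by omega⟩
    obtain ⟨v, rfl⟩ : ∃ v : ℕ, L = u + v := ⟨L - u, by omega⟩
    rw [G_eq_qP q hq0 hq1, inv_eq_one_div, div_le_div_iff₀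
      (mul_pos (qP_pos q hq0 hq1 u) (qP_pos q hq0 hq1 v)) hE, one_mul, mul_comm]
    refine mul_le_mul (E_le_qP q hq0 hq1 u) ?_ (qP_pos q hq0 hq1 _).le (qP_pos q hq0 hq1 _).le
    exact qP_antitone q hq0 hq1 (by omega)

theorem G_tendsto (q : ℝ) (hq0 : 0 < q) (hq1 : q < 1) (v : ℤ) :
    Tendsto (fun l : ℕ => G q (2 * l) ((l : ℤ) + v)) atTop (𝓝 (E q 1 1)⁻¹) := by
  have hE := E_pos q hq0 hq1 1 1 one_pos one_pos
  have hT := qP_tendsto q hq0 hq1
  have h1 : Tendsto (fun l : ℕ => ((l : ℤ) + v).toNat) atTop atTop := by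
    refine tendsto_atTop.mpr fun n => ?_
    filter_upwards [eventually_ge_atTop (n + v.natAbs)] with l hl
    omega
  have h2 : Tendsto (fun l : ℕ => ((l : ℤ) - v).toNat) atTop atTop := by
    refine tendsto_atTop.mpr fun n => ?_
    filter_upwards [eventually_ge_atTop (n + v.natAbs)] with l hl
    omega
  have h3 : Tendsto (fun l : ℕ => 2 * l) atTop atTop := by
    refine tendsto_atTop.mpr fun n => ?_
    filter_upwards [eventually_ge_atTop n] with l hl
    omega
  have hlim : Tendsto (fun l : ℕ => qP q (2 * l) /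
      (qP q ((l : ℤ) + v).toNat * qP q ((l : ℤ) - v).toNat)) atTop
      (𝓝 (E q 1 1 / (E q 1 1 * E q 1 1))) :=
    (hT.comp h3).div ((hT.comp h1).mul (hT.comp h2)) (mul_pos hE hE).ne'
  have he : E q 1 1 / (E q 1 1 * E q 1 1) = (E q 1 1)⁻¹ := by
    field_simp
  rw [he] at hlim
  refine hlim.congr' ?_
  filter_upwards [eventually_ge_atTop v.natAbs] with l hl
  have e1 : (((l : ℤ) + v).toNat : ℤ) = (l : ℤ) + v := by omega
  have e2 : ((l : ℤ) + v).toNat + ((l : ℤ) - v).toNat = 2 * l := by omega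
  have := G_eq_qP q hq0 hq1 ((l : ℤ) + v).toNat ((l : ℤ) - v).toNat
  rw [e1, e2] at this
  exact this.symm

end Pool.Agent.H680_CP
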