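import Pool.Agent.H680_CP.Defs
import Pool.Agent.H680_CP.T_GB

set_option autoImplicit false

namespace Pool.Agent.H680_CP

open Finset Filter Topology

theorem lim_summable_natAbs (q : ℝ) (hq0 : 0 < q) (hq1 : q < 1) :
    Summable (fun s : ℤ => q ^ s.natAbs) := by
  apply Summable.of_nat_of_neg
  · simpa using summable_geometric_of_lt_one hq0.le hq1
  · simpa using summable_geometric_of_lt_one hq0.le hq1

theorem lim_summable_quad (q : ℝ) (hq0 : 0 < q) (hq1 : q < 1) (A B C : ℤ) (hA : 0 < A) :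
    Summable (fun s : ℤ => q ^ (A * s ^ 2 + B * s + C)) := by
  have h1 := (lim_summable_natAbs q hq0 hq1).mul_left (q ^ (C - (|B| + 1) ^ 2))
  refine Summable.of_nonneg_of_le (fun s => (zpow_pos hq0 _).le) (fun s => ?_) h1
  rw [← zpow_natCast, ← zpow_add₀ hq0.ne']
  apply zpow_le_zpow_right_of_le_one₀ hq0 hq1.le
  rw [Int.natCast_natAbs]
  have h2 : s ^ 2 = |s| ^ 2 := (sq_abs s).symm
  have h3 : -(|B| * |s|) ≤ B * s := by
    rw [← abs_mul]; exact neg_abs_le _
  have h4 : 0 ≤ |s| := abs_nonneg s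
  have h5 : 0 ≤ |B| := abs_nonneg B
  have h6 : |s| ^ 2 ≤ A * |s| ^ 2 := by nlinarith [sq_nonneg |s|]
  rw [h2]
  nlinarith [sq_nonneg (|s| - (|B| + 1)), sq_nonneg (|s| - 2 * (|B| + 1)), mul_nonneg h4 h5]

theorem lim_hasSum_Cf (q : ℝ) (hq0 : 0 < q) (hq1 : q < 1) (K M b : ℕ) (hK : 0 < K) (hb : 0 < b)
    (hbM : b < M) (t : ℤ) :
    HasSum (fun B : ℤ => Cf q K M b t B) (phi K (q ^ (2 * M)) t (q ^ b)) := by
  have hM : 0 < M := hb.trans hbM
  have hM' : (2 * (M : ℤ)) ≠ 0 := by positivity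
  -- the two pieces
  set C1 : ℤ → ℝ := fun B => if (2 * (M : ℤ)) ∣ B - b then
    q ^ (2 * (K : ℤ) * (M * ((B - b) / (2 * M)) ^ 2 + b * ((B - b) / (2 * M))) - t * B) else 0
    with hC1
  set C2 : ℤ → ℝ := fun B => if (2 * (M : ℤ)) ∣ B + b then
    - q ^ (2 * (K : ℤ) * (M * ((B + b) / (2 * M)) ^ 2 - b * ((B + b) / (2 * M))) - t * B) else 0
    with hC2
  have hsplit : ∀ B, Cf q K M b t B = C1 B + C2 B := by
    intro B
    simp only [Cf, hC1, hC2]
    split_ifs with h1 h2
    · exfalso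
      have h3 : (2 * (M : ℤ)) ∣ 2 * b := by
        have := dvd_sub h2 h1
        have e : (B + b) - (B - b) = 2 * (b : ℤ) := by ring
        rwa [e] at this
      have h4 : (M : ℤ) ∣ b := (mul_dvd_mul_iff_left (by norm_num : (2 : ℤ) ≠ 0)).1 h3
      have h5 : M ∣ b := by exact_mod_cast h4
      exact absurd (Nat.le_of_dvd hb h5) (not_le.2 hbM)
    · simp
    · simp
    · simp
  -- first piece
  set f1 : ℤ → ℝ := fun s => q ^ (2 * (K : ℤ) * (M * s ^ 2 + b * s) - t * (b + 2 * M * s)) with hf1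
  set f2 : ℤ → ℝ := fun s => - q ^ (2 * (K : ℤ) * (M * s ^ 2 - b * s) - t * (-b + 2 * M * s)) with hf2
  have hKM : (0 : ℤ) < 2 * (K : ℤ) * M := by positivity
  have s1 : Summable f1 := by
    have := lim_summable_quad q hq0 hq1 (2 * K * M) (2 * K * b - 2 * M * t) (-t * b) hKM
    refine this.congr (fun s => ?_)
    simp only [hf1]
    congr 1; ring
  have s2 : Summable f2 := by
    have := (lim_summable_quad q hq0 hq1 (2 * K * M) (-2 * K * b - 2 * M * t) (t * b) hKM).neg
    refine this.congr (fun s => ?_)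
    simp only [hf2]
    congr 2; ring
  have i1 : Function.Injective (fun s : ℤ => (b : ℤ) + 2 * M * s) := by
    intro s s' h
    have : 2 * (M : ℤ) * s = 2 * M * s' := by simpa using h
    exact mul_left_cancel₀ hM' this
  have i2 : Function.Injective (fun s : ℤ => -(b : ℤ) + 2 * M * s) := by
    intro s s' h
    have : 2 * (M : ℤ) * s = 2 * M * s' := by simpa using h
    exact mul_left_cancel₀ hM' this
  have H1 : HasSum C1 (∑' s, f1 s) := by
    rw [← i1.hasSum_iff (f := C1)]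
    · have : C1 ∘ (fun s : ℤ => (b : ℤ) + 2 * M * s) = f1 := by
        funext s
        simp only [hC1, hf1, Function.comp_apply]
        have e1 : ((b : ℤ) + 2 * M * s - b) = 2 * M * s := by ring
        rw [e1, if_pos (Dvd.intro _ rfl), Int.mul_ediv_cancel_left _ hM']
      rw [this]; exact s1.hasSum
    · intro B hB
      simp only [hC1]
      rw [if_neg]
      rintro ⟨s, hs⟩
      exact hB ⟨s, by simp only; linarith⟩
  have H2 : HasSum C2 (∑' s, f2 s) := by
    rw [← i2.hasSum_iff (f := C2)]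
    · have : C2 ∘ (fun s : ℤ => -(b : ℤ) + 2 * M * s) = f2 := by
        funext s
        simp only [hC2, hf2, Function.comp_apply]
        have e1 : (-(b : ℤ) + 2 * M * s + b) = 2 * M * s := by ring
        rw [e1, if_pos (Dvd.intro _ rfl), Int.mul_ediv_cancel_left _ hM']
      rw [this]; exact s2.hasSum
    · intro B hB
      simp only [hC2]
      rw [if_neg]
      rintro ⟨s, hs⟩
      exact hB ⟨s, by simp only; linarith⟩
  have H3 := H1.add H2
  have hphi : phi K (q ^ (2 * M)) t (q ^ b) = (∑' s, f1 s) + ∑' s, f2 s := by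
    rw [← s1.tsum_add s2]
    unfold phi
    congr 1
    funext s
    simp only [hf1, hf2]
    have hq : q ≠ 0 := hq0.ne'
    have e1 : ((q ^ (2 * M) : ℝ)) ^ ((K : ℤ) * s ^ 2 - t * s) = q ^ ((2 * (M : ℤ)) * ((K : ℤ) * s ^ 2 - t * s)) := by
      rw [zpow_mul]; congr 1
    have e2 : ∀ e : ℤ, ((q ^ b : ℝ)) ^ e = q ^ ((b : ℤ) * e) := by
      intro e; rw [zpow_mul, zpow_natCast]
    rw [e1, e2, e2, mul_sub, ← zpow_add₀ hq, ← zpow_add₀ hq, sub_eq_add_neg]
    congr 2
    · ring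
    · congr 1; ring
  rw [hphi]
  have h4 : (fun B : ℤ => Cf q K M b t B) = fun B => C1 B + C2 B := funext hsplit
  rw [h4]
  exact H3

theorem lim_Rw_eq_tsum (q : ℝ) (K M b : ℕ) (t : ℤ) (L : ℕ) (a : ℤ) :
    Rw q K M b t L a = ∑' B : ℤ, G q L (a - B) * Cf q K M b t B := by
  have h1 : (∑' B : ℤ, G q L (a - B) * Cf q K M b t B) =
      ∑' u : ℤ, G q L u * Cf q K M b t (a - u) := by
    rw [← (Equiv.subLeft a).tsum_eq (fun u : ℤ => G q L u * Cf q K M b t (a - u))]
    congr 1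
    funext B
    simp
  rw [h1, tsum_eq_sum (s := (range (L + 1)).map Nat.castEmbedding)]
  · rw [Finset.sum_map]
    rfl
  · intro u hu
    rw [G_support, zero_mul]
    by_contra hcon
    push Not at hcon
    apply hu
    rw [Finset.mem_map]
    refine ⟨u.toNat, ?_, ?_⟩
    · rw [Finset.mem_range]; omega
    · simp only [Nat.castEmbedding_apply]; omega

theorem Rw_tendsto (q : ℝ) (hq0 : 0 < q) (hq1 : q < 1) (K M b : ℕ) (hK : 0 < K) (hb : 0 < b)
    (hbM : b < M) (t v : ℤ) :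
    Tendsto (fun l : ℕ => Rw q K M b t (2 * l) ((l : ℤ) + v)) atTop
      (𝓝 ((E q 1 1)⁻¹ * phi K (q ^ (2 * M)) t (q ^ b))) := by
  have hS := lim_hasSum_Cf q hq0 hq1 K M b hK hb hbM t
  rw [← (hS.mul_left (E q 1 1)⁻¹).tsum_eq]
  simp only [lim_Rw_eq_tsum]
  refine tendsto_tsum_of_dominated_convergence
    (bound := fun B => (E q 1 1)⁻¹ * |Cf q K M b t B|) (hS.summable.abs.mul_left _) ?_ ?_
  · intro B
    refine Tendsto.mul_const _ ?_
    have := G_tendsto q hq0 hq1 (v - B)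
    simpa [add_sub_assoc] using this
  · refine Eventually.of_forall (fun l B => ?_)
    have h := G_bounds q hq0 hq1 (2 * l) ((l : ℤ) + v - B)
    rw [Real.norm_eq_abs, abs_mul, abs_of_nonneg h.1]
    exact mul_le_mul_of_nonneg_right h.2 (abs_nonneg _)

end Pool.Agent.H680_CP
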