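import Pool.Agent.H680_CP.T1d

set_option autoImplicit false

namespace Pool.Agent.H680_CP

open Finset Filter Topology

theorem T1 (q : ℝ) (hq0 : 0 < q) (n k : ℕ) (b : Fin k → ℕ) (hb : StrictMono b)
    (hb0 : ∀ t, 0 < b t) (hbM : ∀ t, b t < n + k + 1) (l : ℕ) :
    ∑ h ∈ Fam n b (2 * l), q ^ (wt n b (2 * l) h) =
      q ^ (∑ t : Fin k, ((t : ℕ) + 1) * b t) *
        Matrix.det (Matrix.of fun t i : Fin k =>
          Rw q (k + 1) (n + k + 1) (b i) (((t : ℕ) : ℤ) + 1) (2 * l) ((l : ℤ) + (n + (t : ℕ) + 1))) := by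
  classical
  set top : Fin k → ℤ := fun t => (l : ℤ) + (n + (t : ℕ) + 1) with htop
  have hv : Valid n (2 * l) top := by
    refine ⟨fun i j hij => ?_, fun t => ?_, fun t => ?_⟩
    · have : (i : ℕ) < j := hij
      simp only [htop]; omega
    · simp only [htop]; push_cast; omega
    · simp only [htop]; push_cast; omega
  have hmain := main_claim b q hq0 hb hb0 hbM (2 * l) top (fun _ => false) hv (fun _ _ => rfl)
  have hR : rowmat b q n (2 * l) top (fun _ => false) = Matrix.of fun t i : Fin k =>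
          Rw q (k + 1) (n + k + 1) (b i) (((t : ℕ) : ℤ) + 1) (2 * l)
            ((l : ℤ) + (n + (t : ℕ) + 1)) := by
    ext t i
    simp [rowmat, htop]
  rw [hR] at hmain
  rw [← hmain]
  unfold Fam Wsum
  rw [Finset.sum_filter]
  refine Finset.sum_congr rfl fun h _ => ?_
  have hcond : ((∀ x ≤ 2 * l, Valid n x (pos b h x)) ∧
      ∀ t : Fin k, 2 * pos b h (2 * l) t = ((2 * l : ℕ) : ℤ) + 2 * n + 2 * (t : ℕ) + 2) ↔
      ((∀ x ≤ 2 * l, Valid n x (pos b h x)) ∧ pos b h (2 * l) = top) := by
    refine and_congr_right fun _ => ?_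
    constructor
    · intro h1
      funext t
      have := h1 t
      simp only [htop]
      push_cast at this
      omega
    · intro h1 t
      rw [h1]
      simp only [htop]
      push_cast
      ring
  by_cases hc : (∀ x ≤ 2 * l, Valid n x (pos b h x)) ∧ pos b h (2 * l) = top
  · rw [if_pos hc, if_pos (hcond.2 hc)]
    rw [wt_succ, wt_update, Finset.prod_eq_one, mul_one]
    intro t _
    simp
  · rw [if_neg hc, if_neg fun h' => hc (hcond.1 h')]

end Pool.Agent.H680_CP
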