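import Pool.Agent.H680_CP.Defs

/-!
# The Jacobi triple product over the reals (task JTP)
-/

set_option autoImplicit false

namespace Pool.Agent.H680_CP

open Finset Filter Topology

namespace JTP

/-- The finite product `(q; q)_n`. -/
noncomputable def Q (q : ℝ) (n : ℕ) : ℝ := ∏ i ∈ range n, (1 - q ^ (i + 1))

lemma Q_succ (q : ℝ) (n : ℕ) : Q q (n + 1) = Q q n * (1 - q ^ (n + 1)) := by
  simp [Q, prod_range_succ]

lemma Q_zero (q : ℝ) : Q q 0 = 1 := by simp [Q]

lemma G_zero (q : ℝ) (u : ℤ) : G q 0 u = if u = 0 then 1 else 0 := by simp [G]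

lemma G_succ (q : ℝ) (L : ℕ) (u : ℤ) :
    G q (L + 1) u = G q L (u - 1) + q ^ u * G q L u := by simp [G]

lemma G_supp (q : ℝ) (L : ℕ) : ∀ (u : ℤ), (u < 0 ∨ (L : ℤ) < u) → G q L u = 0 := by
  induction L with
  | zero =>
    intro u h
    rw [G_zero, if_neg]
    rintro rfl
    simp at h
  | succ L ih =>
    intro u h
    push_cast at h
    rw [G_succ, ih (u - 1) (by omega), ih u (by omega)]
    simp

lemma G_pascal' (q : ℝ) (hq : q ≠ 0) (L : ℕ) : ∀ (u : ℤ),
    G q (L + 1) u = G q L u + q ^ ((L : ℤ) + 1 - u) * G q L (u - 1) := by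
  induction L with
  | zero =>
    intro u
    rw [G_succ, G_zero, G_zero]
    by_cases h0 : u = 0
    · subst h0; simp
    · by_cases h1 : u = 1
      · subst h1; simp
      · rw [if_neg h0, if_neg (by omega)]
        simp
  | succ L ih =>
    intro u
    have a1 := ih (u - 1)
    have a2 := ih u
    have b1 := G_succ q L u
    have b2 := G_succ q L (u - 1)
    rw [G_succ q (L + 1) u]
    have e1 : q ^ u * q ^ ((L : ℤ) + 1 - u) = q ^ ((L : ℤ) + 1) := by
      rw [← zpow_add₀ hq]; congr 1; ring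
    have e2 : q ^ (((L + 1 : ℕ) : ℤ) + 1 - u) * q ^ (u - 1) = q ^ ((L : ℤ) + 1) := by
      rw [← zpow_add₀ hq]; congr 1; push_cast; ring
    have e3 : q ^ ((L : ℤ) + 1 - (u - 1)) = q ^ (((L + 1 : ℕ) : ℤ) + 1 - u) := by
      congr 1; push_cast; ring
    rw [e3] at a1
    linear_combination a1 + q ^ u * a2 - b1 - q ^ (((L + 1 : ℕ) : ℤ) + 1 - u) * b2 +
      (G q L (u - 1)) * e1 - (G q L (u - 1)) * e2

lemma G_nonneg (q : ℝ) (hq0 : 0 < q) (L : ℕ) : ∀ u : ℤ, 0 ≤ G q L u := by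
  induction L with
  | zero => intro u; rw [G_zero]; split_ifs <;> norm_num
  | succ L ih =>
    intro u
    rw [G_succ]
    have := ih (u - 1)
    have := ih u
    positivity

lemma G_prod (q : ℝ) (L : ℕ) : ∀ a b : ℕ, a + b = L →
    G q L (a : ℤ) * (Q q a * Q q b) = Q q L := by
  induction L with
  | zero =>
    intro a b h
    obtain rfl : a = 0 := by omega
    obtain rfl : b = 0 := by omega
    simp [G_zero, Q_zero]
  | succ L ih =>
    intro a b h
    rcases a with _ | a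
    · obtain rfl : b = L + 1 := by omega
      rw [G_succ, G_supp q L _ (by left; simp)]
      have h0 := ih 0 L (by omega)
      rw [Q_zero] at h0 ⊢
      rw [Q_succ]
      simp only [Nat.cast_zero, zpow_zero, zero_add, one_mul] at h0 ⊢
      rw [← mul_assoc, h0]
    · rcases b with _ | b
      · obtain rfl : a = L := by omega
        rw [G_succ, G_supp q a ((a + 1 : ℕ) : ℤ) (by right; push_cast; omega)]
        have h0 := ih a 0 (by omega)
        rw [Q_zero] at h0 ⊢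
        have e : (((a + 1 : ℕ) : ℤ) - 1) = a := by push_cast; ring
        rw [e, Q_succ]
        linear_combination (1 - q ^ (a + 1)) * h0
      · have h1 := ih a (b + 1) (by omega)
        have h2 := ih (a + 1) b (by omega)
        have e : (((a + 1 : ℕ) : ℤ) - 1) = a := by push_cast; ring
        rw [G_succ, e, Q_succ q L, Q_succ q a]
        rw [Q_succ q a] at h2
        rw [Q_succ q b] at h1 ⊢
        have e2 : q ^ (L + 1) = q ^ (a + 1) * q ^ (b + 1) := by
          rw [← pow_add]; congr 1; omega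
        rw [zpow_natCast, e2]
        linear_combination (1 - q ^ (a + 1)) * h1 + q ^ (a + 1) * (1 - q ^ (b + 1)) * h2

/-! ### Products -/

lemma summable_geom_shift (p c : ℝ) (hp0 : 0 < p) (hp1 : p < 1) (s : ℕ) :
    Summable fun j : ℕ => ‖-(c * p ^ (j + s))‖ := by
  have h1 : Summable fun j : ℕ => p ^ j := summable_geometric_of_lt_one hp0.le hp1
  have h2 : Summable fun j : ℕ => (|c| * p ^ s) * p ^ j := h1.mul_left _
  refine h2.congr fun j => ?_
  rw [norm_neg, norm_mul, Real.norm_eq_abs, Real.norm_eq_abs, abs_pow, abs_of_pos hp0, pow_add]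
  ring

lemma tendsto_prod_shift (p c : ℝ) (hp0 : 0 < p) (hp1 : p < 1) (s : ℕ) :
    Tendsto (fun n : ℕ => ∏ j ∈ range n, (1 - c * p ^ (j + s))) atTop
      (𝓝 (∏' j : ℕ, (1 - c * p ^ (j + s)))) := by
  have h := (multipliable_one_add_of_summable (summable_geom_shift p c hp0 hp1 s))
  simp only [← sub_eq_add_neg] at h
  exact h.hasProd.tendsto_prod_nat

lemma E_eq (p : ℝ) : E p 1 1 = ∏' j : ℕ, (1 - 1 * p ^ (j + 1)) := by
  unfold E
  congr 1
  ext j
  rw [one_mul, one_mul, add_comm]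

lemma Q_eq (p : ℝ) (n : ℕ) : Q p n = ∏ j ∈ range n, (1 - 1 * p ^ (j + 1)) := by
  simp [Q]

lemma Q_pos (p : ℝ) (hp0 : 0 < p) (hp1 : p < 1) (n : ℕ) : 0 < Q p n := by
  refine prod_pos fun i _ => ?_
  have : p ^ (i + 1) < 1 := pow_lt_one₀ hp0.le hp1 (by omega)
  linarith

lemma Q_anti (p : ℝ) (hp0 : 0 < p) (hp1 : p < 1) : Antitone (Q p) := by
  refine antitone_nat_of_succ_le fun n => ?_
  rw [Q_succ]
  have h1 := Q_pos p hp0 hp1 n
  have h2 : 0 < p ^ (n + 1) := by positivity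
  nlinarith

lemma Q_tendsto (p : ℝ) (hp0 : 0 < p) (hp1 : p < 1) : Tendsto (Q p) atTop (𝓝 (E p 1 1)) := by
  rw [E_eq]
  refine (tendsto_prod_shift p 1 hp0 hp1 1).congr fun n => ?_
  rw [Q_eq]

lemma E_le_Q (p : ℝ) (hp0 : 0 < p) (hp1 : p < 1) (n : ℕ) : E p 1 1 ≤ Q p n :=
  (Q_anti p hp0 hp1).le_of_tendsto (Q_tendsto p hp0 hp1) n

lemma E_pos (p : ℝ) (hp0 : 0 < p) (hp1 : p < 1) : 0 < E p 1 1 := by
  have h0 : 0 ≤ E p 1 1 := ge_of_tendsto' (Q_tendsto p hp0 hp1) fun n => (Q_pos p hp0 hp1 n).le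
  have h1 : E p 1 1 ≠ 0 := by
    rw [E_eq]
    have := tprod_one_add_ne_zero_of_summable (f := fun j : ℕ => -(1 * p ^ (j + 1))) ?_
      (summable_geom_shift p 1 hp0 hp1 1)
    · simpa only [← sub_eq_add_neg] using this
    · intro j
      have : p ^ (j + 1) < 1 := pow_lt_one₀ hp0.le hp1 (by omega)
      have : 0 < 1 + -(1 * p ^ (j + 1)) := by linarith
      exact this.ne'
  exact lt_of_le_of_ne h0 h1.symm

lemma G_eq (p : ℝ) (hp0 : 0 < p) (hp1 : p < 1) (a b : ℕ) :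
    G p (a + b) (a : ℤ) = Q p (a + b) / (Q p a * Q p b) := by
  have h := G_prod p (a + b) a b rfl
  have h1 := Q_pos p hp0 hp1 a
  have h2 := Q_pos p hp0 hp1 b
  rw [eq_div_iff (by positivity)]
  exact h

lemma G_le (p : ℝ) (hp0 : 0 < p) (hp1 : p < 1) (L : ℕ) (u : ℤ) : G p L u ≤ (E p 1 1)⁻¹ := by
  have hE := E_pos p hp0 hp1
  by_cases h : u < 0 ∨ (L : ℤ) < u
  · rw [G_supp p L u h]
    positivity
  · push Not at h
    obtain ⟨a, ha⟩ : ∃ a : ℕ, (a : ℤ) = u := ⟨u.toNat, by omega⟩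
    obtain ⟨b, hb⟩ : ∃ b : ℕ, a + b = L := ⟨L - a, by omega⟩
    subst ha hb
    rw [G_eq p hp0 hp1]
    have h1 := Q_pos p hp0 hp1 a
    have h2 := Q_pos p hp0 hp1 b
    have h3 : Q p (a + b) ≤ Q p a := Q_anti p hp0 hp1 (by omega)
    have h4 := E_le_Q p hp0 hp1 b
    rw [div_le_iff₀ (by positivity), inv_mul_eq_div, le_div_iff₀ hE]
    exact mul_le_mul h3 h4 hE.le h1.le

lemma G_lim (p : ℝ) (hp0 : 0 < p) (hp1 : p < 1) (v : ℤ) :
    Tendsto (fun l : ℕ => G p (2 * l) ((l : ℤ) + v)) atTop (𝓝 (E p 1 1)⁻¹) := by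
  have hE := E_pos p hp0 hp1
  have hQ := Q_tendsto p hp0 hp1
  have ha : Tendsto (fun l : ℕ => ((l : ℤ) + v).toNat) atTop atTop := by
    refine tendsto_atTop.2 fun b => ?_
    filter_upwards [eventually_ge_atTop (b + v.natAbs)] with l hl
    omega
  have hb : Tendsto (fun l : ℕ => ((l : ℤ) - v).toNat) atTop atTop := by
    refine tendsto_atTop.2 fun b => ?_
    filter_upwards [eventually_ge_atTop (b + v.natAbs)] with l hl
    omega
  have hc : Tendsto (fun l : ℕ => 2 * l) atTop atTop := by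
    refine tendsto_atTop.2 fun b => ?_
    filter_upwards [eventually_ge_atTop b] with l hl
    omega
  have h := (hQ.comp hc).div ((hQ.comp ha).mul (hQ.comp hb)) (by positivity)
  have e : E p 1 1 / (E p 1 1 * E p 1 1) = (E p 1 1)⁻¹ := by field_simp
  rw [e] at h
  refine h.congr' ?_
  filter_upwards [eventually_ge_atTop (v.natAbs)] with l hl
  simp only [Pi.div_apply, Function.comp]
  have h1 := G_eq p hp0 hp1 ((l : ℤ) + v).toNat ((l : ℤ) - v).toNat
  have e1 : ((l : ℤ) + v).toNat + ((l : ℤ) - v).toNat = 2 * l := by omega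
  have e2 : ((((l : ℤ) + v).toNat : ℕ) : ℤ) = (l : ℤ) + v := by omega
  rw [e1, e2] at h1
  exact h1.symm

/-! ### The finite form -/

lemma tri_sub (r : ℤ) : (r - 1) * (r - 1 - 1) / 2 = r * (r - 1) / 2 - (r - 1) := by
  have : (r - 1) * (r - 1 - 1) = r * (r - 1) - 2 * (r - 1) := by ring
  rw [this]
  omega

lemma tri_add (r : ℤ) : (r + 1) * (r + 1 - 1) / 2 = r * (r - 1) / 2 + r := by
  have : (r + 1) * (r + 1 - 1) = r * (r - 1) + 2 * r := by ring
  rw [this]
  omega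

lemma G_two (q : ℝ) (hq : q ≠ 0) (N : ℕ) (r : ℤ) :
    G q (2 * (N + 1)) (((N + 1 : ℕ) : ℤ) + r) =
      G q (2 * N) (N + r) * (1 + q ^ (2 * N + 1)) +
        q ^ ((N : ℤ) + 1 - r) * G q (2 * N) (N + (r - 1)) +
        q ^ ((N : ℤ) + 1 + r) * G q (2 * N) (N + (r + 1)) := by
  have e0 : 2 * (N + 1) = 2 * N + 1 + 1 := by ring
  rw [e0, G_succ, G_pascal' q hq (2 * N), G_pascal' q hq (2 * N)]
  have e1 : ((N + 1 : ℕ) : ℤ) + r - 1 = N + r := by push_cast; ring
  have e2 : ((N + 1 : ℕ) : ℤ) + r = N + (r + 1) := by push_cast; ring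
  rw [e1, e2]
  have e3 : (N : ℤ) + r - 1 = N + (r - 1) := by ring
  rw [e3]
  have e4 : ((2 * N : ℕ) : ℤ) + 1 - (N + r) = N + 1 - r := by push_cast; ring
  have e5 : (N : ℤ) + (r + 1) = N + 1 + r := by ring
  have e6 : q ^ ((N : ℤ) + (r + 1)) * q ^ (((2 * N : ℕ) : ℤ) + 1 - (N + (r + 1))) =
      q ^ (2 * N + 1) := by
    rw [← zpow_add₀ hq, ← zpow_natCast]; congr 1; push_cast; ring
  rw [e4]
  rw [e5] at e6 ⊢
  have e7 : ((2 * N : ℕ) : ℤ) + 1 - (N + 1 + r) = N - r := by push_cast; ring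
  rw [e7] at e6 ⊢
  linear_combination (G q (2 * N) (N + r)) * e6

lemma hasSum_of_eq {f g : ℤ → ℝ} {a b : ℝ} (h : HasSum f a) (hfg : ∀ r, g r = f r)
    (hab : b = a) : HasSum g b := by
  have : g = f := funext hfg
  rw [this, hab]
  exact h

lemma fin_form (p : ℝ) (hp0 : 0 < p) (x : ℝ) (hx : 0 < x) (N : ℕ) :
    HasSum (fun r : ℤ => (-1 : ℝ) ^ r * p ^ (r * (r - 1) / 2) * x ^ r * G p (2 * N) (N + r))
      (∏ j ∈ range N, ((1 - x * p ^ j) * (1 - p ^ (j + 1) / x))) := by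
  have hp : p ≠ 0 := hp0.ne'
  have hx' : x ≠ 0 := hx.ne'
  induction N with
  | zero =>
    have := hasSum_single (f := fun r : ℤ => (-1 : ℝ) ^ r * p ^ (r * (r - 1) / 2) * x ^ r *
      G p (2 * 0) ((0 : ℕ) + r)) 0 (by
        intro r hr
        simp [G_zero, hr])
    simpa [G_zero] using this
  | succ N ih =>
    rw [prod_range_succ]
    have h1 := (ih.mul_right (1 + p ^ (2*N+1)))
    have h2 := ((Equiv.subRight (1:ℤ)).hasSum_iff.mpr ih).mul_right (-(x * p^N))
    have h3 := ((Equiv.addRight (1:ℤ)).hasSum_iff.mpr ih).mul_right (-(p^(N+1)/x))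
    have h := (h1.add h2).add h3
    refine hasSum_of_eq h ?_ ?_
    · intro r
      simp only [Function.comp, Equiv.subRight_apply, Equiv.coe_addRight]
      rw [G_two p hp, tri_sub, tri_add]
      rw [zpow_sub₀ hp (r * (r - 1) / 2) (r - 1), zpow_sub₀ hp r 1,
        zpow_add₀ hp (r * (r - 1) / 2) r, zpow_sub₀ hx', zpow_add₀ hx',
        zpow_sub₀ (by norm_num : (-1 : ℝ) ≠ 0), zpow_add₀ (by norm_num : (-1 : ℝ) ≠ 0),
        zpow_sub₀ hp ((N : ℤ) + 1) r, zpow_add₀ hp ((N : ℤ) + 1) r, zpow_add₀ hp (N : ℤ) 1]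
      simp only [zpow_one, zpow_natCast]
      have hr : p ^ r ≠ 0 := zpow_ne_zero _ hp
      field_simp
      ring
    · field_simp
      ring

/-! ### Summability -/

lemma summable_coef (p : ℝ) (hp0 : 0 < p) (hp1 : p < 1) (x : ℝ) (hx : 0 < x) :
    Summable fun r : ℤ => p ^ (r * (r - 1) / 2) * x ^ r := by
  have hp : p ≠ 0 := hp0.ne'
  have hx' : x ≠ 0 := hx.ne'
  have hpow : Tendsto (fun n : ℕ => p ^ n) atTop (𝓝 0) :=
    tendsto_pow_atTop_nhds_zero_of_lt_one hp0.le hp1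
  refine Summable.of_nat_of_neg ?_ ?_
  · refine summable_of_ratio_test_tendsto_lt_one (l := 0) zero_lt_one ?_ ?_
    · exact Eventually.of_forall fun n => by positivity
    · have h : Tendsto (fun n : ℕ => p ^ n * x) atTop (𝓝 0) := by
        simpa using hpow.mul_const x
      refine h.congr fun n => ?_
      rw [Real.norm_of_nonneg (by positivity), Real.norm_of_nonneg (by positivity)]
      push_cast
      rw [tri_add, zpow_add₀ hp, zpow_add₀ hx']
      simp only [zpow_natCast, zpow_one]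
      field_simp
  · refine summable_of_ratio_test_tendsto_lt_one (l := 0) zero_lt_one ?_ ?_
    · exact Eventually.of_forall fun n => by positivity
    · have h : Tendsto (fun n : ℕ => p ^ n * (p / x)) atTop (𝓝 0) := by
        simpa using hpow.mul_const (p / x)
      refine h.congr fun n => ?_
      rw [Real.norm_of_nonneg (by positivity), Real.norm_of_nonneg (by positivity)]
      have e : (-((n + 1 : ℕ) : ℤ)) = -(n : ℤ) - 1 := by push_cast; ring
      rw [e, tri_sub, zpow_sub₀ hp, zpow_sub₀ hp, zpow_sub₀ hx']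
      simp only [zpow_neg, zpow_natCast, zpow_one]
      field_simp

end JTP

open JTP in
theorem jtp (p : ℝ) (hp0 : 0 < p) (hp1 : p < 1) (x : ℝ) (hx : 0 < x) :
    HasSum (fun r : ℤ => (-1 : ℝ) ^ r * p ^ (r * (r - 1) / 2) * x ^ r) (E p 1 1 * th p x) := by
  have hE := E_pos p hp0 hp1
  have hs := summable_coef p hp0 hp1 x hx
  have habs : ∀ r : ℤ, ‖(-1 : ℝ) ^ r * p ^ (r * (r - 1) / 2) * x ^ r‖ =
      p ^ (r * (r - 1) / 2) * x ^ r := by
    intro r
    rw [mul_assoc, norm_mul, norm_zpow, norm_neg, norm_one, one_zpow, one_mul,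
      Real.norm_of_nonneg (by positivity)]
  have hs' : Summable (fun r : ℤ => (-1 : ℝ) ^ r * p ^ (r * (r - 1) / 2) * x ^ r) := by
    refine Summable.of_norm (hs.congr fun r => ?_)
    rw [habs]
  have hb : Summable fun r : ℤ => p ^ (r * (r - 1) / 2) * x ^ r * (E p 1 1)⁻¹ := hs.mul_right _
  have h1 := tendsto_tsum_of_dominated_convergence (𝓕 := atTop)
    (f := fun (N : ℕ) (r : ℤ) => (-1 : ℝ) ^ r * p ^ (r * (r - 1) / 2) * x ^ r * G p (2 * N) (N + r))
    (g := fun r : ℤ => (-1 : ℝ) ^ r * p ^ (r * (r - 1) / 2) * x ^ r * (E p 1 1)⁻¹)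
    hb (fun r => (G_lim p hp0 hp1 r).const_mul _) (Eventually.of_forall fun N r => by
      rw [norm_mul, habs, Real.norm_of_nonneg (G_nonneg p hp0 _ _)]
      exact mul_le_mul_of_nonneg_left (G_le p hp0 hp1 _ _) (by positivity))
  have h2 : Tendsto (fun N : ℕ => ∑' r : ℤ,
      (-1 : ℝ) ^ r * p ^ (r * (r - 1) / 2) * x ^ r * G p (2 * N) (N + r)) atTop (𝓝 (th p x)) := by
    have h3 : ∀ N : ℕ, ∑' r : ℤ,
      (-1 : ℝ) ^ r * p ^ (r * (r - 1) / 2) * x ^ r * G p (2 * N) (N + r) =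
        (∏ j ∈ range N, (1 - x * p ^ j)) * ∏ j ∈ range N, (1 - p ^ (j + 1) / x) := by
      intro N
      rw [(fin_form p hp0 x hx N).tsum_eq, prod_mul_distrib]
    simp only [h3]
    refine Tendsto.mul ?_ ?_
    · simpa using tendsto_prod_shift p x hp0 hp1 0
    · have := tendsto_prod_shift p x⁻¹ hp0 hp1 1
      have e : ∀ j : ℕ, (1 - p ^ (j + 1) / x) = 1 - x⁻¹ * p ^ (j + 1) := by
        intro j; rw [div_eq_inv_mul]
      simpa only [e] using this
  have h4 := tendsto_nhds_unique h1 h2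
  rw [tsum_mul_right] at h4
  have h5 : ∑' r : ℤ, (-1 : ℝ) ^ r * p ^ (r * (r - 1) / 2) * x ^ r = E p 1 1 * th p x := by
    rw [← h4]; field_simp
  rw [← h5]
  exact hs'.hasSum

end Pool.Agent.H680_CP
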