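import Pool.Agent.H680_CP.T_T2D
import Pool.Agent.H680_CP.T_JTP

/-!
# Task T2: the theta determinant identity
-/

set_option autoImplicit false

namespace Pool.Agent.H680_CP

theorem T2 (k : ℕ) (p : ℝ) (hp0 : 0 < p) (hp1 : p < 1) (x z : Fin k → ℝ) (hx : ∀ i, 0 < x i)
    (hz : ∀ i, 0 < z i) (hR : Rdet k p z ≠ 0) :
    Pprod k p x * Rdet k p z = Rdet k p x * Pprod k p z :=
  T2N.T2_aux k p hp0 hp1 (fun y hy => jtp p hp0 hp1 y hy) x z hx hz hR

end Pool.Agent.H680_CP
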