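import Pool.Agent.H680_CP.Defs

/-!
# Task T4: the product rearrangement
-/

set_option autoImplicit false

namespace Pool.Agent.H680_CP

open Finset

namespace T4aux

/-! ### Basic facts on `E` -/

theorem one_sub_pos {q : ℝ} (hq0 : 0 < q) (hq1 : q < 1) {a : ℕ} (ha : 0 < a) (m j : ℕ) :
    0 < 1 - q ^ (a + m * j) := by
  have : q ^ (a + m * j) < 1 := pow_lt_one₀ hq0.le hq1 (by omega)
  linarith

theorem summable_pow {q : ℝ} (hq0 : 0 < q) (hq1 : q < 1) (a : ℕ) {m : ℕ} (hm : 0 < m) :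
    Summable fun j : ℕ => -q ^ (a + m * j) := by
  have h : Summable fun j : ℕ => q ^ a * (q ^ m) ^ j :=
    (summable_geometric_of_lt_one (by positivity) (pow_lt_one₀ hq0.le hq1 (by omega))).mul_left _
  refine h.neg.congr fun j => ?_
  rw [pow_add, pow_mul]

theorem summable_log {q : ℝ} (hq0 : 0 < q) (hq1 : q < 1) (a : ℕ) {m : ℕ} (hm : 0 < m) :
    Summable fun j : ℕ => Real.log (1 - q ^ (a + m * j)) := by
  have := Real.summable_log_one_add_of_summable (summable_pow hq0 hq1 a hm)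
  refine this.congr fun j => ?_
  rw [sub_eq_add_neg]

theorem E_eq_exp {q : ℝ} (hq0 : 0 < q) (hq1 : q < 1) {a m : ℕ} (ha : 0 < a) (hm : 0 < m) :
    E q a m = Real.exp (∑' j : ℕ, Real.log (1 - q ^ (a + m * j))) :=
  (Real.rexp_tsum_eq_tprod (fun j => one_sub_pos hq0 hq1 ha m j)
    (summable_log hq0 hq1 a hm)).symm

theorem E_pos {q : ℝ} (hq0 : 0 < q) (hq1 : q < 1) {a m : ℕ} (ha : 0 < a) (hm : 0 < m) :
    0 < E q a m := by
  rw [E_eq_exp hq0 hq1 ha hm]
  exact Real.exp_pos _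

theorem prod_zmod_val (d : ℕ) [NeZero d] (F : ℕ → ℝ) :
    ∏ j : ZMod d, F j.val = ∏ r ∈ range d, F r := by
  obtain ⟨n, rfl⟩ : ∃ n, d = n + 1 := ⟨d - 1, by have := NeZero.pos d; omega⟩
  exact Fin.prod_univ_eq_prod_range F (n + 1)

theorem sum_zmod_val (d : ℕ) [NeZero d] (F : ℕ → ℝ) :
    ∑ j : ZMod d, F j.val = ∑ r ∈ range d, F r := by
  obtain ⟨n, rfl⟩ : ∃ n, d = n + 1 := ⟨d - 1, by have := NeZero.pos d; omega⟩
  exact Fin.sum_univ_eq_sum_range F (n + 1)

/-- Splitting a product over the residue classes modulo `d`. -/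
theorem E_split {q : ℝ} (hq0 : 0 < q) (hq1 : q < 1) {a m d : ℕ} (ha : 0 < a) (hm : 0 < m)
    (hd : 0 < d) : E q a m = ∏ r ∈ range d, E q (a + m * r) (m * d) := by
  have : NeZero d := ⟨hd.ne'⟩
  have h1 : ∀ r ∈ range d, E q (a + m * r) (m * d) =
      Real.exp (∑' j : ℕ, Real.log (1 - q ^ (a + m * r + m * d * j))) := fun r _ =>
    E_eq_exp hq0 hq1 (by omega) (Nat.mul_pos hm hd)
  rw [Finset.prod_congr rfl h1, E_eq_exp hq0 hq1 ha hm, ← Real.exp_sum,
    Nat.sumByResidueClasses (summable_log hq0 hq1 a hm) d,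
    ← sum_zmod_val d fun r => ∑' j : ℕ, Real.log (1 - q ^ (a + m * r + m * d * j))]
  congr 1
  refine Finset.sum_congr rfl fun r _ => ?_
  refine tsum_congr fun j => ?_
  congr 3
  ring

/-! ### The products over `ZMod (2 M)` -/

theorem prod_zmod_symm (M : ℕ) (hM : 0 < M) [NeZero (2 * M)] (f : ZMod (2 * M) → ℝ) :
    ∏ r : ZMod (2 * M), f r = f 0 * f M * ∏ b ∈ Ico 1 M, f b * f (-b) := by
  have h0 : ∏ r : ZMod (2 * M), f r = ∏ r ∈ range (2 * M), f (r : ℕ) := by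
    rw [← prod_zmod_val (2 * M) fun r => f (r : ℕ)]
    refine Finset.prod_congr rfl fun r _ => ?_
    rw [ZMod.natCast_zmod_val]
  rw [h0, Finset.range_eq_Ico, ← Finset.prod_Ico_consecutive _ (Nat.zero_le M) (by omega : M ≤ 2 * M),
    Finset.prod_eq_prod_Ico_succ_bot hM, Finset.prod_eq_prod_Ico_succ_bot (by omega : M < 2 * M)]
  have h1 : ∏ k ∈ Ico (M + 1) (2 * M), f (k : ℕ) = ∏ b ∈ Ico 1 M, f (-(b : ZMod (2 * M))) := by
    have h := Finset.prod_Ico_reflect (fun k : ℕ => f (k : ℕ)) 1 (by omega : M ≤ 2 * M + 1)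
    have e1 : 2 * M + 1 - M = M + 1 := by omega
    have e2 : 2 * M + 1 - 1 = 2 * M := by omega
    rw [e1, e2] at h
    rw [← h]
    refine Finset.prod_congr rfl fun b hb => ?_
    have hb' := Finset.mem_Ico.mp hb
    congr 1
    rw [Nat.cast_sub (by omega), ZMod.natCast_self, zero_sub]
  rw [h1, Finset.prod_mul_distrib]
  simp
  ring

/-- The factor attached to a residue class modulo `2 M`. -/
noncomputable def gz (q : ℝ) (M : ℕ) (r : ZMod (2 * M)) : ℝ :=
  E q (if r = 0 then 2 * M else r.val) (2 * M)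

theorem gz_zero (q : ℝ) (M : ℕ) : gz q M 0 = E q (2 * M) (2 * M) := by
  simp [gz]

theorem gz_cast (q : ℝ) (M n : ℕ) (hn : 0 < n) (hn2 : n < 2 * M) :
    gz q M (n : ZMod (2 * M)) = E q n (2 * M) := by
  have h1 : ((n : ℕ) : ZMod (2 * M)).val = n := ZMod.val_cast_of_lt hn2
  have h2 : ((n : ℕ) : ZMod (2 * M)) ≠ 0 := by
    intro h
    rw [h, ZMod.val_zero] at h1
    omega
  rw [gz, if_neg h2, h1]

theorem gz_neg_cast (q : ℝ) (M n : ℕ) (hn : 0 < n) (hn2 : n < 2 * M) :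
    gz q M (-(n : ZMod (2 * M))) = E q (2 * M - n) (2 * M) := by
  rw [← gz_cast q M (2 * M - n) (by omega) (by omega), Nat.cast_sub hn2.le, ZMod.natCast_self,
    zero_sub]

theorem gz_pos {q : ℝ} (hq0 : 0 < q) (hq1 : q < 1) {M : ℕ} (hM : 0 < M) (r : ZMod (2 * M)) :
    0 < gz q M r := by
  have : NeZero (2 * M) := ⟨by omega⟩
  rw [gz]
  refine E_pos hq0 hq1 ?_ (by omega)
  split_ifs with h
  · omega
  · exact Nat.pos_of_ne_zero fun h' => h ((ZMod.val_eq_zero r).mp h')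

theorem prod_gz {q : ℝ} (hq0 : 0 < q) (hq1 : q < 1) {M : ℕ} (hM : 0 < M) [NeZero (2 * M)] :
    ∏ r : ZMod (2 * M), gz q M r = E q 1 1 := by
  have h0 : ∏ r : ZMod (2 * M), gz q M r = ∏ r ∈ range (2 * M), gz q M (r : ℕ) := by
    rw [← prod_zmod_val (2 * M) fun r => gz q M (r : ℕ)]
    refine Finset.prod_congr rfl fun r _ => ?_
    rw [ZMod.natCast_zmod_val]
  rw [h0, Finset.range_eq_Ico, Finset.prod_eq_prod_Ico_succ_bot (by omega : 0 < 2 * M),
    E_split hq0 hq1 one_pos one_pos (by omega : 0 < 2 * M)]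
  have h1 : ∏ k ∈ Ico (0 + 1) (2 * M), gz q M (k : ℕ) = ∏ k ∈ Ico 1 (2 * M), E q k (2 * M) := by
    refine Finset.prod_congr rfl fun k hk => ?_
    have := Finset.mem_Ico.mp hk
    exact gz_cast q M k (by omega) (by omega)
  have h2 : ∏ r ∈ range (2 * M), E q (1 + 1 * r) (1 * (2 * M)) =
      ∏ k ∈ Ico 1 (2 * M + 1), E q k (2 * M) := by
    rw [Finset.prod_Ico_eq_prod_range]
    simp
  rw [h1, h2, Finset.prod_Ico_succ_top (by omega : 1 ≤ 2 * M), Nat.cast_zero, gz_zero, mul_comm]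

/-- The symmetric version of `vt`. -/
noncomputable def vz (q : ℝ) (M a b : ℕ) : ℝ :=
  gz q M ((b : ZMod (2 * M)) - a) * gz q M ((a : ZMod (2 * M)) - b) *
    (gz q M ((a : ZMod (2 * M)) + b) * gz q M (-((a : ZMod (2 * M)) + b)))

theorem vz_comm (q : ℝ) (M a b : ℕ) : vz q M a b = vz q M b a := by
  rw [vz, vz, mul_comm (gz q M ((b : ZMod (2 * M)) - a)), add_comm (a : ZMod (2 * M))]

theorem vz_pos {q : ℝ} (hq0 : 0 < q) (hq1 : q < 1) {M : ℕ} (hM : 0 < M) (a b : ℕ) :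
    0 < vz q M a b := by
  have := fun r => gz_pos hq0 hq1 hM r
  rw [vz]
  exact mul_pos (mul_pos (this _) (this _)) (mul_pos (this _) (this _))

theorem vt_eq_vz (q : ℝ) (M a b : ℕ) (ha : 0 < a) (hab : a < b) (hb : b < M) :
    vt q M a b = vz q M a b := by
  rw [vt, vz]
  have e1 : (b : ZMod (2 * M)) - a = ((b - a : ℕ) : ZMod (2 * M)) := by
    rw [Nat.cast_sub hab.le]
  have e2 : (a : ZMod (2 * M)) - b = -((b - a : ℕ) : ZMod (2 * M)) := by
    rw [Nat.cast_sub hab.le, neg_sub]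
  have e3 : (a : ZMod (2 * M)) + b = ((a + b : ℕ) : ZMod (2 * M)) := by push_cast; ring
  rw [e1, e2, e3, gz_cast q M _ (by omega) (by omega), gz_neg_cast q M _ (by omega) (by omega),
    gz_cast q M _ (by omega) (by omega), gz_neg_cast q M _ (by omega) (by omega)]

theorem E_two {q : ℝ} (hq0 : 0 < q) (hq1 : q < 1) {a M : ℕ} (ha : 0 < a) (hM : 0 < M) :
    E q a M = E q a (2 * M) * E q (a + M) (2 * M) := by
  rw [E_split hq0 hq1 ha hM (by norm_num : 0 < 2), mul_comm M 2]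
  simp [Finset.prod_range_succ]

/-- The product of all the factors which contain `a`. -/
theorem key {q : ℝ} (hq0 : 0 < q) (hq1 : q < 1) {M : ℕ} {a : ℕ} (ha : a ∈ Ico 1 M) :
    E q 1 1 ^ 2 = (E q a M * E q (M - a) M) * (E q (2 * a) (2 * M) * E q (2 * M - 2 * a) (2 * M)) *
      E q (2 * M) (2 * M) ^ 2 * ∏ b ∈ (Ico 1 M).erase a, vz q M a b := by
  have ha' := Finset.mem_Ico.mp ha
  have hM : 0 < M := by omega
  have : NeZero (2 * M) := ⟨by omega⟩
  have h1 : E q 1 1 = ∏ r : ZMod (2 * M), gz q M (a + r) := by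
    rw [← prod_gz hq0 hq1 hM]
    exact (Equiv.prod_comp (Equiv.addLeft (a : ZMod (2 * M))) (gz q M)).symm
  have h2 : E q 1 1 = ∏ r : ZMod (2 * M), gz q M (-a + r) := by
    rw [← prod_gz hq0 hq1 hM]
    exact (Equiv.prod_comp (Equiv.addLeft (-(a : ZMod (2 * M)))) (gz q M)).symm
  rw [prod_zmod_symm M hM] at h1 h2
  rw [← Finset.mul_prod_erase _ _ ha] at h1 h2
  have e1 : gz q M ((a : ZMod (2 * M)) + 0) * gz q M ((a : ZMod (2 * M)) + M) = E q a M := by
    rw [E_two hq0 hq1 (by omega) hM, add_zero, gz_cast q M a (by omega) (by omega)]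
    congr 1
    rw [← gz_cast q M (a + M) (by omega) (by omega)]
    push_cast
    rfl
  have e2 : gz q M (-(a : ZMod (2 * M)) + 0) * gz q M (-(a : ZMod (2 * M)) + M) =
      E q (M - a) M := by
    rw [E_two hq0 hq1 (by omega) hM, add_zero, gz_neg_cast q M a (by omega) (by omega), mul_comm]
    congr 1
    · rw [← gz_cast q M (M - a) (by omega) (by omega), Nat.cast_sub (by omega)]
      congr 1
      ring
    · congr 1
      omega
  have e3 : gz q M ((a : ZMod (2 * M)) + a) * gz q M ((a : ZMod (2 * M)) + -a) =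
      E q (2 * a) (2 * M) * E q (2 * M) (2 * M) := by
    rw [add_neg_cancel, gz_zero, ← gz_cast q M (2 * a) (by omega) (by omega)]
    congr 2
    push_cast
    ring
  have e4 : gz q M (-(a : ZMod (2 * M)) + a) * gz q M (-(a : ZMod (2 * M)) + -a) =
      E q (2 * M - 2 * a) (2 * M) * E q (2 * M) (2 * M) := by
    rw [neg_add_cancel, gz_zero, ← gz_neg_cast q M (2 * a) (by omega) (by omega), mul_comm]
    congr 2
    push_cast
    ring
  rw [e1, e3] at h1
  rw [e2, e4] at h2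
  have e5 : ∏ b ∈ (Ico 1 M).erase a, vz q M a b =
      (∏ b ∈ (Ico 1 M).erase a, gz q M ((a : ZMod (2 * M)) + b) * gz q M ((a : ZMod (2 * M)) + -b)) *
      ∏ b ∈ (Ico 1 M).erase a, gz q M (-(a : ZMod (2 * M)) + b) *
        gz q M (-(a : ZMod (2 * M)) + -b) := by
    rw [← Finset.prod_mul_distrib]
    refine Finset.prod_congr rfl fun b _ => ?_
    rw [vz]
    have f1 : (b : ZMod (2 * M)) - a = -(a : ZMod (2 * M)) + b := by ring
    have f2 : (a : ZMod (2 * M)) - b = (a : ZMod (2 * M)) + -b := by ring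
    have f3 : -((a : ZMod (2 * M)) + b) = -(a : ZMod (2 * M)) + -b := by ring
    rw [f1, f2, f3]
    ring
  rw [e5, sq]
  nth_rewrite 1 [h1]
  rw [h2]
  ring

/-- The square of the double product. -/
theorem double_sq (v : ℕ → ℕ → ℝ) (hv : ∀ a b, v a b = v b a) (S : Finset ℕ) :
    (∏ a ∈ S, ∏ b ∈ S.filter (fun b => a < b), v a b) ^ 2 = ∏ a ∈ S, ∏ b ∈ S.erase a, v a b := by
  have h1 : ∀ a ∈ S, ∏ b ∈ S.erase a, v a b =
      (∏ b ∈ S.filter (fun b => a < b), v a b) * ∏ b ∈ S.filter (fun b => b < a), v a b := by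
    intro a _
    have hd : Disjoint (S.filter fun b => a < b) (S.filter fun b => b < a) :=
      Finset.disjoint_filter.mpr fun b _ h => by omega
    rw [← Finset.prod_union hd]
    refine Finset.prod_congr ?_ fun _ _ => rfl
    ext b
    simp only [Finset.mem_erase, Finset.mem_union, Finset.mem_filter]
    constructor
    · rintro ⟨h, hb⟩
      rcases lt_or_gt_of_ne h with h | h
      · exact Or.inr ⟨hb, h⟩
      · exact Or.inl ⟨hb, h⟩
    · rintro (⟨hb, h⟩ | ⟨hb, h⟩)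
      · exact ⟨by omega, hb⟩
      · exact ⟨by omega, hb⟩
  rw [Finset.prod_congr rfl h1, Finset.prod_mul_distrib, sq]
  congr 1
  rw [Finset.prod_comm' (t' := S) (s' := fun b => S.filter fun a => a < b)]
  · refine Finset.prod_congr rfl fun b _ => Finset.prod_congr rfl fun a _ => hv _ _
  · intro a b
    simp only [Finset.mem_filter]
    tauto

/-- The product over one side. -/
theorem side {q : ℝ} (hq0 : 0 < q) (hq1 : q < 1) (M : ℕ) (A B : Finset ℕ)
    (hAB : Disjoint A B) (hU : A ∪ B = Finset.Ico 1 M) :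
    (E q 1 1 ^ A.card) ^ 2 = (∏ a ∈ A, E q a M * E q (M - a) M) *
      (∏ a ∈ A, E q (2 * a) (2 * M) * E q (2 * M - 2 * a) (2 * M)) *
      (E q (2 * M) (2 * M) ^ A.card) ^ 2 *
      (∏ a ∈ A, ∏ b ∈ A.filter (fun b => a < b), vt q M a b) ^ 2 *
      ∏ a ∈ A, ∏ b ∈ B, vz q M a b := by
  have hmem : ∀ a ∈ A, a ∈ Ico 1 M := fun a ha => hU ▸ Finset.mem_union_left _ ha
  have h0 : ∏ a ∈ A, ∏ b ∈ A.filter (fun b => a < b), vt q M a b =
      ∏ a ∈ A, ∏ b ∈ A.filter (fun b => a < b), vz q M a b := by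
    refine Finset.prod_congr rfl fun a ha => Finset.prod_congr rfl fun b hb => ?_
    have h1 := Finset.mem_Ico.mp (hmem a ha)
    have h2 := Finset.mem_filter.mp hb
    have h3 := Finset.mem_Ico.mp (hmem b h2.1)
    exact vt_eq_vz q M a b (by omega) h2.2 (by omega)
  have h1 : ∀ a ∈ A, ∏ b ∈ (Ico 1 M).erase a, vz q M a b =
      (∏ b ∈ A.erase a, vz q M a b) * ∏ b ∈ B, vz q M a b := by
    intro a ha
    have hd : Disjoint (A.erase a) B := hAB.mono_left (Finset.erase_subset _ _)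
    rw [← Finset.prod_union hd, ← hU, Finset.erase_union_distrib,
      Finset.erase_eq_of_notMem (Finset.disjoint_left.mp hAB ha)]
  have h2 : ∏ a ∈ A, E q 1 1 ^ 2 = ∏ a ∈ A, ((E q a M * E q (M - a) M) *
      (E q (2 * a) (2 * M) * E q (2 * M - 2 * a) (2 * M)) *
      E q (2 * M) (2 * M) ^ 2 * ((∏ b ∈ A.erase a, vz q M a b) * ∏ b ∈ B, vz q M a b)) := by
    refine Finset.prod_congr rfl fun a ha => ?_
    rw [key hq0 hq1 (hmem a ha), h1 a ha]
  simp only [Finset.prod_mul_distrib, Finset.prod_const] at h2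
  rw [h0, double_sq _ (vz_comm q M), ← pow_mul, mul_comm A.card 2, pow_mul, h2, ← pow_mul,
    ← pow_mul, mul_comm A.card 2]
  simp only [Finset.prod_mul_distrib]
  ring

theorem consts {q : ℝ} (hq0 : 0 < q) (hq1 : q < 1) {M : ℕ} (hM : 0 < M) :
    E q M (2 * M) ^ 2 * (∏ a ∈ Ico 1 M, E q a M * E q (M - a) M) =
      E q 1 2 ^ 2 * (∏ a ∈ Ico 1 M, E q (2 * a) (2 * M) * E q (2 * M - 2 * a) (2 * M)) := by
  have hP : ∏ a ∈ Ico 1 M, E q (M - a) M = ∏ a ∈ Ico 1 M, E q a M := by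
    have h := Finset.prod_Ico_reflect (fun k : ℕ => E q k M) 1 (by omega : M ≤ M + 1)
    rw [h]
    congr 2
    omega
  have hQ : ∏ a ∈ Ico 1 M, E q (2 * M - 2 * a) (2 * M) = ∏ a ∈ Ico 1 M, E q (2 * a) (2 * M) := by
    have h := Finset.prod_Ico_reflect (fun k : ℕ => E q (2 * k) (2 * M)) 1 (by omega : M ≤ M + 1)
    rw [show M + 1 - M = 1 by omega, show M + 1 - 1 = M by omega] at h
    rw [← h]
    refine Finset.prod_congr rfl fun a ha => ?_
    rw [Nat.mul_sub]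
  have h1 : E q 1 1 = (∏ a ∈ Ico 1 M, E q a M) * E q M M := by
    rw [← Finset.prod_Ico_succ_top (by omega : 1 ≤ M) (fun a => E q a M),
      E_split hq0 hq1 one_pos one_pos hM, Finset.prod_Ico_eq_prod_range]
    simp
  have h2 : E q 2 2 = (∏ a ∈ Ico 1 M, E q (2 * a) (2 * M)) * E q (2 * M) (2 * M) := by
    rw [← Finset.prod_Ico_succ_top (by omega : 1 ≤ M) (fun a => E q (2 * a) (2 * M)),
      E_split hq0 hq1 two_pos two_pos hM, Finset.prod_Ico_eq_prod_range]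
    simp [mul_add]
  have h3 : E q 1 1 = E q 1 2 * E q 2 2 := E_two hq0 hq1 one_pos one_pos
  have h4 : E q M M = E q M (2 * M) * E q (2 * M) (2 * M) := by
    rw [E_two hq0 hq1 hM hM, two_mul]
  have hY : 0 < E q (2 * M) (2 * M) := E_pos hq0 hq1 (by omega) (by omega)
  have h5 : E q M (2 * M) * (∏ a ∈ Ico 1 M, E q a M) =
      E q 1 2 * ∏ a ∈ Ico 1 M, E q (2 * a) (2 * M) := by
    have : (E q M (2 * M) * (∏ a ∈ Ico 1 M, E q a M)) * E q (2 * M) (2 * M) =
      (E q 1 2 * ∏ a ∈ Ico 1 M, E q (2 * a) (2 * M)) * E q (2 * M) (2 * M) := by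
      rw [mul_assoc (E q 1 2), ← h2, ← h3, h1, h4]
      ring
    exact mul_right_cancel₀ hY.ne' this
  rw [Finset.prod_mul_distrib, Finset.prod_mul_distrib, hP, hQ, ← sq, ← sq, ← mul_pow, ← mul_pow,
    h5]

end T4aux

open T4aux in
theorem T4 (q : ℝ) (hq0 : 0 < q) (hq1 : q < 1) (M : ℕ) (hM : 0 < M) (A B : Finset ℕ)
    (hAB : Disjoint A B) (hU : A ∪ B = Finset.Ico 1 M) :
    E q M (2 * M) * E q (2 * M) (2 * M) ^ A.card / (E q 1 2 * E q 1 1 ^ A.card) *
        (∏ a ∈ A, E q a M * E q (M - a) M) *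
        (∏ a ∈ A, ∏ b ∈ A.filter (fun b => a < b), vt q M a b) =
      E q (2 * M) (2 * M) ^ B.card / E q 1 1 ^ B.card *
        (∏ b ∈ B, E q (2 * b) (2 * M) * E q (2 * M - 2 * b) (2 * M)) *
        (∏ a ∈ B, ∏ b ∈ B.filter (fun b => a < b), vt q M a b) := by
  have hmemA : ∀ a ∈ A, 1 ≤ a ∧ a < M := fun a ha =>
    Finset.mem_Ico.mp (hU ▸ Finset.mem_union_left _ ha)
  have hmemB : ∀ a ∈ B, 1 ≤ a ∧ a < M := fun a ha =>
    Finset.mem_Ico.mp (hU ▸ Finset.mem_union_right _ ha)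
  have hA := side hq0 hq1 M A B hAB hU
  have hB := side hq0 hq1 M B A hAB.symm (by rw [Finset.union_comm]; exact hU)
  have hC : ∏ a ∈ B, ∏ b ∈ A, vz q M a b = ∏ a ∈ A, ∏ b ∈ B, vz q M a b := by
    rw [Finset.prod_comm]
    exact Finset.prod_congr rfl fun a _ => Finset.prod_congr rfl fun b _ => vz_comm q M b a
  rw [hC] at hB
  have hK := consts hq0 hq1 hM
  rw [← hU, Finset.prod_union hAB, Finset.prod_union hAB] at hK
  have hF : 0 < E q M (2 * M) := E_pos hq0 hq1 hM (by omega)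
  have hG : 0 < E q 1 2 := E_pos hq0 hq1 one_pos two_pos
  have hX : 0 < E q 1 1 := E_pos hq0 hq1 one_pos one_pos
  have hY : 0 < E q (2 * M) (2 * M) := E_pos hq0 hq1 (by omega) (by omega)
  have hCpos : 0 < ∏ a ∈ A, ∏ b ∈ B, vz q M a b :=
    Finset.prod_pos fun a _ => Finset.prod_pos fun b _ => vz_pos hq0 hq1 hM a b
  have hvt : ∀ S : Finset ℕ, (∀ a ∈ S, 1 ≤ a ∧ a < M) →
      0 < ∏ a ∈ S, ∏ b ∈ S.filter (fun b => a < b), vt q M a b := by
    intro S hS
    refine Finset.prod_pos fun a ha => Finset.prod_pos fun b hb => ?_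
    have h1 := hS a ha
    have h2 := Finset.mem_filter.mp hb
    have h3 := hS b h2.1
    rw [vt_eq_vz q M a b (by omega) h2.2 (by omega)]
    exact vz_pos hq0 hq1 hM a b
  have hT : ∀ S : Finset ℕ, (∀ a ∈ S, 1 ≤ a ∧ a < M) →
      0 < ∏ a ∈ S, E q a M * E q (M - a) M := by
    intro S hS
    refine Finset.prod_pos fun a ha => ?_
    have h1 := hS a ha
    exact mul_pos (E_pos hq0 hq1 (by omega) hM) (E_pos hq0 hq1 (by omega) hM)
  have hUU : ∀ S : Finset ℕ, (∀ a ∈ S, 1 ≤ a ∧ a < M) →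
      0 < ∏ a ∈ S, E q (2 * a) (2 * M) * E q (2 * M - 2 * a) (2 * M) := by
    intro S hS
    refine Finset.prod_pos fun a ha => ?_
    have h1 := hS a ha
    exact mul_pos (E_pos hq0 hq1 (by omega) (by omega)) (E_pos hq0 hq1 (by omega) (by omega))
  have hDA := hvt A hmemA
  have hDB := hvt B hmemB
  have hTA := hT A hmemA
  have hTB := hT B hmemB
  have hUA := hUU A hmemA
  have hUB := hUU B hmemB
  have hXA : 0 < E q 1 1 ^ A.card := pow_pos hX _
  have hXB : 0 < E q 1 1 ^ B.card := pow_pos hX _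
  have hYA : 0 < E q (2 * M) (2 * M) ^ A.card := pow_pos hY _
  have hYB : 0 < E q (2 * M) (2 * M) ^ B.card := pow_pos hY _
  generalize (∏ a ∈ A, ∏ b ∈ A.filter (fun b => a < b), vt q M a b) = DA at *
  generalize (∏ a ∈ B, ∏ b ∈ B.filter (fun b => a < b), vt q M a b) = DB at *
  generalize (∏ a ∈ A, E q a M * E q (M - a) M) = TA at *
  generalize (∏ a ∈ B, E q a M * E q (M - a) M) = TB at *
  generalize (∏ a ∈ A, E q (2 * a) (2 * M) * E q (2 * M - 2 * a) (2 * M)) = UA at *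
  generalize (∏ a ∈ B, E q (2 * a) (2 * M) * E q (2 * M - 2 * a) (2 * M)) = UB at *
  generalize (∏ a ∈ A, ∏ b ∈ B, vz q M a b) = C at *
  generalize E q 1 1 ^ A.card = XA at *
  generalize E q 1 1 ^ B.card = XB at *
  generalize E q (2 * M) (2 * M) ^ A.card = YA at *
  generalize E q (2 * M) (2 * M) ^ B.card = YB at *
  generalize E q M (2 * M) = F at *
  generalize E q 1 2 = G at *
  have hsq : (F * YA / (G * XA) * TA * DA) ^ 2 = (YB / XB * UB * DB) ^ 2 := by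
    have e1 : (F * YA / (G * XA) * TA * DA) ^ 2 = F ^ 2 * YA ^ 2 * TA ^ 2 * DA ^ 2 / (G ^ 2 * XA ^ 2) := by
      field_simp
    have e2 : (YB / XB * UB * DB) ^ 2 = YB ^ 2 * UB ^ 2 * DB ^ 2 / XB ^ 2 := by
      field_simp
    rw [e1, e2, hA, hB, div_eq_div_iff (by positivity) (by positivity)]
    have e3 : F ^ 2 * YA ^ 2 * TA ^ 2 * DA ^ 2 * (TB * UB * YB ^ 2 * DB ^ 2 * C) =
        (F ^ 2 * (TA * TB)) * (YA ^ 2 * TA * DA ^ 2 * UB * YB ^ 2 * DB ^ 2 * C) := by ring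
    rw [e3, hK]
    ring
  have hL : 0 ≤ F * YA / (G * XA) * TA * DA := by positivity
  have hR : 0 ≤ YB / XB * UB * DB := by positivity
  exact (pow_left_inj₀ hL hR two_ne_zero).mp hsq

end Pool.Agent.H680_CP
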