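import Pool.Agent.H680_CP.T_D
import Pool.Agent.H680_CP.T_H0
import Pool.Agent.H680_CP.T_T4
import Pool.Agent.H680_CP.T_T2
import Pool.Agent.H680_CP.T_T1
import Pool.Agent.H680_CP.T_LIM

set_option autoImplicit false

namespace Pool.Agent.H680_CP

open Finset Filter Topology

theorem bpos_strictMono (n : ℕ) (k : ℕ → ℕ) (K : ℕ) :
    StrictMono (fun t : Fin K => bpos n k t) := by
  intro i j hij
  have hij' : (i : ℕ) < j := hij
  have : ((Finset.Icc 1 n).filter fun m => ∑ s ∈ range m, k s ≤ i).card ≤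
      ((Finset.Icc 1 n).filter fun m => ∑ s ∈ range m, k s ≤ j).card := by
    apply Finset.card_le_card
    intro m hm
    rw [Finset.mem_filter] at hm ⊢
    exact ⟨hm.1, by omega⟩
  simp only [bpos]
  omega

theorem bpos_pos (n : ℕ) (k : ℕ → ℕ) (t : ℕ) : 0 < bpos n k t := by
  unfold bpos; omega

theorem bpos_lt (n : ℕ) (k : ℕ → ℕ) (K t : ℕ) (ht : t < K) : bpos n k t < n + K + 1 := by
  have : ((Finset.Icc 1 n).filter fun m => ∑ s ∈ range m, k s ≤ t).card ≤ n := by
    refine (Finset.card_filter_le _ _).trans ?_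
    simp
  simp only [bpos]
  omega

/-- The determinant form of the generating function. -/
theorem hasSum_det (n : ℕ) (k : ℕ → ℕ) (q : ℝ) (hq0 : 0 < q) (hq1 : q < 1) :
    HasSum (fun N => ((SS n k N).ncard : ℝ) * q ^ N)
      (q ^ (∑ t : Fin (∑ t ∈ range (n + 1), k t), ((t : ℕ) + 1) * bpos n k t) *
        ((E q 1 1)⁻¹ ^ (∑ t ∈ range (n + 1), k t) *
          Rdet (∑ t ∈ range (n + 1), k t) (q ^ (2 * (n + (∑ t ∈ range (n + 1), k t) + 1)))
            (fun i => q ^ (bpos n k i)))) := by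
  classical
  set K := ∑ t ∈ range (n + 1), k t with hK
  refine genfun_limit (H := fun _ => ℕ → Fin K → Bool)
    (fun l => Fam n (fun t : Fin K => bpos n k t) (2 * l))
    (fun l h => wt n (fun t : Fin K => bpos n k t) (2 * l) h)
    (fun N => (SS n k N).ncard) q _ hq0 hq1 ?_ ?_ ?_
  · intro l N
    exact D_le n k l N
  · intro N
    exact D_eq n k N
  · have h1 : ∀ l, ∑ h ∈ Fam n (fun t : Fin K => bpos n k t) (2 * l),
        q ^ (wt n (fun t : Fin K => bpos n k t) (2 * l) h) =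
        q ^ (∑ t : Fin K, ((t : ℕ) + 1) * bpos n k t) *
        Matrix.det (Matrix.of fun t i : Fin K =>
          Rw q (K + 1) (n + K + 1) (bpos n k i) (((t : ℕ) : ℤ) + 1) (2 * l)
            ((l : ℤ) + (n + (t : ℕ) + 1))) := fun l =>
      T1 q hq0 n K (fun t : Fin K => bpos n k t) (bpos_strictMono n k K)
        (fun t => bpos_pos n k t) (fun t => bpos_lt n k K t t.2) l
    simp only [h1]
    refine Tendsto.const_mul _ ?_
    have h2 : (E q 1 1)⁻¹ ^ K * Rdet K (q ^ (2 * (n + K + 1))) (fun i => q ^ (bpos n k i)) =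
        Matrix.det (Matrix.of fun t i : Fin K => (E q 1 1)⁻¹ *
          phi (K + 1) (q ^ (2 * (n + K + 1))) (((t : ℕ) : ℤ) + 1) (q ^ (bpos n k i))) := by
      have h3 := Matrix.det_smul (Matrix.of fun t i : Fin K =>
          phi (K + 1) (q ^ (2 * (n + K + 1))) (((t : ℕ) : ℤ) + 1) (q ^ (bpos n k i))) (E q 1 1)⁻¹
      rw [Fintype.card_fin] at h3
      rw [Rdet, ← h3]
      rfl
    rw [h2]
    refine ((continuous_id.matrix_det).tendsto _).comp ?_
    refine (tendsto_pi_nhds (f := fun (l : ℕ) (t : Fin K) (i : Fin K) =>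
      Rw q (K + 1) (n + K + 1) (bpos n k i) (((t : ℕ) : ℤ) + 1) (2 * l)
            ((l : ℤ) + (n + (t : ℕ) + 1)))).2 fun t => tendsto_pi_nhds.2 fun i => ?_
    exact Rw_tendsto q hq0 hq1 (K + 1) (n + K + 1) (bpos n k i) (by omega) (bpos_pos n k i)
      (bpos_lt n k K i i.2) (((t : ℕ) : ℤ) + 1) (n + (t : ℕ) + 1)

end Pool.Agent.H680_CP
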