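import Pool.Agent.H680_CP.Asm1

set_option autoImplicit false

namespace Pool.Agent.H680_CP

open Finset Filter Topology

theorem th_pow (q : ℝ) (hq0 : 0 < q) (m c : ℕ) (h : c ≤ m) :
    th (q ^ m) (q ^ c) = E q c m * E q (m - c) m := by
  unfold th E
  congr 1
  · congr 1
    funext j
    rw [← pow_mul, ← pow_add]
  · congr 1
    funext j
    rw [← pow_mul, show m * (j + 1) = (m - c + m * j) + c by
      have : m * (j + 1) = m * j + m := by ring
      omega, pow_add, mul_div_assoc, div_self (pow_ne_zero _ hq0.ne'), mul_one]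

theorem prod_pairs_image {k : ℕ} (b : Fin k → ℕ) (hb : StrictMono b) (v : ℕ → ℕ → ℝ) :
    (∏ x ∈ Finset.univ.image b, ∏ y ∈ (Finset.univ.image b).filter (fun y => x < y), v x y) =
      ∏ i, ∏ j ∈ Finset.Ioi i, v (b i) (b j) := by
  rw [Finset.prod_image (fun i _ j _ h => hb.injective h)]
  refine Finset.prod_congr rfl fun i _ => ?_
  have : (Finset.univ.image b).filter (fun y => b i < y) = (Finset.Ioi i).image b := by
    ext y
    simp only [Finset.mem_filter, Finset.mem_image, Finset.mem_univ, true_and, Finset.mem_Ioi]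
    constructor
    · rintro ⟨⟨j, rfl⟩, h⟩
      exact ⟨j, hb.lt_iff_lt.1 h, rfl⟩
    · rintro ⟨j, h, rfl⟩
      exact ⟨⟨j, rfl⟩, hb h⟩
  rw [this, Finset.prod_image (fun i _ j _ h => hb.injective h)]

theorem prod_inv_pairs {k : ℕ} (q : ℝ) (hq0 : 0 < q) (b : Fin k → ℕ) :
    q ^ (∑ t : Fin k, ((t : ℕ) + 1) * b t) *
      ((∏ i, (q ^ (b i))⁻¹) * ∏ i, ∏ j ∈ Finset.Ioi i, (q ^ (b j))⁻¹) = 1 := by
  have h1 : (∏ i : Fin k, ∏ j ∈ Finset.Ioi i, (q ^ (b j))⁻¹) =
      ∏ j : Fin k, ((q ^ (b j))⁻¹) ^ (j : ℕ) := by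
    rw [Finset.prod_comm' (t' := Finset.univ) (s' := fun j => Finset.Iio j)]
    · refine Finset.prod_congr rfl fun j _ => ?_
      rw [Finset.prod_const, Fin.card_Iio]
    · intro x y
      simp
  rw [h1, ← Finset.prod_mul_distrib, ← Finset.prod_pow_eq_pow_sum, ← Finset.prod_mul_distrib]
  refine Finset.prod_eq_one fun t _ => ?_
  rw [← pow_succ', inv_pow, ← pow_mul, mul_comm (b t)]
  exact mul_inv_cancel₀ (pow_ne_zero _ hq0.ne')

/-- The product side of type C at powers of `q`. -/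
theorem Pprod_pow (q : ℝ) (hq0 : 0 < q) (k M : ℕ) (b : Fin k → ℕ) (hb : StrictMono b)
    (hbM : ∀ t, b t < M) :
    q ^ (∑ t : Fin k, ((t : ℕ) + 1) * b t) * Pprod k (q ^ (2 * M)) (fun i => q ^ (b i)) =
      (∏ i, E q (2 * b i) (2 * M) * E q (2 * M - 2 * b i) (2 * M)) *
        ∏ i, ∏ j ∈ Finset.Ioi i, vt q M (b i) (b j) := by
  have h1 : Pprod k (q ^ (2 * M)) (fun i => q ^ (b i)) =
      ((∏ i, (q ^ (b i))⁻¹) * ∏ i, ∏ j ∈ Finset.Ioi i, (q ^ (b j))⁻¹) *
      ((∏ i, E q (2 * b i) (2 * M) * E q (2 * M - 2 * b i) (2 * M)) *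
        ∏ i, ∏ j ∈ Finset.Ioi i, vt q M (b i) (b j)) := by
    have h2 : ∀ i, (q ^ (b i))⁻¹ * th (q ^ (2 * M)) ((q ^ (b i)) ^ 2) =
        (q ^ (b i))⁻¹ * (E q (2 * b i) (2 * M) * E q (2 * M - 2 * b i) (2 * M)) := by
      intro i
      rw [← pow_mul, mul_comm (b i) 2, th_pow q hq0 _ _ (by have := hbM i; omega)]
    have h3 : ∀ i : Fin k, ∀ j ∈ Finset.Ioi i, (q ^ (b j))⁻¹ *
        th (q ^ (2 * M)) (q ^ (b j) / q ^ (b i)) * th (q ^ (2 * M)) (q ^ (b i) * q ^ (b j)) =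
        (q ^ (b j))⁻¹ * vt q M (b i) (b j) := by
      intro i j hij
      have hlt : b i < b j := hb (Finset.mem_Ioi.1 hij)
      have e1 : q ^ (b j) / q ^ (b i) = q ^ (b j - b i) := by
        rw [div_eq_iff (pow_ne_zero _ hq0.ne'), ← pow_add]
        congr 1; omega
      have := hbM i
      have := hbM j
      rw [e1, ← pow_add, th_pow q hq0 _ _ (by omega), th_pow q hq0 _ _ (by omega), vt]
      ring
    unfold Pprod
    simp only []
    rw [Finset.prod_congr rfl fun i _ => h2 i,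
      Finset.prod_congr rfl fun i _ => Finset.prod_congr rfl (h3 i)]
    simp only [Finset.prod_mul_distrib]
    ring
  rw [h1, ← mul_assoc, prod_inv_pairs q hq0 b, one_mul]

end Pool.Agent.H680_CP
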