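import Pool.Agent.H680_CP.Asm2

set_option autoImplicit false

namespace Pool.Agent.H680_CP

open Finset Filter Topology

/-- `K_j + j`. -/
def alph (k : ℕ → ℕ) (j : ℕ) : ℕ := (∑ i ∈ range j, k i) + j

theorem alph_strictMono (k : ℕ → ℕ) : StrictMono (alph k) := by
  apply strictMono_nat_of_lt_succ
  intro j
  unfold alph
  rw [Finset.sum_range_succ]
  omega

theorem sumK_mono (k : ℕ → ℕ) {i j : ℕ} (h : i ≤ j) :
    ∑ s ∈ range i, k s ≤ ∑ s ∈ range j, k s :=
  Finset.sum_le_sum_of_subset (Finset.range_subset_range.2 h)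

theorem alph_ne_bpos (n : ℕ) (k : ℕ → ℕ) (j t : ℕ) (hj1 : 1 ≤ j) (hjn : j ≤ n) :
    alph k j ≠ bpos n k t := by
  unfold alph bpos
  by_cases h : ∑ i ∈ range j, k i ≤ t
  · have : j ≤ ((Finset.Icc 1 n).filter fun m => ∑ s ∈ range m, k s ≤ t).card := by
      calc j = (Finset.Icc 1 j).card := by simp
        _ ≤ _ := by
          apply Finset.card_le_card
          intro m hm
          rw [Finset.mem_Icc] at hm
          rw [Finset.mem_filter, Finset.mem_Icc]
          exact ⟨⟨hm.1, by omega⟩, (sumK_mono k hm.2).trans h⟩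
    omega
  · have : ((Finset.Icc 1 n).filter fun m => ∑ s ∈ range m, k s ≤ t).card ≤ j - 1 := by
      calc _ ≤ (Finset.Icc 1 (j - 1)).card := by
            apply Finset.card_le_card
            intro m hm
            rw [Finset.mem_filter, Finset.mem_Icc] at hm
            rw [Finset.mem_Icc]
            refine ⟨hm.1.1, ?_⟩
            by_contra hlt
            have : ∑ s ∈ range j, k s ≤ ∑ s ∈ range m, k s := sumK_mono k (by omega)
            omega
        _ = j - 1 := by simp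
    omega

theorem AB_disjoint (n K : ℕ) (k : ℕ → ℕ) :
    Disjoint ((Finset.Icc 1 n).image (alph k))
      ((Finset.univ : Finset (Fin K)).image (fun t : Fin K => bpos n k t)) := by
  rw [Finset.disjoint_left]
  intro a ha hb
  rw [Finset.mem_image] at ha hb
  obtain ⟨j, hj, rfl⟩ := ha
  obtain ⟨t, -, ht⟩ := hb
  rw [Finset.mem_Icc] at hj
  exact alph_ne_bpos n k j t hj.1 hj.2 ht.symm

theorem AB_union (n K : ℕ) (k : ℕ → ℕ) (hK : K = ∑ t ∈ range (n + 1), k t) :
    ((Finset.Icc 1 n).image (alph k)) ∪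
      ((Finset.univ : Finset (Fin K)).image (fun t : Fin K => bpos n k t)) = Finset.Ico 1 (n + K + 1) := by
  apply Finset.eq_of_subset_of_card_le
  · intro a ha
    rw [Finset.mem_union, Finset.mem_image, Finset.mem_image] at ha
    rw [Finset.mem_Ico]
    rcases ha with ⟨j, hj, rfl⟩ | ⟨t, -, rfl⟩
    · rw [Finset.mem_Icc] at hj
      have : ∑ s ∈ range j, k s ≤ ∑ s ∈ range (n + 1), k s := sumK_mono k (by omega)
      unfold alph
      omega
    · exact ⟨bpos_pos n k t, bpos_lt n k K t t.2⟩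
  · rw [Finset.card_union_of_disjoint (AB_disjoint n K k),
      Finset.card_image_of_injective _ (alph_strictMono k).injective,
      Finset.card_image_of_injective _ (bpos_strictMono n k K).injective]
    simp

theorem hasSum_det' (n : ℕ) (k : ℕ → ℕ) (q : ℝ) (hq0 : 0 < q) (hq1 : q < 1) (K : ℕ)
    (hK : K = ∑ t ∈ range (n + 1), k t) :
    HasSum (fun N => ((SS n k N).ncard : ℝ) * q ^ N)
      (q ^ (∑ t : Fin K, ((t : ℕ) + 1) * bpos n k t) *
        ((E q 1 1)⁻¹ ^ K * Rdet K (q ^ (2 * (n + K + 1))) (fun i => q ^ (bpos n k i)))) := by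
  subst hK
  exact hasSum_det n k q hq0 hq1

/-- T4 in terms of `Pprod`. -/
theorem T4' (q : ℝ) (hq0 : 0 < q) (hq1 : q < 1) (n : ℕ) (k : ℕ → ℕ) (K : ℕ)
    (hK : K = ∑ t ∈ range (n + 1), k t) :
    E q (n + K + 1) (2 * (n + K + 1)) * E q (2 * (n + K + 1)) (2 * (n + K + 1)) ^ n /
          (E q 1 2 * E q 1 1 ^ n) *
        (∏ i ∈ Finset.Icc 1 n, E q (alph k i) (n + K + 1) *
          E q (n + K + 1 - alph k i) (n + K + 1)) *
        (∏ i ∈ Finset.Icc 1 n, ∏ l ∈ Finset.Icc (i + 1) n,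
          vt q (n + K + 1) (alph k i) (alph k l)) =
      q ^ (∑ t : Fin K, ((t : ℕ) + 1) * bpos n k t) *
        ((E q 1 1)⁻¹ ^ K * (E q (2 * (n + K + 1)) (2 * (n + K + 1)) ^ K *
          Pprod K (q ^ (2 * (n + K + 1))) (fun i => q ^ (bpos n k i)))) := by
  have h := T4 q hq0 hq1 (n + K + 1) (by omega) _ _ (AB_disjoint n K k) (AB_union n K k hK)
  rw [prod_pairs_image _ (bpos_strictMono n k K),
    Finset.prod_image (fun i _ j _ h => (bpos_strictMono n k K).injective h),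
    Finset.card_image_of_injective _ (alph_strictMono k).injective,
    Finset.card_image_of_injective _ (bpos_strictMono n k K).injective,
    Finset.prod_image (fun i _ j _ h => (alph_strictMono k).injective h),
    Finset.prod_image (fun i _ j _ h => (alph_strictMono k).injective h)] at h
  have h1 : (∏ i ∈ Finset.Icc 1 n, ∏ y ∈ ((Finset.Icc 1 n).image (alph k)).filter
        (fun b => alph k i < b), vt q (n + K + 1) (alph k i) y) =
      (∏ i ∈ Finset.Icc 1 n, ∏ l ∈ Finset.Icc (i + 1) n,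
          vt q (n + K + 1) (alph k i) (alph k l)) := by
    refine Finset.prod_congr rfl fun i hi => ?_
    rw [Finset.mem_Icc] at hi
    have : ((Finset.Icc 1 n).image (alph k)).filter (fun b => alph k i < b) =
        (Finset.Icc (i + 1) n).image (alph k) := by
      ext y
      simp only [Finset.mem_filter, Finset.mem_image, Finset.mem_Icc]
      constructor
      · rintro ⟨⟨j, hj, rfl⟩, h⟩
        have := (alph_strictMono k).lt_iff_lt.1 h
        exact ⟨j, ⟨by omega, hj.2⟩, rfl⟩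
      · rintro ⟨j, hj, rfl⟩
        exact ⟨⟨j, ⟨by omega, hj.2⟩, rfl⟩, (alph_strictMono k) (by omega)⟩
    rw [this, Finset.prod_image (fun i _ j _ h => (alph_strictMono k).injective h)]
  rw [h1] at h
  simp only [Nat.card_Icc, Finset.card_univ, Fintype.card_fin, Nat.add_sub_cancel] at h
  rw [h]
  have h2 := Pprod_pow q hq0 K (n + K + 1) (fun i => bpos n k i) (bpos_strictMono n k K)
    (fun t => bpos_lt n k K t t.2)
  rw [inv_pow]
  have h3 : q ^ (∑ t : Fin K, ((t : ℕ) + 1) * bpos n k t) *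
        ((E q 1 1 ^ K)⁻¹ * (E q (2 * (n + K + 1)) (2 * (n + K + 1)) ^ K *
          Pprod K (q ^ (2 * (n + K + 1))) (fun i => q ^ (bpos n k i)))) =
      E q (2 * (n + K + 1)) (2 * (n + K + 1)) ^ K / E q 1 1 ^ K *
      (q ^ (∑ t : Fin K, ((t : ℕ) + 1) * bpos n k t) *
        Pprod K (q ^ (2 * (n + K + 1))) (fun i => q ^ (bpos n k i))) := by
    ring
  rw [h3, h2]
  ring

theorem E_pow (q : ℝ) (m : ℕ) : E q m m = E (q ^ m) 1 1 := by
  unfold E
  congr 1
  funext j
  rw [← pow_mul]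
  congr 2
  ring

/-- The type C determinant of theta functions is a product. -/
theorem Rdet_eq (K : ℕ) (p : ℝ) (hp0 : 0 < p) (hp1 : p < 1) (x : Fin K → ℝ)
    (hx : ∀ i, 0 < x i) : Rdet K p x = E p 1 1 ^ K * Pprod K p x := by
  obtain ⟨q, hq0, hq1, hqp⟩ : ∃ q : ℝ, 0 < q ∧ q < 1 ∧ q ^ (2 * (0 + K + 1)) = p := by
    refine ⟨p ^ ((((2 * (0 + K + 1) : ℕ) : ℝ))⁻¹), Real.rpow_pos_of_pos hp0 _,
      Real.rpow_lt_one hp0.le hp1 (by positivity), ?_⟩
    exact Real.rpow_inv_natCast_pow hp0.le (by omega)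
  have hK : K = ∑ t ∈ range (0 + 1), (fun _ => K : ℕ → ℕ) t := by simp
  have h1 := hasSum_det' 0 (fun _ => K) q hq0 hq1 K hK
  have h2 := H0 q hq0 hq1 (fun _ => K)
  have h3 := h1.unique h2
  have h4 := T4' q hq0 hq1 0 (fun _ => K) K hK
  simp only [zero_add] at h3 h4 hqp
  rw [hqp] at h3 h4
  have h5 : E q (2 * (K + 1)) (2 * (K + 1)) = E p 1 1 := by rw [E_pow, hqp]
  rw [h5] at h4
  simp only [pow_zero, mul_one, Finset.Icc_eq_empty (show ¬ (1 : ℕ) ≤ 0 by omega),
    Finset.prod_empty] at h4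
  rw [h4] at h3
  set z : Fin K → ℝ := fun i => q ^ (bpos 0 (fun _ => K) i) with hz
  have hE1 : E q 1 1 ≠ 0 := (E_pos q hq0 hq1 1 1 one_pos one_pos).ne'
  have hR : Rdet K p z = E p 1 1 ^ K * Pprod K p z := by
    have hc : q ^ (∑ t : Fin K, ((t : ℕ) + 1) * bpos 0 (fun _ => K) t) ≠ 0 :=
      pow_ne_zero _ hq0.ne'
    exact mul_left_cancel₀ (pow_ne_zero _ (inv_ne_zero hE1)) (mul_left_cancel₀ hc h3)
  have hpos : 0 < E q (K + 1) (2 * (K + 1)) / E q 1 2 :=
    div_pos (E_pos q hq0 hq1 _ _ (by omega) (by omega)) (E_pos q hq0 hq1 _ _ (by omega) (by omega))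
  rw [h4] at hpos
  have hP : Pprod K p z ≠ 0 := by
    intro h0
    rw [h0] at hpos
    simp at hpos
  have hEp : E p 1 1 ≠ 0 := (E_pos p hp0 hp1 1 1 one_pos one_pos).ne'
  have hR0 : Rdet K p z ≠ 0 := by
    rw [hR]
    exact mul_ne_zero (pow_ne_zero _ hEp) hP
  have hT2 := T2 K p hp0 hp1 x z hx (fun i => pow_pos hq0 _) hR0
  rw [hR] at hT2
  apply mul_right_cancel₀ hP
  rw [← hT2]
  ring

/-- The product formula, in terms of `alph`. -/
theorem hasSum_alph (n : ℕ) (k : ℕ → ℕ) (q : ℝ) (hq0 : 0 < q) (hq1 : q < 1) (K : ℕ)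
    (hK : K = ∑ t ∈ range (n + 1), k t) :
    HasSum (fun N => ((SS n k N).ncard : ℝ) * q ^ N)
      (E q (n + K + 1) (2 * (n + K + 1)) * E q (2 * (n + K + 1)) (2 * (n + K + 1)) ^ n /
          (E q 1 2 * E q 1 1 ^ n) *
        (∏ i ∈ Finset.Icc 1 n, E q (alph k i) (n + K + 1) *
          E q (n + K + 1 - alph k i) (n + K + 1)) *
        (∏ i ∈ Finset.Icc 1 n, ∏ l ∈ Finset.Icc (i + 1) n,
          vt q (n + K + 1) (alph k i) (alph k l))) := by
  have h := hasSum_det' n k q hq0 hq1 K hK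
  rw [T4' q hq0 hq1 n k K hK, E_pow q (2 * (n + K + 1))]
  rwa [Rdet_eq K _ (pow_pos hq0 _) (pow_lt_one₀ hq0.le hq1 (by omega)) _
    (fun i => pow_pos hq0 _)] at h

end Pool.Agent.H680_CP
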