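import Mathlib

/-!
# Definitions for the product formula for admissible coloured partitions of type C (MP_9edfd9_co)
-/

set_option autoImplicit false

namespace Pool.Agent.H680_CP

open Finset

/-- `(q^a; q^m)_∞ = ∏_{j ≥ 0} (1 - q^(a + m j))`. -/
noncomputable def E (q : ℝ) (a m : ℕ) : ℝ := ∏' j : ℕ, (1 - q ^ (a + m * j))

/-- `θ(x; p) = ∏_{j ≥ 0} (1 - x p^j) (1 - p^(j+1) / x)`. -/
noncomputable def th (p x : ℝ) : ℝ :=
  (∏' j : ℕ, (1 - x * p ^ j)) * ∏' j : ℕ, (1 - p ^ (j + 1) / x)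

/-- The Gaussian binomial coefficient `[L choose u]_q` with an integer lower index. -/
noncomputable def G (q : ℝ) : ℕ → ℤ → ℝ
  | 0, u => if u = 0 then 1 else 0
  | L + 1, u => G q L (u - 1) + q ^ u * G q L u

/-- The theta function `φ_t(x) = ∑_s p^(K s² - t s) (x^(2 K s - t) - x^(t - 2 K s))`. -/
noncomputable def phi (K : ℕ) (p : ℝ) (t : ℤ) (x : ℝ) : ℝ :=
  ∑' s : ℤ, p ^ ((K : ℤ) * s ^ 2 - t * s) *
    (x ^ (2 * (K : ℤ) * s - t) - x ^ (t - 2 * (K : ℤ) * s))

/-- The coefficient function: supported on `B ≡ ± b (mod 2M)`. -/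
noncomputable def Cf (q : ℝ) (K M b : ℕ) (t B : ℤ) : ℝ :=
  if (2 * (M : ℤ)) ∣ B - b then
    q ^ (2 * (K : ℤ) * (M * ((B - b) / (2 * M)) ^ 2 + b * ((B - b) / (2 * M))) - t * B)
  else if (2 * (M : ℤ)) ∣ B + b then
    - q ^ (2 * (K : ℤ) * (M * ((B + b) / (2 * M)) ^ 2 - b * ((B + b) / (2 * M))) - t * B)
  else 0

/-- The rows of the determinants. -/
noncomputable def Rw (q : ℝ) (K M b : ℕ) (t : ℤ) (L : ℕ) (a : ℤ) : ℝ :=
  ∑ u ∈ range (L + 1), G q L (u : ℤ) * Cf q K M b t (a - u)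

/-- The determinant of theta functions. -/
noncomputable def Rdet (k : ℕ) (p : ℝ) (x : Fin k → ℝ) : ℝ :=
  Matrix.det (Matrix.of fun t i : Fin k => phi (k + 1) p (((t : ℕ) : ℤ) + 1) (x i))

/-- The product side in type `C_k`. -/
noncomputable def Pprod (k : ℕ) (p : ℝ) (x : Fin k → ℝ) : ℝ :=
  (∏ i, (x i)⁻¹ * th p (x i ^ 2)) *
    ∏ i, ∏ j ∈ Finset.Ioi i, (x j)⁻¹ * th p (x j / x i) * th p (x i * x j)

/-- `θ(q^(b-a), q^(a+b); q^(2M))`, used for `a < b < M`. -/
noncomputable def vt (q : ℝ) (M a b : ℕ) : ℝ :=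
  E q (b - a) (2 * M) * E q (2 * M - (b - a)) (2 * M) *
    (E q (a + b) (2 * M) * E q (2 * M - (a + b)) (2 * M))

/-- The set of the frozen statement. -/
def SS (n : ℕ) (k : ℕ → ℕ) (N : ℕ) : Set (ℕ → ℕ → ℕ) :=
  {f : ℕ → ℕ → ℕ |
            (∀ c i, f c i ≠ 0 → 1 ≤ c ∧ c ≤ 2 * n + 1 ∧ 1 ≤ i ∧ i ≤ N ∧ Even (c + i)) ∧
            (∑ c ∈ Finset.Icc 1 (2 * n + 1), ∑ i ∈ Finset.Icc 1 N, i * f c i) = N ∧
            ∀ p : ℕ → ℤ,
              (∀ c ∈ Finset.Icc 1 (2 * n + 1), -1 ≤ p c ∧ Even (p c + (c : ℤ))) →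
              (∀ c ∈ Finset.Icc 1 (2 * n), |p c - p (c + 1)| = 1) →
              (∑ c ∈ Finset.Icc 1 (2 * n + 1),
                  (if p c = -1 then (if Odd c then k ((c - 1) / 2) else 0)
                   else f c (p c).toNat))
                ≤ ∑ t ∈ Finset.range (n + 1), k t}

/-! ### Families of lattice paths

A family is given by its steps `h : ℕ → Fin k → Bool` (`true` = up, `false` = down); the path `t`
is at time `x` at the integer `pos b h x t` (the number of up steps so far plus `b t`), its height is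
`2 * pos b h x t - x`, and its unshifted height is `2 * pos b h x t - x - 2 * t`. -/

/-- Position at time `x`. -/
def pos {k : ℕ} (b : Fin k → ℕ) (h : ℕ → Fin k → Bool) (x : ℕ) (t : Fin k) : ℤ :=
  b t + ∑ j ∈ range x, (if h j t = true then 1 else 0)

/-- The admissible positions at time `x`. -/
def Valid (n : ℕ) {k : ℕ} (x : ℕ) (a : Fin k → ℤ) : Prop :=
  StrictMono a ∧ (∀ t, (x : ℤ) + 1 ≤ 2 * a t) ∧ ∀ t : Fin k, 2 * a t ≤ x + 2 * n + 2 * (t : ℕ) + 3

/-- The histories of length `L`: no up step from time `L` on. -/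
noncomputable def Hist (k : ℕ) : ℕ → Finset (ℕ → Fin k → Bool)
  | 0 => {fun _ _ => false}
  | L + 1 => by
      classical
      exact (Hist k L ×ˢ (Finset.univ : Finset (Fin k → Bool))).image
        (fun p => Function.update p.1 L p.2)

/-- Is the path `t` at time `x` in a counted valley? (down step before, up step after, and not at
the top height `2 n + 2`). -/
def Valley (n : ℕ) {k : ℕ} (b : Fin k → ℕ) (h : ℕ → Fin k → Bool) (x : ℕ) (t : Fin k) : Prop :=
  h (x - 1) t = false ∧ h x t = true ∧ 2 * pos b h x t ≠ x + 2 * n + 2 * (t : ℕ) + 2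

/-- The weight: the sum of the times of the counted valleys at the times `1, …, L - 1`. -/
noncomputable def wt (n : ℕ) {k : ℕ} (b : Fin k → ℕ) (L : ℕ) (h : ℕ → Fin k → Bool) : ℕ := by
  classical
  exact ∑ x ∈ range L, x * (Finset.univ.filter fun t : Fin k => Valley n b h x t).card

/-- The families of length `L` which end at the top (`L` even). -/
noncomputable def Fam (n : ℕ) {k : ℕ} (b : Fin k → ℕ) (L : ℕ) : Finset (ℕ → Fin k → Bool) := by
  classical
  exact (Hist k L).filter fun h => (∀ x ≤ L, Valid n x (pos b h x)) ∧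
    ∀ t : Fin k, 2 * pos b h L t = L + 2 * n + 2 * (t : ℕ) + 2

/-- The starting positions. -/
def bpos (n : ℕ) (k : ℕ → ℕ) (t : ℕ) : ℕ :=
  t + 1 + ((Finset.Icc 1 n).filter fun j => ∑ i ∈ range j, k i ≤ t).card

end Pool.Agent.H680_CP
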