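import Pool.Agent.H680_CP.T_GB

set_option autoImplicit false

namespace Pool.Agent.H680_CP

open Finset Filter Topology

section rows

variable {q : ℝ} {K M b : ℕ}

theorem Cf_succ (hq : q ≠ 0) (t B : ℤ) : Cf q K M b (t + 1) B = q ^ (-B) * Cf q K M b t B := by
  unfold Cf
  split_ifs
  · rw [← zpow_add₀ hq]; congr 1; ring
  · rw [mul_neg, ← zpow_add₀ hq]; congr 2; ring
  · simp

theorem Cf_odd (hb : 0 < b) (hbM : b < M) (B : ℤ) : Cf q K M b 0 (-B) = - Cf q K M b 0 B := by
  have hM : (0 : ℤ) < 2 * M := by omega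
  unfold Cf
  by_cases h1 : (2 * (M : ℤ)) ∣ B - b
  · obtain ⟨s, hs⟩ := h1
    have h2 : ¬ (2 * (M : ℤ)) ∣ -B - b := by
      rintro ⟨r, hr⟩
      have : 2 * (M:ℤ) * (s + r) = -2 * b := by linear_combination -hs - hr
      have h3 : (M : ℤ) * (-(s + r)) = b := by nlinarith
      have h4 : (0:ℤ) < -(s + r) := by
        by_contra h; push Not at h; nlinarith
      have h5 : (M:ℤ) ≤ b := by nlinarith
      omega
    have h3 : (2 * (M : ℤ)) ∣ -B + b := ⟨-s, by linear_combination -hs⟩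
    have e1 : (B - b) / (2 * (M:ℤ)) = s := by rw [hs]; exact Int.mul_ediv_cancel_left _ hM.ne'
    have e2 : (-B + b) / (2 * (M:ℤ)) = -s := by
      rw [show -B + (b:ℤ) = 2 * M * (-s) by linear_combination -hs]
      exact Int.mul_ediv_cancel_left _ hM.ne'
    rw [if_neg h2, if_pos h3, if_pos ⟨s, hs⟩, e1, e2]
    congr 2; ring
  · by_cases h2 : (2 * (M : ℤ)) ∣ B + b
    · obtain ⟨s, hs⟩ := h2
      have h3 : (2 * (M : ℤ)) ∣ -B - b := ⟨-s, by linear_combination -hs⟩
      have e1 : (B + b) / (2 * (M:ℤ)) = s := by rw [hs]; exact Int.mul_ediv_cancel_left _ hM.ne'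
      have e2 : (-B - b) / (2 * (M:ℤ)) = -s := by
        rw [show -B - (b:ℤ) = 2 * M * (-s) by linear_combination -hs]
        exact Int.mul_ediv_cancel_left _ hM.ne'
      rw [if_pos h3, if_neg h1, if_pos ⟨s, hs⟩, e1, e2, neg_neg]
      congr 1; ring
    · have h3 : ¬ (2 * (M : ℤ)) ∣ -B - b := fun ⟨r, hr⟩ => h2 ⟨-r, by linear_combination -hr⟩
      have h4 : ¬ (2 * (M : ℤ)) ∣ -B + b := fun ⟨r, hr⟩ => h1 ⟨-r, by linear_combination -hr⟩
      rw [if_neg h3, if_neg h4, if_neg h1, if_neg h2, neg_zero]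

theorem Cf_refl (hb : 0 < b) (hbM : b < M) (B : ℤ) :
    Cf q K M b K (2 * M - B) = - Cf q K M b K B := by
  have hM : (0 : ℤ) < 2 * M := by omega
  unfold Cf
  by_cases h1 : (2 * (M : ℤ)) ∣ B - b
  · obtain ⟨s, hs⟩ := h1
    have h2 : ¬ (2 * (M : ℤ)) ∣ (2 * M - B) - b := by
      rintro ⟨r, hr⟩
      have : 2 * (M:ℤ) * (s + r - 1) = -2 * b := by linear_combination -hs - hr
      have h3 : (M : ℤ) * (-(s + r - 1)) = b := by nlinarith
      have h4 : (0:ℤ) < -(s + r - 1) := by
        by_contra h; push Not at h; nlinarith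
      have h5 : (M:ℤ) ≤ b := by nlinarith
      omega
    have h3 : (2 * (M : ℤ)) ∣ (2 * M - B) + b := ⟨1-s, by linear_combination -hs⟩
    have e1 : (B - b) / (2 * (M:ℤ)) = s := by rw [hs]; exact Int.mul_ediv_cancel_left _ hM.ne'
    have e2 : ((2 * M - B) + b) / (2 * (M:ℤ)) = 1-s := by
      rw [show (2 * M - B) + (b:ℤ) = 2 * M * (1-s) by linear_combination -hs]
      exact Int.mul_ediv_cancel_left _ hM.ne'
    rw [if_neg h2, if_pos h3, if_pos ⟨s, hs⟩, e1, e2]
    congr 2
    have : B = b + 2 * M * s := by linear_combination hs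
    rw [this]; ring
  · by_cases h2 : (2 * (M : ℤ)) ∣ B + b
    · obtain ⟨s, hs⟩ := h2
      have h3 : (2 * (M : ℤ)) ∣ (2 * M - B) - b := ⟨1-s, by linear_combination -hs⟩
      have e1 : (B + b) / (2 * (M:ℤ)) = s := by rw [hs]; exact Int.mul_ediv_cancel_left _ hM.ne'
      have e2 : ((2 * M - B) - b) / (2 * (M:ℤ)) = 1-s := by
        rw [show (2 * M - B) - (b:ℤ) = 2 * M * (1-s) by linear_combination -hs]
        exact Int.mul_ediv_cancel_left _ hM.ne'
      rw [if_pos h3, if_neg h1, if_pos ⟨s, hs⟩, e1, e2, neg_neg]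
      congr 1
      have : B = -b + 2 * M * s := by linear_combination hs
      rw [this]; ring
    · have h3 : ¬ (2 * (M : ℤ)) ∣ (2 * M - B) - b :=
        fun ⟨r, hr⟩ => h2 ⟨1-r, by linear_combination -hr⟩
      have h4 : ¬ (2 * (M : ℤ)) ∣ (2 * M - B) + b :=
        fun ⟨r, hr⟩ => h1 ⟨1-r, by linear_combination -hr⟩
      rw [if_neg h3, if_neg h4, if_neg h1, if_neg h2, neg_zero]

theorem Cf_init (hbM : b < M) (t B : ℤ) (hB0 : 0 < B) (hBM : B < M) :
    Cf q K M b t B = if B = b then q ^ (-(t * B)) else 0 := by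
  have hM : (0 : ℤ) < 2 * M := by omega
  unfold Cf
  by_cases h : B = b
  · subst h
    simp
  · have h1 : ¬ (2 * (M : ℤ)) ∣ B - b := by
      rintro ⟨r, hr⟩
      have : r = 0 := by
        by_contra hr0
        rcases lt_or_gt_of_ne hr0 with h' | h'
        · have : r ≤ -1 := by omega
          nlinarith
        · have : 1 ≤ r := by omega
          nlinarith
      subst this
      apply h; linarith
    have h2 : ¬ (2 * (M : ℤ)) ∣ B + b := by
      rintro ⟨r, hr⟩
      have hr1 : 0 < r := by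
        by_contra h'
        push Not at h'
        nlinarith
      have : 1 ≤ r := by omega
      nlinarith
    rw [if_neg h1, if_neg h2, if_neg h]

theorem Rw_P1 (hq : q ≠ 0) (t : ℤ) (L : ℕ) (a : ℤ) :
    Rw q K M b (t + 1) (L + 1) a =
      Rw q K M b (t + 1) L a + q ^ ((L : ℤ) + 1 - a) * Rw q K M b t L (a - 1) := by
  unfold Rw
  have h1 : ∀ u : ℕ, G q (L + 1) (u : ℤ) * Cf q K M b (t + 1) (a - u) =
      G q L u * Cf q K M b (t + 1) (a - u) +
        q ^ ((L : ℤ) + 1 - a) * (G q L ((u : ℤ) - 1) * Cf q K M b t (a - u)) := by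
    intro u
    rw [G_pascal q hq, Cf_succ hq]
    have : q ^ ((L : ℤ) + 1 - u) * q ^ (-(a - u)) = q ^ ((L : ℤ) + 1 - a) := by
      rw [← zpow_add₀ hq]; congr 1; ring
    linear_combination (G q L (u - 1) * Cf q K M b t (a - u)) * this
  rw [Finset.sum_congr rfl fun u _ => h1 u, Finset.sum_add_distrib, ← Finset.mul_sum]
  congr 1
  · rw [Finset.sum_range_succ, G_support q L _ (Or.inr (by simp))]
    simp
  · congr 1
    rw [Finset.sum_range_succ', G_support q L _ (Or.inl (by simp))]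
    simp only [zero_mul, add_zero]
    refine Finset.sum_congr rfl fun u _ => ?_
    push_cast
    congr 2
    · ring
    · ring

theorem Rw_P2 (hq : q ≠ 0) (t : ℤ) (L : ℕ) (a : ℤ) :
    Rw q K M b t (L + 1) a =
      Rw q K M b t L (a - 1) + q ^ a * Rw q K M b (t + 1) L a := by
  unfold Rw
  have h1 : ∀ u : ℕ, G q (L + 1) (u : ℤ) * Cf q K M b t (a - u) =
      G q L ((u : ℤ) - 1) * Cf q K M b t (a - u) +
        q ^ a * (G q L u * Cf q K M b (t + 1) (a - u)) := by
    intro u
    rw [Cf_succ hq]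
    have h0 : G q (L + 1) (u : ℤ) = G q L ((u : ℤ) - 1) + q ^ (u : ℤ) * G q L u := by
      conv_lhs => unfold G
    rw [h0]
    have : q ^ a * q ^ (-(a - u)) = q ^ (u : ℤ) := by
      rw [← zpow_add₀ hq]; congr 1; ring
    linear_combination -(G q L u * Cf q K M b t (a - u)) * this
  rw [Finset.sum_congr rfl fun u _ => h1 u, Finset.sum_add_distrib, ← Finset.mul_sum]
  congr 1
  · rw [Finset.sum_range_succ', G_support q L _ (Or.inl (by simp))]
    simp only [zero_mul, add_zero]
    refine Finset.sum_congr rfl fun u _ => ?_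
    push_cast
    congr 2
    · ring
    · ring
  · congr 1
    rw [Finset.sum_range_succ, G_support q L _ (Or.inr (by simp))]
    simp

theorem Rw_W0 (hq : q ≠ 0) (hb : 0 < b) (hbM : b < M) (L : ℕ) (a : ℤ) (h : 2 * a = L) :
    Rw q K M b 0 L a = 0 := by
  have key : Rw q K M b 0 L a = - Rw q K M b 0 L a := by
    conv_lhs => unfold Rw
    rw [← Finset.sum_range_reflect]
    unfold Rw
    rw [← Finset.sum_neg_distrib]
    refine Finset.sum_congr rfl fun u hu => ?_
    have hu' : u ≤ L := by simpa [Nat.lt_succ_iff] using hu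
    have e : ((L + 1 - 1 - u : ℕ) : ℤ) = (L : ℤ) - u := by omega
    rw [e, G_symm q hq, show a - ((L : ℤ) - u) = -(a - u) by linarith, Cf_odd hb hbM]
    ring
  linarith

theorem Rw_W1 (hq : q ≠ 0) (hb : 0 < b) (hbM : b < M) (L : ℕ) (a : ℤ) (h : 2 * a = L + 2 * M) :
    Rw q K M b K L a = 0 := by
  have key : Rw q K M b K L a = - Rw q K M b K L a := by
    conv_lhs => unfold Rw
    rw [← Finset.sum_range_reflect]
    unfold Rw
    rw [← Finset.sum_neg_distrib]
    refine Finset.sum_congr rfl fun u hu => ?_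
    have hu' : u ≤ L := by simpa [Nat.lt_succ_iff] using hu
    have e : ((L + 1 - 1 - u : ℕ) : ℤ) = (L : ℤ) - u := by omega
    rw [e, G_symm q hq, show a - ((L : ℤ) - u) = 2 * M - (a - u) by linarith, Cf_refl hb hbM]
    ring
  linarith

theorem Rw_zero (t a : ℤ) : Rw q K M b t 0 a = Cf q K M b t a := by
  simp [Rw, G]

end rows

end Pool.Agent.H680_CP
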