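import Pool.Agent.H680_CP.T1a

set_option autoImplicit false

namespace Pool.Agent.H680_CP

open Finset Filter Topology

theorem det_row_next {k : ℕ} (A B : Matrix (Fin k) (Fin k) ℝ) (c : Fin k → ℝ)
    (h : ∀ t i, A t i = B t i + c t * (if h : (t : ℕ) + 1 < k then B ⟨t + 1, h⟩ i else 0)) :
    A.det = B.det := by
  let U : Matrix (Fin k) (Fin k) ℝ :=
    Matrix.of fun t s => if s = t then 1 else if (s : ℕ) = t + 1 then c t else 0
  have hU : U.det = 1 := by
    rw [Matrix.det_of_isUpperTriangular]
    · simp [U]
    · intro i j hij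
      have hij' : j < i := hij
      have h1 : j ≠ i := ne_of_lt hij'
      have h2 : (j : ℕ) ≠ i + 1 := by
        have : (j : ℕ) < i := hij'
        omega
      simp [U, h1, h2]
  have hA : A = U * B := by
    ext t i
    rw [Matrix.mul_apply, h]
    by_cases ht : (t : ℕ) + 1 < k
    · rw [dif_pos ht]
      have hne : (⟨t + 1, ht⟩ : Fin k) ≠ t := by
        intro h'
        have := congrArg Fin.val h'
        simp at this
      rw [← Finset.add_sum_erase _ _ (Finset.mem_univ t),
        ← Finset.add_sum_erase _ _
          (Finset.mem_erase.2 ⟨hne, Finset.mem_univ (⟨t + 1, ht⟩ : Fin k)⟩)]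
      rw [Finset.sum_eq_zero]
      · simp [U, hne]
      · intro s hs
        simp only [Finset.mem_erase, Finset.mem_univ, and_true] at hs
        have h2 : (s : ℕ) ≠ t + 1 := fun h' => hs.1 (Fin.ext h')
        simp [U, hs.2, h2]
    · rw [dif_neg ht]
      rw [← Finset.add_sum_erase _ _ (Finset.mem_univ t), Finset.sum_eq_zero]
      · simp [U]
      · intro s hs
        simp only [Finset.mem_erase, Finset.mem_univ, and_true] at hs
        have h2 : (s : ℕ) ≠ t + 1 := by
          have := s.2
          omega
        simp [U, hs, h2]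
  rw [hA, Matrix.det_mul, hU, one_mul]

theorem mem_Hist {k : ℕ} (L : ℕ) (h : ℕ → Fin k → Bool) :
    h ∈ Hist k L ↔ ∀ j, L ≤ j → h j = fun _ => false := by
  induction L generalizing h with
  | zero =>
    simp only [Hist, Finset.mem_singleton, Nat.zero_le, true_implies]
    exact ⟨fun e j => by rw [e], fun e => funext e⟩
  | succ L ih =>
    simp only [Hist, Finset.mem_image, Finset.mem_product, Finset.mem_univ, and_true,
      Prod.exists]
    constructor
    · rintro ⟨h', d, hh', rfl⟩ j hj
      rw [Function.update_of_ne (by omega)]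
      exact (ih h').1 hh' j (by omega)
    · intro hh
      refine ⟨Function.update h L (fun _ => false), h L, ?_, ?_⟩
      · rw [ih]
        intro j hj
        rcases Nat.eq_or_lt_of_le hj with h1 | h1
        · subst h1; simp
        · rw [Function.update_of_ne (by omega)]
          exact hh j h1
      · simp

theorem sum_Hist_succ {k : ℕ} (L : ℕ) (F : (ℕ → Fin k → Bool) → ℝ) :
    ∑ h ∈ Hist k (L + 1), F h =
      ∑ d : Fin k → Bool, ∑ h ∈ Hist k L, F (Function.update h L d) := by
  classical
  rw [Finset.sum_comm]
  have : Hist k (L + 1) = (Hist k L ×ˢ (Finset.univ : Finset (Fin k → Bool))).image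
        (fun p => Function.update p.1 L p.2) := by
    simp only [Hist]
  rw [this, Finset.sum_image, Finset.sum_product]
  intro p hp p' hp' e
  have hp1 := (mem_Hist L p.1).1 (Finset.mem_product.1 (Finset.mem_coe.1 hp)).1
  have hp2 := (mem_Hist L p'.1).1 (Finset.mem_product.1 (Finset.mem_coe.1 hp')).1
  have e' : Function.update p.1 L p.2 = Function.update p'.1 L p'.2 := e
  have e2 : p.2 = p'.2 := by
    have := congrFun e' L
    simpa using this
  refine Prod.ext ?_ e2
  funext j
  by_cases hj : j = L
  · subst hj
    rw [hp1 j le_rfl, hp2 j le_rfl]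
  · have := congrFun e' j
    rwa [Function.update_of_ne hj, Function.update_of_ne hj] at this

section
variable {n k : ℕ} (b : Fin k → ℕ)

theorem pos_update (h : ℕ → Fin k → Bool) (L x : ℕ) (hx : x ≤ L) (d : Fin k → Bool) :
    pos b (Function.update h L d) x = pos b h x := by
  funext t
  unfold pos
  congr 1
  refine Finset.sum_congr rfl fun j hj => ?_
  have : j ≠ L := by
    have := Finset.mem_range.1 hj
    omega
  rw [Function.update_of_ne this]

theorem pos_succ (h : ℕ → Fin k → Bool) (L : ℕ) (t : Fin k) :
    pos b h (L + 1) t = pos b h L t + (if h L t = true then 1 else 0) := by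
  unfold pos
  rw [Finset.sum_range_succ]
  ring

theorem wt_update (n : ℕ) (h : ℕ → Fin k → Bool) (L : ℕ) (d : Fin k → Bool) :
    wt n b L (Function.update h L d) = wt n b L h := by
  classical
  unfold wt
  refine Finset.sum_congr rfl fun x hx => ?_
  have hx' : x < L := Finset.mem_range.1 hx
  congr 2
  ext t
  rw [Finset.mem_filter, Finset.mem_filter]
  unfold Valley
  rw [Function.update_of_ne (by omega), Function.update_of_ne (by omega),
    pos_update b h L x (by omega)]

/-- step weights -/
noncomputable def ws (q : ℝ) (n L : ℕ) (a : Fin k → ℤ) (d d' : Fin k → Bool) (t : Fin k) : ℝ :=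
  if d t = false ∧ d' t = true ∧ 2 * a t ≠ L + 2 * n + 2 * (t : ℕ) + 2 then q ^ L else 1

theorem wt_succ (q : ℝ) (n : ℕ) (h : ℕ → Fin k → Bool) (L : ℕ) :
    q ^ wt n b (L + 1) h = q ^ wt n b L h *
      ∏ t, (if h (L - 1) t = false ∧ h L t = true ∧
        2 * pos b h L t ≠ L + 2 * n + 2 * (t : ℕ) + 2 then q ^ L else 1) := by
  classical
  have : wt n b (L + 1) h = wt n b L h +
      L * (Finset.univ.filter fun t : Fin k => Valley n b h L t).card := by
    unfold wt
    rw [Finset.sum_range_succ]
  rw [this, pow_add, pow_mul]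
  congr 1
  rw [Finset.prod_ite, Finset.prod_const, Finset.prod_const, one_pow, mul_one]
  congr

/-- generating function of the families of length `L` ending at `a`, with next step `d` -/
noncomputable def Wsum (q : ℝ) (n : ℕ) (L : ℕ) (a : Fin k → ℤ) (d : Fin k → Bool) : ℝ := by
  classical
  exact ∑ h ∈ Hist k L, if (∀ x ≤ L, Valid n x (pos b h x)) ∧ pos b h L = a then
    q ^ (wt n b (L + 1) (Function.update h L d)) else 0

theorem Wsum_zero (q : ℝ) (hv : Valid n 0 (fun t => (b t : ℤ))) (a : Fin k → ℤ) (d : Fin k → Bool) :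
    Wsum b q n 0 a d = if (fun t => (b t : ℤ)) = a then 1 else 0 := by
  classical
  unfold Wsum
  simp only [Hist, Finset.sum_singleton]
  have h0 : pos b (fun _ _ => false : ℕ → Fin k → Bool) 0 = fun t => (b t : ℤ) := by
    funext t; simp [pos]
  have h1 : ∀ h : ℕ → Fin k → Bool, wt n b (0 + 1) h = 0 := by
    intro h; simp [wt]
  rw [h1, pow_zero]
  by_cases ha : (fun t => (b t : ℤ)) = a
  · rw [if_pos ha, if_pos]
    refine ⟨fun x hx => ?_, by rw [h0]; exact ha⟩
    obtain rfl : x = 0 := by omega
    rw [h0]; exact hv
  · rw [if_neg ha, if_neg]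
    rintro ⟨-, h2⟩
    rw [h0] at h2
    exact ha h2

theorem Wsum_succ (q : ℝ) (L : ℕ) (a : Fin k → ℤ) (d' : Fin k → Bool)
    (hv : Valid n (L + 1) a) :
    Wsum b q n (L + 1) a d' = ∑ d : Fin k → Bool, (∏ t, ws q n (L + 1) a d d' t) *
      Wsum b q n L (fun t => a t - (if d t = true then 1 else 0)) d := by
  classical
  unfold Wsum
  rw [sum_Hist_succ]
  refine Finset.sum_congr rfl fun d _ => ?_
  rw [Finset.mul_sum]
  refine Finset.sum_congr rfl fun h hh => ?_
  rw [mul_ite, mul_zero]
  have e1 : pos b (Function.update h L d) (L + 1) = fun t => pos b h L t +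
      (if d t = true then 1 else 0) := by
    funext t
    rw [pos_succ, pos_update b h L L le_rfl]
    simp
  have hcond : ((∀ x ≤ L + 1, Valid n x (pos b (Function.update h L d) x)) ∧
      pos b (Function.update h L d) (L + 1) = a) ↔
      ((∀ x ≤ L, Valid n x (pos b h x)) ∧
        pos b h L = fun t => a t - (if d t = true then 1 else 0)) := by
    constructor
    · rintro ⟨h1, h2⟩
      refine ⟨fun x hx => ?_, ?_⟩
      · have := h1 x (by omega)
        rwa [pos_update b h L x hx] at this
      · rw [← h2, e1]
        funext t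
        ring
    · rintro ⟨h1, h2⟩
      have h3 : pos b (Function.update h L d) (L + 1) = a := by
        rw [e1, h2]
        funext t
        ring
      refine ⟨fun x hx => ?_, h3⟩
      rcases Nat.eq_or_lt_of_le hx with hx | hx
      · subst hx
        rw [h3]; exact_mod_cast hv
      · rw [pos_update b h L x (by omega)]
        exact h1 x (by omega)
  by_cases hc : (∀ x ≤ L, Valid n x (pos b h x)) ∧
        pos b h L = fun t => a t - (if d t = true then 1 else 0)
  · rw [if_pos (hcond.2 hc), if_pos hc]
    rw [wt_succ, wt_update]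
    rw [mul_comm]
    congr 1
    refine Finset.prod_congr rfl fun t _ => ?_
    unfold ws
    have e2 : pos b (Function.update (Function.update h L d) (L + 1) d') (L + 1) = a := by
      rw [pos_update b _ (L + 1) (L + 1) le_rfl]
      exact (hcond.2 hc).2
    rw [e2]
    have e3 : Function.update (Function.update h L d) (L + 1) d' (L + 1 - 1) = d := by
      rw [Function.update_of_ne (by omega)]
      simp
    rw [e3]
    simp
  · rw [if_neg (fun h' => hc (hcond.1 h')), if_neg hc]

end

end Pool.Agent.H680_CP
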