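import Pool.Agent.H680_CP.T1b

set_option autoImplicit false

namespace Pool.Agent.H680_CP

open Finset Filter Topology

section
variable {n k : ℕ} (b : Fin k → ℕ)

theorem Wsum_invalid (q : ℝ) (L : ℕ) (a : Fin k → ℤ) (d : Fin k → Bool) (h : ¬ Valid n L a) :
    Wsum b q n L a d = 0 := by
  classical
  unfold Wsum
  refine Finset.sum_eq_zero fun h' _ => ?_
  rw [if_neg]
  rintro ⟨h1, h2⟩
  apply h
  rw [← h2]
  exact h1 L le_rfl

theorem b_upper (hb : StrictMono b) (hbM : ∀ t, b t < n + k + 1) (t : Fin k) :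
    b t ≤ n + t + 1 := by
  have key : ∀ j : ℕ, ∀ t : Fin k, (t : ℕ) + j + 1 = k → b t + j < n + k + 1 := by
    intro j
    induction j with
    | zero => intro t _; simpa using hbM t
    | succ j ih =>
      intro t ht
      have h1 : (t : ℕ) + 1 < k := by omega
      have h2 := ih ⟨t + 1, h1⟩ (by simp; omega)
      have h3 : b t < b ⟨t + 1, h1⟩ := hb (by
        rw [Fin.lt_def]; simp)
      omega
  have := key (k - 1 - t) t (by have := t.2; omega)
  have := t.2
  omega

theorem Valid_b (hb : StrictMono b) (hb0 : ∀ t, 0 < b t) (hbM : ∀ t, b t < n + k + 1) :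
    Valid n 0 (fun t => (b t : ℤ)) := by
  refine ⟨fun i j hij => by simpa using hb hij, fun t => ?_, fun t => ?_⟩
  · have := hb0 t
    push_cast
    omega
  · have := b_upper b hb hbM t
    push_cast
    omega

/-- the matrix of the determinant formula -/
noncomputable def rowmat (q : ℝ) (n L : ℕ) (a : Fin k → ℤ) (d : Fin k → Bool) :
    Matrix (Fin k) (Fin k) ℝ :=
  Matrix.of fun t i => if d t = true ∧ 2 * a t ≠ L + 2 * n + 2 * (t : ℕ) + 2 then
      q ^ ((L : ℤ) - a t) * Rw q (k + 1) (n + k + 1) (b i) ((t : ℕ) : ℤ) L (a t)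
    else Rw q (k + 1) (n + k + 1) (b i) (((t : ℕ) : ℤ) + 1) L (a t)

theorem base_case (q : ℝ) (hq0 : 0 < q) (hb : StrictMono b) (hb0 : ∀ t, 0 < b t)
    (hbM : ∀ t, b t < n + k + 1) (a : Fin k → ℤ) (d : Fin k → Bool) (hv : Valid n 0 a) :
    Wsum b q n 0 a d =
      q ^ (∑ t : Fin k, ((t : ℕ) + 1) * b t) * (rowmat b q n 0 a d).det := by
  rw [Wsum_zero b q (Valid_b b hb hb0 hbM)]
  have hq : q ≠ 0 := hq0.ne'
  have h1 : rowmat b q n 0 a d = Matrix.of fun t i => if a t = (b i : ℤ) then
      q ^ (-((((t : ℕ) : ℤ) + 1) * a t)) else 0 := by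
    ext t i
    have hent : rowmat b q n 0 a d t i =
        Cf q (k + 1) (n + k + 1) (b i) (((t : ℕ) : ℤ) + 1) (a t) := by
      simp only [rowmat, Matrix.of_apply]
      split_ifs with h
      · rw [Rw_zero, Cf_succ hq]
        simp
      · rw [Rw_zero]
    rw [hent]
    have h2 := hv.2.1 t
    have h3 := hv.2.2 t
    have h4 := t.2
    push_cast at h2 h3
    rw [Cf_init (hbM i) _ _ (by omega) (by push_cast; omega)]
    simp
  rw [h1]
  by_cases hab : (fun t => (b t : ℤ)) = a
  · rw [if_pos hab]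
    subst hab
    have h2 : (Matrix.of fun t i : Fin k => if ((b t : ℕ) : ℤ) = (b i : ℤ) then
        q ^ (-((((t : ℕ) : ℤ) + 1) * ((b t : ℕ) : ℤ))) else (0 : ℝ)) =
        Matrix.diagonal fun t : Fin k => q ^ (-((((t : ℕ) : ℤ) + 1) * ((b t : ℕ) : ℤ))) := by
      ext t i
      rw [Matrix.diagonal_apply, Matrix.of_apply]
      by_cases hti : t = i
      · subst hti; simp
      · have : ¬ ((b t : ℕ) : ℤ) = (b i : ℤ) := by
          intro h'
          exact hti (hb.injective (by exact_mod_cast h'))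
        rw [if_neg this, if_neg hti]
    rw [h2, Matrix.det_diagonal, ← Finset.prod_pow_eq_pow_sum, ← Finset.prod_mul_distrib]
    symm
    refine Finset.prod_eq_one fun t _ => ?_
    rw [← zpow_natCast, ← zpow_add₀ hq]
    push_cast
    rw [add_neg_cancel, zpow_zero]
  · rw [if_neg hab]
    symm
    refine mul_eq_zero_of_right _ ?_
    rw [Matrix.det_apply]
    refine Finset.sum_eq_zero fun σ _ => ?_
    by_cases hs : ∀ i, a (σ i) = (b i : ℤ)
    · exfalso
      apply hab
      have hbz : StrictMono (fun t => (b t : ℤ)) := fun i j hij => by simpa using hb hij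
      apply (StrictMono.range_inj hbz hv.1).1
      ext z
      constructor
      · rintro ⟨i, rfl⟩
        exact ⟨σ i, hs i⟩
      · rintro ⟨i, rfl⟩
        refine ⟨σ.symm i, ?_⟩
        have := hs (σ.symm i)
        simp only [Equiv.apply_symm_apply] at this
        exact this.symm
    · push Not at hs
      obtain ⟨i, hi⟩ := hs
      rw [Finset.prod_eq_zero (Finset.mem_univ i), smul_zero]
      rw [Matrix.of_apply, if_neg hi]

theorem det_zero_of_prop {k : ℕ} (A : Matrix (Fin k) (Fin k) ℝ) (i j : Fin k) (hij : i ≠ j)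
    (c : ℝ) (h : ∀ s, A j s = c * A i s) : A.det = 0 := by
  rw [← Matrix.det_updateRow_add_smul_self A hij.symm (-c)]
  apply Matrix.det_eq_zero_of_row_eq_zero j
  intro s
  simp [h s]

end

end Pool.Agent.H680_CP
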