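import Pool.Agent.H680_CP.T1c

set_option autoImplicit false

namespace Pool.Agent.H680_CP

open Finset Filter Topology

section
variable {n k : ℕ} (b : Fin k → ℕ)

/-- the rows before summation over the last steps -/
noncomputable def rho (q : ℝ) (n L : ℕ) (a : Fin k → ℤ) (t : Fin k) (δ : Bool) (i : Fin k) : ℝ :=
  if 2 * a t = L + 2 * n + 2 * (t : ℕ) + 4 then
    (if δ = true then Rw q (k + 1) (n + k + 1) (b i) (((t : ℕ) : ℤ) + 1) L (a t - 1) else 0)
  else
    (if δ = true then
      q ^ ((L : ℤ) + 1 - a t) * Rw q (k + 1) (n + k + 1) (b i) ((t : ℕ) : ℤ) L (a t - 1)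
    else Rw q (k + 1) (n + k + 1) (b i) (((t : ℕ) : ℤ) + 1) L (a t))

theorem det_rho_zero (q : ℝ) (hq0 : 0 < q) (hb0 : ∀ t, 0 < b t)
    (hbM : ∀ t, b t < n + k + 1) (L : ℕ) (a : Fin k → ℤ) (d : Fin k → Bool)
    (hv : Valid n (L + 1) a)
    (hnv : ¬ Valid n L (fun t => a t - (if d t = true then 1 else 0))) :
    (Matrix.of fun t i : Fin k => rho b q n L a t (d t) i).det = 0 := by
  have hq : q ≠ 0 := hq0.ne'
  obtain ⟨hv1, hv2, hv3⟩ := hv
  by_cases hT : ∃ t : Fin k, 2 * a t = L + 2 * n + 2 * (t : ℕ) + 4 ∧ d t = false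
  · obtain ⟨t, ht1, ht2⟩ := hT
    apply Matrix.det_eq_zero_of_row_eq_zero t
    intro i
    rw [Matrix.of_apply, rho, if_pos ht1, ht2]
    simp
  · push Not at hT
    have hT' : ∀ t : Fin k, d t = false → 2 * a t ≠ L + 2 * n + 2 * (t : ℕ) + 4 := by
      intro t h1 h2
      exact hT t h2 h1
    unfold Valid at hnv
    rw [not_and_or, not_and_or] at hnv
    rcases hnv with h1 | h2 | h3
    · -- adjacency
      simp only [StrictMono, not_forall, not_lt] at h1
      obtain ⟨i, j, hij, hle⟩ := h1
      have haij : a i < a j := hv1 hij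
      have hdi : d i = false := by
        by_contra hd
        have hd : d i = true := by simpa using hd
        rw [if_pos hd] at hle
        split_ifs at hle <;> omega
      have hdj : d j = true := by
        by_contra hd
        have hd : d j = false := by simpa using hd
        rw [hdi, hd] at hle
        simp at hle
        omega
      have haj : a j = a i + 1 := by
        rw [hdi, hdj] at hle
        simp at hle
        omega
      have hji : (j : ℕ) = i + 1 := by
        by_contra hne
        have hij' : (i : ℕ) < j := hij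
        have hi1 : (i : ℕ) + 1 < k := by have := j.2; omega
        have h4 : a i < a ⟨i + 1, hi1⟩ := hv1 (by rw [Fin.lt_def]; simp)
        have h5 : a ⟨i + 1, hi1⟩ < a j := hv1 (by rw [Fin.lt_def]; simp; omega)
        omega
      apply det_zero_of_prop _ i j (ne_of_lt hij) (q ^ ((L : ℤ) + 1 - a j))
      intro s
      rw [Matrix.of_apply, Matrix.of_apply]
      have hTi := hT' i hdi
      have hTj : ¬ 2 * a j = L + 2 * n + 2 * (j : ℕ) + 4 := by
        rw [haj, hji]
        intro h'
        apply hTi
        push_cast at h' ⊢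
        omega
      rw [rho, rho, if_neg hTi, if_neg hTj, hdi, hdj, if_pos rfl, if_neg (by simp)]
      rw [haj, hji, add_sub_cancel_right]
      push_cast
      rfl
    · -- lower wall
      push Not at h2
      obtain ⟨t, ht⟩ := h2
      have h4 := hv2 t
      have hdt : d t = true := by
        by_contra hd
        have hd : d t = false := by simpa using hd
        rw [hd] at ht
        simp at ht
        push_cast at h4
        omega
      rw [if_pos hdt] at ht
      have h5 : 2 * a t = L + 2 := by push_cast at h4; omega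
      have ht0 : (t : ℕ) = 0 := by
        by_contra hne
        have hk : 0 < k := by have := t.2; omega
        have h6 : a ⟨0, hk⟩ < a t := hv1 (by rw [Fin.lt_def]; simp; omega)
        have h7 := hv2 ⟨0, hk⟩
        push_cast at h7
        omega
      apply Matrix.det_eq_zero_of_row_eq_zero t
      intro i
      rw [Matrix.of_apply, rho, if_neg (by omega), if_pos hdt, ht0]
      rw [Nat.cast_zero, Rw_W0 hq (hb0 i) (hbM i) L (a t - 1) (by omega), mul_zero]
    · -- upper wall
      push Not at h3
      obtain ⟨t, ht⟩ := h3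
      exfalso
      have h4 := hv3 t
      push_cast at h4
      have hdt : d t = false := by
        by_contra hd
        have hd : d t = true := by simpa using hd
        rw [if_pos hd] at ht
        omega
      rw [hdt] at ht
      simp at ht
      exact hT' t hdt (by omega)

theorem det_multi (w : Fin k → Bool → ℝ) (ρ : Fin k → Bool → Fin k → ℝ) :
    ∑ d : Fin k → Bool, (∏ t, w t (d t)) * (Matrix.of fun t i : Fin k => ρ t (d t) i).det =
      (Matrix.of fun t i : Fin k => ∑ δ : Bool, w t δ * ρ t δ i).det := by
  have h := (Matrix.detRowAlternating (R := ℝ) (n := Fin k)).toMultilinearMap.map_sum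
    (fun t (δ : Bool) => (fun i => w t δ * ρ t δ i : Fin k → ℝ))
  have h1 : (Matrix.of fun t i : Fin k => ∑ δ : Bool, w t δ * ρ t δ i).det =
      Matrix.detRowAlternating (R := ℝ) (n := Fin k)
        (fun t => ∑ δ : Bool, (fun i => w t δ * ρ t δ i : Fin k → ℝ)) := by
    show Matrix.det _ = Matrix.det _
    refine congrArg Matrix.det ?_
    ext t i
    rw [Matrix.of_apply, Finset.sum_apply]
  rw [h1]
  refine Eq.trans ?_ h.symm
  refine Finset.sum_congr rfl fun d _ => ?_
  show _ = Matrix.det (fun t i => w t (d t) * ρ t (d t) i)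
  rw [← Matrix.det_mul_column]
  rfl

/-- The determinant formula. -/
theorem main_claim (q : ℝ) (hq0 : 0 < q) (hb : StrictMono b) (hb0 : ∀ t, 0 < b t)
    (hbM : ∀ t, b t < n + k + 1) (L : ℕ) : ∀ (a : Fin k → ℤ) (d : Fin k → Bool), Valid n L a →
      (∀ t : Fin k, 2 * a t = L + 2 * n + 2 * (t : ℕ) + 3 → d t = false) →
      Wsum b q n L a d =
        q ^ (∑ t : Fin k, ((t : ℕ) + 1) * b t) * (rowmat b q n L a d).det := by
  have hq : q ≠ 0 := hq0.ne'
  induction L with
  | zero => intro a d hv _; exact base_case b q hq0 hb hb0 hbM a d hv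
  | succ L ih =>
    intro a d' hv hd'
    obtain ⟨hv1, hv2, hv3⟩ := id hv
    have hA : ∀ d : Fin k → Bool,
        Wsum b q n L (fun t => a t - (if d t = true then 1 else 0)) d =
          q ^ (∑ t : Fin k, ((t : ℕ) + 1) * b t) *
            (Matrix.of fun t i : Fin k => rho b q n L a t (d t) i).det := by
      intro d
      by_cases hvd : Valid n L (fun t => a t - (if d t = true then 1 else 0))
      · rw [ih _ d hvd]
        · congr 2
          ext t i
          rw [rowmat, Matrix.of_apply, Matrix.of_apply, rho]
          cases hd : d t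
          · have h1 := hvd.2.2 t
            simp only [hd] at h1
            simp at h1
            have h2 : ¬ 2 * a t = L + 2 * n + 2 * (t : ℕ) + 4 := by omega
            rw [if_neg h2]
            simp
          · by_cases hT : 2 * a t = L + 2 * n + 2 * (t : ℕ) + 4
            · rw [if_pos hT, if_neg]
              · simp
              · simp
                omega
            · rw [if_neg hT, if_pos]
              · simp
                left
                congr 1
                ring
              · simp
                omega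
        · intro t ht
          by_contra hd
          have hd : d t = true := by simpa using hd
          rw [if_pos hd] at ht
          have := hv3 t
          push_cast at this
          omega
      · rw [Wsum_invalid b q L _ d hvd, det_rho_zero b q hq0 hb0 hbM L a d hv hvd, mul_zero]
    rw [Wsum_succ b q L a d' hv]
    have hB : ∑ d : Fin k → Bool, (∏ t, ws q n (L + 1) a d d' t) *
        Wsum b q n L (fun t => a t - (if d t = true then 1 else 0)) d =
        q ^ (∑ t : Fin k, ((t : ℕ) + 1) * b t) *
          (Matrix.of fun t i : Fin k => ∑ δ : Bool,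
            (if δ = false ∧ d' t = true ∧ 2 * a t ≠ ((L + 1 : ℕ) : ℤ) + 2 * n + 2 * (t : ℕ) + 2
              then q ^ (L + 1) else 1) * rho b q n L a t δ i).det := by
      rw [← det_multi (fun t δ => if δ = false ∧ d' t = true ∧
        2 * a t ≠ ((L + 1 : ℕ) : ℤ) + 2 * n + 2 * (t : ℕ) + 2 then q ^ (L + 1) else 1)
        (fun t δ i => rho b q n L a t δ i)]
      rw [Finset.mul_sum]
      refine Finset.sum_congr rfl fun d _ => ?_
      rw [hA d]
      simp only [ws]
      ring
    rw [hB]
    congr 1
    symm
    apply det_row_next _ _ (fun t => if 2 * a t = L + 2 * n + 2 * (t : ℕ) + 4 then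
      q ^ (a t) else 0)
    intro t i
    rw [rowmat, Matrix.of_apply, Matrix.of_apply]
    by_cases hT : 2 * a t = L + 2 * n + 2 * (t : ℕ) + 4
    · have hdt : d' t = false := hd' t (by push_cast; omega)
      rw [if_pos hT]
      have h1 : (if d' t = true ∧ 2 * a t ≠ ((L + 1 : ℕ) : ℤ) + 2 * n + 2 * (t : ℕ) + 2 then
          q ^ (((L + 1 : ℕ) : ℤ) - a t) *
            Rw q (k + 1) (n + k + 1) (b i) ((t : ℕ) : ℤ) (L + 1) (a t)
          else Rw q (k + 1) (n + k + 1) (b i) (((t : ℕ) : ℤ) + 1) (L + 1) (a t)) =
          Rw q (k + 1) (n + k + 1) (b i) (((t : ℕ) : ℤ) + 1) (L + 1) (a t) := by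
        rw [if_neg]
        rw [hdt]
        simp
      rw [h1, Rw_P2 hq]
      have h2 : (∑ δ : Bool,
            (if δ = false ∧ d' t = true ∧ 2 * a t ≠ ((L + 1 : ℕ) : ℤ) + 2 * n + 2 * (t : ℕ) + 2
              then q ^ (L + 1) else 1) * rho b q n L a t δ i) =
          Rw q (k + 1) (n + k + 1) (b i) (((t : ℕ) : ℤ) + 1) L (a t - 1) := by
        rw [Fintype.sum_bool]
        rw [rho, rho, if_pos hT, if_pos hT]
        simp
      rw [h2]
      congr 2
      by_cases ht : (t : ℕ) + 1 < k
      · rw [dif_pos ht, Matrix.of_apply]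
        have h3 : a t < a ⟨t + 1, ht⟩ := hv1 (by rw [Fin.lt_def]; simp)
        have h4 := hv3 ⟨t + 1, ht⟩
        simp only [] at h4
        push_cast at h4
        have h5 : a ⟨t + 1, ht⟩ = a t + 1 := by omega
        have hT1 : 2 * a ⟨t + 1, ht⟩ = L + 2 * n + 2 * ((⟨t + 1, ht⟩ : Fin k) : ℕ) + 4 := by
          rw [h5]; push_cast; omega
        rw [Fintype.sum_bool]
        rw [rho, rho, if_pos hT1, if_pos hT1]
        simp [h5]
      · rw [dif_neg ht]
        have hk : (t : ℕ) + 1 = k := by have := t.2; omega
        have : ((t : ℕ) : ℤ) + 1 + 1 = ((k + 1 : ℕ) : ℤ) := by push_cast; omega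
        rw [this]
        exact Rw_W1 hq (hb0 i) (hbM i) L (a t) (by push_cast; omega)
    · rw [if_neg hT, zero_mul, add_zero, Fintype.sum_bool]
      rw [rho, rho, if_neg hT, if_neg hT]
      by_cases hc : d' t = true ∧ 2 * a t ≠ ((L + 1 : ℕ) : ℤ) + 2 * n + 2 * (t : ℕ) + 2
      · rw [if_pos hc, if_neg (by simp), if_pos rfl, if_pos ⟨rfl, hc⟩, if_neg (by simp), one_mul,
          Rw_P2 hq]
        have e1 : q ^ (((L + 1 : ℕ) : ℤ) - a t) * q ^ (a t) = q ^ (L + 1) := by
          rw [← zpow_add₀ hq, sub_add_cancel, zpow_natCast]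
        rw [mul_add, ← mul_assoc (q ^ (((L + 1 : ℕ) : ℤ) - a t)) (q ^ a t), e1]
        push_cast
        rfl
      · rw [if_neg hc, if_neg (by simp), if_pos rfl, if_neg (fun h => hc h.2),
          if_neg (by simp), one_mul, one_mul, Rw_P1 hq, add_comm]

end

end Pool.Agent.H680_CP
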