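import Pool.Agent.H680_CP.Defs

set_option autoImplicit false

namespace Pool.Agent.H680_CP

open Finset

/-! ### Task D: general lemmas -/

theorem d_mem_Hist (k L : ℕ) (h : ℕ → Fin k → Bool) :
    h ∈ Hist k L ↔ ∀ x, L ≤ x → h x = fun _ => false := by
  classical
  induction L generalizing h with
  | zero =>
    simp only [Hist, mem_singleton]
    constructor
    · rintro rfl x _; rfl
    · intro hh; funext x; exact hh x (Nat.zero_le x)
  | succ L ih =>
    simp only [Hist, mem_image, mem_product, mem_univ, and_true, Prod.exists]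
    constructor
    · rintro ⟨g, s, hg, rfl⟩ x hx
      rw [Function.update_of_ne (by omega)]
      exact (ih g).1 hg x (by omega)
    · intro hh
      refine ⟨Function.update h L (fun _ => false), h L, (ih _).2 ?_, ?_⟩
      · intro x hx
        by_cases hxL : x = L
        · subst hxL; simp
        · rw [Function.update_of_ne hxL]; exact hh x (by omega)
      · simp

theorem d_initial {k : ℕ} (S : Finset (Fin k)) (hS : ∀ t t', t ≤ t' → t' ∈ S → t ∈ S)
    (t : Fin k) : t ∈ S ↔ (t : ℕ) < S.card := by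
  constructor
  · intro ht
    have h1 : Finset.Iic t ⊆ S := fun s hs => hS s t (Finset.mem_Iic.1 hs) ht
    have h2 := Finset.card_le_card h1
    rw [Fin.card_Iic] at h2
    omega
  · intro ht
    by_contra hcon
    have h1 : S ⊆ Finset.Iio t := by
      intro s hs
      rw [Finset.mem_Iio]
      by_contra h2
      exact hcon (hS t s (not_lt.1 h2) hs)
    have h2 := Finset.card_le_card h1
    rw [Fin.card_Iio] at h2
    omega

theorem d_card_union {k : ℕ} (S1 S2 : Finset (Fin k))
    (h1 : ∀ t t', t ≤ t' → t' ∈ S1 → t ∈ S1) (h2 : ∀ t t', t ≤ t' → t' ∈ S2 → t ∈ S2) :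
    (S1 ∪ S2).card = max S1.card S2.card := by
  rcases le_total S1.card S2.card with h | h
  · rw [max_eq_right h]
    congr 1
    rw [Finset.union_eq_right]
    intro t ht
    rw [d_initial S2 h2]
    exact lt_of_lt_of_le ((d_initial S1 h1 t).1 ht) h
  · rw [max_eq_left h]
    congr 1
    rw [Finset.union_eq_left]
    intro t ht
    rw [d_initial S1 h1]
    exact lt_of_lt_of_le ((d_initial S2 h2 t).1 ht) h

theorem d_rec {k : ℕ} (Y0 Y1 Y2 : Fin k → ℤ) (m0 : Monotone Y0) (m2 : Monotone Y2)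
    (u0 u1 : Fin k → Bool)
    (h0 : ∀ t, Y1 t = Y0 t + if u0 t = true then 1 else -1)
    (h1 : ∀ t, Y2 t = Y1 t + if u1 t = true then 1 else -1)
    (c : ℤ) (hc : ∀ t, Even (Y1 t + c)) :
    (univ.filter fun t => Y1 t ≤ c).card =
      (univ.filter fun t => (u0 t = false ∧ u1 t = true) ∧ Y1 t = c).card +
      max (univ.filter fun t => Y0 t ≤ c - 1).card (univ.filter fun t => Y2 t ≤ c - 1).card := by
  rw [← d_card_union, ← Finset.card_union_of_disjoint]
  · congr 1
    ext t
    have e0 := h0 t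
    have e1 := h1 t
    obtain ⟨r, hr⟩ := hc t
    simp only [mem_filter, mem_univ, true_and, mem_union]
    rcases hu0 : u0 t with _ | _ <;> rcases hu1 : u1 t with _ | _ <;>
      simp only [hu0, hu1] at e0 e1 <;> simp at e0 e1 ⊢ <;> omega
  · rw [Finset.disjoint_left]
    intro t ht ht'
    have e0 := h0 t
    have e1 := h1 t
    simp only [mem_filter, mem_univ, true_and, mem_union] at ht ht'
    obtain ⟨⟨hu0, hu1⟩, hY⟩ := ht
    simp only [hu0, hu1] at e0 e1
    simp at e0 e1
    omega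
  · intro t t' htt' ht'
    simp only [mem_filter, mem_univ, true_and] at ht' ⊢
    exact (m0 htt').trans ht'
  · intro t t' htt' ht'
    simp only [mem_filter, mem_univ, true_and] at ht' ⊢
    exact (m2 htt').trans ht'

/-! ### The start positions -/

/-- monotonicity of the initial sums -/
theorem d_K_mono (k : ℕ → ℕ) {i j : ℕ} (h : i ≤ j) : ∑ t ∈ range i, k t ≤ ∑ t ∈ range j, k t :=
  Finset.sum_le_sum_of_subset (Finset.range_mono h)

theorem d_ct_ge (n : ℕ) (k : ℕ → ℕ) (t j : ℕ) (hj : j ≤ n) :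
    j ≤ ((Finset.Icc 1 n).filter fun j => ∑ i ∈ range j, k i ≤ t).card ↔
      ∑ i ∈ range j, k i ≤ t := by
  constructor
  · intro h
    by_contra hcon
    rcases Nat.eq_zero_or_pos j with rfl | hj0
    · simp at hcon
    · have h1 : ((Finset.Icc 1 n).filter fun j => ∑ i ∈ range j, k i ≤ t) ⊆ Finset.Icc 1 (j - 1) := by
        intro j' hj'
        rw [mem_filter, mem_Icc] at hj'
        rw [mem_Icc]
        refine ⟨hj'.1.1, ?_⟩
        by_contra h2
        have := d_K_mono k (show j ≤ j' by omega)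
        omega
      have h2 := Finset.card_le_card h1
      rw [Nat.card_Icc] at h2
      omega
  · intro h
    have h1 : Finset.Icc 1 j ⊆ ((Finset.Icc 1 n).filter fun j => ∑ i ∈ range j, k i ≤ t) := by
      intro j' hj'
      rw [mem_Icc] at hj'
      rw [mem_filter, mem_Icc]
      exact ⟨⟨hj'.1, hj'.2.trans hj⟩, (d_K_mono k hj'.2).trans h⟩
    have h2 := Finset.card_le_card h1
    rw [Nat.card_Icc] at h2
    omega

theorem d_ct_le (n : ℕ) (k : ℕ → ℕ) (t : ℕ) :
    ((Finset.Icc 1 n).filter fun j => ∑ i ∈ range j, k i ≤ t).card ≤ n := by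
  have h2 := Finset.card_filter_le (Finset.Icc 1 n) (fun j => ∑ i ∈ range j, k i ≤ t)
  rw [Nat.card_Icc] at h2
  omega

theorem d_cnt (n : ℕ) (k : ℕ → ℕ) (j : ℕ) (hj : j ≤ n) :
    (univ.filter fun t : Fin (∑ t ∈ range (n + 1), k t) => bpos n k t = t + 1 + j).card = k j := by
  have h1 : ∀ t : Fin (∑ t ∈ range (n + 1), k t), bpos n k t = t + 1 + j ↔
      (∑ i ∈ range j, k i ≤ t ∧ (t : ℕ) < ∑ i ∈ range (j + 1), k i) := by
    intro t
    have e1 := d_ct_ge n k t j hj
    have e2 := d_ct_le n k t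
    have e3 : j + 1 ≤ n → _ := d_ct_ge n k t (j + 1)
    have ht := t.2
    unfold bpos
    constructor
    · intro h
      have h4 : ((Finset.Icc 1 n).filter fun j => ∑ i ∈ range j, k i ≤ (t : ℕ)).card = j := by omega
      refine ⟨e1.1 (by omega), ?_⟩
      rcases Nat.lt_or_ge j n with hjn | hjn
      · have := e3 hjn
        by_contra hcon
        have := this.2 (by omega)
        omega
      · have : j = n := by omega
        rw [this]; exact ht
    · rintro ⟨h4, h5⟩
      have h6 := e1.2 h4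
      rcases Nat.lt_or_ge j n with hjn | hjn
      · have := e3 hjn
        by_contra hcon
        have := this.1 (by omega)
        omega
      · omega
  simp only [h1]
  have h2 : k j = (Finset.Ico (∑ i ∈ range j, k i) (∑ i ∈ range (j + 1), k i)).card := by
    rw [Nat.card_Ico, Finset.sum_range_succ]; omega
  rw [h2]
  refine Finset.card_bij (fun t _ => (t : ℕ)) ?_ ?_ ?_
  · intro t ht
    simpa using ht
  · intro t _ t' _ h
    exact Fin.ext h
  · intro s hs
    rw [mem_Ico] at hs
    have := d_K_mono k (show j + 1 ≤ n + 1 by omega)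
    exact ⟨⟨s, by omega⟩, by simpa using hs, rfl⟩

/-! ### Heights of a family and its array -/

/-- unshifted height -/
def dY {k : ℕ} (b : Fin k → ℕ) (h : ℕ → Fin k → Bool) (x : ℕ) (t : Fin k) : ℤ :=
  2 * pos b h x t - x - 2 * (t : ℕ)

theorem dY_zero {k : ℕ} (b : Fin k → ℕ) (h : ℕ → Fin k → Bool) (t : Fin k) :
    dY b h 0 t = 2 * b t - 2 * (t : ℕ) := by
  simp [dY, pos]

theorem dY_succ {k : ℕ} (b : Fin k → ℕ) (h : ℕ → Fin k → Bool) (x : ℕ) (t : Fin k) :
    dY b h (x + 1) t = dY b h x t + if h x t = true then 1 else -1 := by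
  simp only [dY, pos, Finset.sum_range_succ]
  split_ifs <;> push_cast <;> ring

theorem dY_parity {k : ℕ} (b : Fin k → ℕ) (h : ℕ → Fin k → Bool) (x : ℕ) (t : Fin k) :
    Even (dY b h x t + x) := by
  refine ⟨pos b h x t - (t : ℕ), ?_⟩
  simp only [dY]; ring

/-- the array of a family -/
noncomputable def arr (n : ℕ) {k : ℕ} (b : Fin k → ℕ) (h : ℕ → Fin k → Bool) (c x : ℕ) : ℕ := by
  classical
  exact (Finset.univ.filter fun t : Fin k => Valley n b h x t ∧ dY b h x t = c).card

theorem d_valid_mono {n k : ℕ} {b : Fin k → ℕ} {h : ℕ → Fin k → Bool} {x : ℕ}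
    (hv : Valid n x (pos b h x)) : Monotone (dY b h x) := by
  intro t t' htt'
  -- strictly monotone integer sequence: a (t') - a t ≥ t' - t
  have key : ∀ d : ℕ, ∀ (s : ℕ) (hs : s + d < k),
      pos b h x ⟨s, by omega⟩ + d ≤ pos b h x ⟨s + d, hs⟩ := by
    intro d
    induction d with
    | zero => intro s hs; simp
    | succ d ih =>
      intro s hs
      have h1 := ih s (by omega)
      have h2 : pos b h x ⟨s + d, by omega⟩ < pos b h x ⟨s + (d + 1), hs⟩ := hv.1 (by simp)
      push_cast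
      linarith
  have h1 : (t : ℕ) ≤ t' := htt'
  have h2 := key ((t' : ℕ) - t) t (by have := t'.2; omega)
  have e1 : (⟨(t : ℕ) + ((t' : ℕ) - t), by have := t'.2; omega⟩ : Fin k) = t' := by
    ext; simp; omega
  rw [e1] at h2
  simp only [Fin.eta] at h2
  simp only [dY]
  push_cast [Nat.cast_sub h1] at h2
  linarith

theorem d_valid_ge {n k : ℕ} {b : Fin k → ℕ} {h : ℕ → Fin k → Bool} {x : ℕ}
    (hv : Valid n x (pos b h x)) (t : Fin k) : 1 ≤ dY b h x t := by
  have hk : 0 < k := t.pos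
  have h1 := d_valid_mono hv (show (⟨0, hk⟩ : Fin k) ≤ t from Nat.zero_le _)
  have h2 := hv.2.1 ⟨0, hk⟩
  have h3 : dY b h x ⟨0, hk⟩ = 2 * pos b h x ⟨0, hk⟩ - x - 2 * (0 : ℕ) := rfl
  push_cast at h3
  linarith

theorem d_valid_le {n k : ℕ} {b : Fin k → ℕ} {h : ℕ → Fin k → Bool} {x : ℕ}
    (hv : Valid n x (pos b h x)) (t : Fin k) : dY b h x t ≤ 2 * n + 3 := by
  have h1 := hv.2.2 t
  simp only [dY]
  linarith

/-- The path `p` meets at most one valley of each lattice path. -/
theorem d_path_le {k : ℕ} (n : ℕ) (b : Fin k → ℕ) (h : ℕ → Fin k → Bool) (t : Fin k)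
    (p : ℕ → ℤ) (m : ℕ)
    (hp1 : ∀ c ∈ Finset.Icc 1 m, -1 ≤ p c)
    (hp2 : ∀ c, 1 ≤ c → c + 1 ≤ m → |p c - p (c + 1)| = 1) (c c' : ℕ) (hc1 : 1 ≤ c)
    (hcc' : c < c') (hc'm : c' ≤ m)
    (hv : if p c = -1 then dY b h 0 t = c + 1 else
      Valley n b h (p c).toNat t ∧ dY b h (p c).toNat t = c)
    (hv' : if p c' = -1 then dY b h 0 t = c' + 1 else
      Valley n b h (p c').toNat t ∧ dY b h (p c').toNat t = c') : False := by
  -- extended heights
  set Z : ℤ → ℤ := fun x => if x = -1 then dY b h 0 t - 1 else dY b h x.toNat t with hZ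
  have hstep : ∀ x : ℤ, -1 ≤ x → |Z (x + 1) - Z x| = 1 := by
    intro x hx
    simp only [hZ]
    rcases eq_or_lt_of_le hx with h1 | h1
    · subst h1; simp
    · have e1 : (x + 1).toNat = x.toNat + 1 := by omega
      rw [if_neg (by omega), if_neg (by omega), e1, dY_succ]
      split_ifs <;> simp
  -- the defect is monotone
  have hD : ∀ d, 1 ≤ d → d + 1 ≤ m → (d : ℤ) - Z (p d) ≤ ((d + 1 : ℕ) : ℤ) - Z (p (d + 1)) := by
    intro d hd1 hdm
    have h1 := hp2 d hd1 hdm
    have h2 := hp1 d (by rw [mem_Icc]; omega)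
    have h3 := hp1 (d + 1) (by rw [mem_Icc]; omega)
    rcases (abs_eq (by norm_num : (0 : ℤ) ≤ 1)).1 h1 with h4 | h4
    · have h5 : p d = p (d + 1) + 1 := by linarith
      have h6 := hstep (p (d + 1)) h3
      rw [h5]
      have h7 := (abs_le.1 h6.le).1
      push_cast; linarith
    · have h5 : p (d + 1) = p d + 1 := by linarith
      have h6 := hstep (p d) h2
      rw [h5]
      have h7 := (abs_le.1 h6.le).2
      push_cast; linarith
  have hD2 : ∀ e, ∀ d, 1 ≤ d → d + e ≤ m →
      (d : ℤ) - Z (p d) ≤ ((d + e : ℕ) : ℤ) - Z (p (d + e)) := by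
    intro e
    induction e with
    | zero => intro d _ _; simp
    | succ e ih =>
      intro d hd hdm
      exact (ih d hd (by omega)).trans (hD (d + e) (by omega) hdm)
  have hc0 : Z (p c) = c := by
    simp only [hZ]
    split_ifs with h1
    · rw [if_pos h1] at hv; linarith
    · rw [if_neg h1] at hv; exact hv.2
  have hc0' : Z (p c') = c' := by
    simp only [hZ]
    split_ifs with h1
    · rw [if_pos h1] at hv'; linarith
    · rw [if_neg h1] at hv'; exact hv'.2
  -- the point just before c'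
  obtain ⟨c'', rfl⟩ : ∃ c'', c' = c'' + 1 := ⟨c' - 1, by omega⟩
  have hA := hD2 (c'' - c) c hc1 (by omega)
  have e1 : c + (c'' - c) = c'' := by omega
  rw [e1] at hA
  have hB := hD c'' (by omega) hc'm
  have hZ'' : Z (p c'') = c'' := by
    rw [hc0] at hA
    rw [hc0'] at hB
    push_cast at hB
    linarith
  have h1 := hp2 c'' (by omega) hc'm
  have h2 := hp1 c'' (by rw [mem_Icc]; omega)
  have h3 := hp1 (c'' + 1) (by rw [mem_Icc]; omega)
  by_cases h4 : p (c'' + 1) = -1
  · rw [if_pos h4] at hv'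
    have h5 : p c'' = 0 := by
      rw [h4] at h1
      rcases (abs_eq (by norm_num : (0 : ℤ) ≤ 1)).1 h1 with h6 | h6 <;> omega
    rw [h5] at hZ''
    simp only [hZ] at hZ''
    norm_num at hZ''
    push_cast at hv'
    linarith
  · rw [if_neg h4] at hv'
    obtain ⟨⟨hva, hvb, hvc⟩, hvd⟩ := hv'
    -- position ≥ 1
    have h5 : 1 ≤ (p (c'' + 1)).toNat := by
      by_contra hcon
      have : (p (c'' + 1)).toNat = 0 := by omega
      rw [this] at hva hvb
      rw [hva] at hvb
      exact absurd hvb (by simp)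
    obtain ⟨y, hy⟩ : ∃ y : ℕ, (p (c'' + 1)).toNat = y + 1 := ⟨(p (c'' + 1)).toNat - 1, by omega⟩
    have hy' : p (c'' + 1) = y + 1 := by omega
    rw [hy] at hva hvb hvd
    have e2 : y + 1 - 1 = y := by omega
    rw [e2] at hva
    have s1 := dY_succ b h y t
    have s2 := dY_succ b h (y + 1) t
    rw [if_neg (by rw [hva]; simp)] at s1
    rw [if_pos hvb] at s2
    rcases (abs_eq (by norm_num : (0 : ℤ) ≤ 1)).1 h1 with h6 | h6
    · have h7 : p c'' = y + 2 := by linarith
      simp only [hZ, h7] at hZ''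
      rw [if_neg (by omega)] at hZ''
      have e3 : ((y : ℤ) + 2).toNat = y + 1 + 1 := by omega
      rw [e3] at hZ''
      push_cast at hvd
      linarith
    · have h7 : p c'' = y := by linarith
      simp only [hZ, h7] at hZ''
      rw [if_neg (by omega)] at hZ''
      have e3 : ((y : ℤ)).toNat = y := by omega
      rw [e3] at hZ''
      push_cast at hvd
      linarith

/-! ### The array of a family of weight `N` lies in `SS n k N` -/

theorem d_valley_props {n k : ℕ} {b : Fin k → ℕ} {h : ℕ → Fin k → Bool} {L x : ℕ} {t : Fin k}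
    (hH : h ∈ Hist k L) (hV : ∀ x ≤ L, Valid n x (pos b h x)) (hv : Valley n b h x t) :
    1 ≤ x ∧ x < L ∧ 1 ≤ dY b h x t ∧ dY b h x t ≤ 2 * n + 1 := by
  obtain ⟨h1, h2, h3⟩ := hv
  have hx1 : 1 ≤ x := by
    by_contra hcon
    have : x = 0 := by omega
    subst this
    rw [h1] at h2
    exact absurd h2 (by simp)
  have hxL : x < L := by
    by_contra hcon
    have := (d_mem_Hist k L h).1 hH x (by omega)
    rw [this] at h2
    exact absurd h2 (by simp)
  refine ⟨hx1, hxL, d_valid_ge (hV x hxL.le) t, ?_⟩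
  have h4 := d_valid_le (hV (x + 1) hxL) t
  rw [dY_succ, if_pos h2] at h4
  have h5 := dY_parity b h x t
  have h6 : dY b h x t ≠ 2 * n + 2 := by
    intro hcon
    apply h3
    simp only [dY] at hcon
    linarith
  omega

theorem d_sum_arr {n k : ℕ} {b : Fin k → ℕ} {h : ℕ → Fin k → Bool} {L x : ℕ}
    (hH : h ∈ Hist k L) (hV : ∀ x ≤ L, Valid n x (pos b h x)) :
    ∑ c ∈ Finset.Icc 1 (2 * n + 1), arr n b h c x =
      (by classical exact (Finset.univ.filter fun t : Fin k => Valley n b h x t).card) := by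
  classical
  have h1 := Finset.card_eq_sum_card_fiberwise
    (s := Finset.univ.filter fun t : Fin k => Valley n b h x t)
    (f := fun t => (dY b h x t).toNat) (t := Finset.Icc 1 (2 * n + 1)) (by
      intro t ht
      rw [Finset.mem_coe, mem_filter] at ht
      obtain ⟨_, _, h3, h4⟩ := d_valley_props hH hV ht.2
      rw [Finset.mem_coe, mem_Icc]
      show 1 ≤ (dY b h x t).toNat ∧ (dY b h x t).toNat ≤ 2 * n + 1
      omega)
  rw [h1]
  refine Finset.sum_congr rfl (fun c hc => ?_)
  unfold arr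
  congr 1
  ext t
  simp only [mem_filter, mem_univ, true_and]
  constructor
  · rintro ⟨h2, h3⟩
    exact ⟨h2, by omega⟩
  · rintro ⟨h2, h3⟩
    obtain ⟨_, _, h4, h5⟩ := d_valley_props hH hV h2
    exact ⟨h2, by omega⟩

theorem d_wt_eq {n k : ℕ} {b : Fin k → ℕ} {h : ℕ → Fin k → Bool} {L : ℕ}
    (hH : h ∈ Hist k L) (hV : ∀ x ≤ L, Valid n x (pos b h x)) (N : ℕ)
    (hN : ∀ c x, arr n b h c x ≠ 0 → 1 ≤ c → c ≤ 2 * n + 1 → x ≤ N) :
    wt n b L h = ∑ c ∈ Finset.Icc 1 (2 * n + 1), ∑ i ∈ Finset.Icc 1 N, i * arr n b h c i := by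
  classical
  rw [Finset.sum_comm]
  simp only [← Finset.mul_sum]
  have h1 : wt n b L h = ∑ x ∈ range L, x * ∑ c ∈ Finset.Icc 1 (2 * n + 1), arr n b h c x := by
    unfold wt
    refine Finset.sum_congr rfl (fun x _ => ?_)
    rw [d_sum_arr hH hV]
  rw [h1]
  have h2 : ∑ x ∈ range L, x * ∑ c ∈ Finset.Icc 1 (2 * n + 1), arr n b h c x =
      ∑ x ∈ range (L + N + 1), x * ∑ c ∈ Finset.Icc 1 (2 * n + 1), arr n b h c x := by
    apply Finset.sum_subset (Finset.range_mono (by omega))
    intro x _ hx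
    rw [d_sum_arr hH hV, Finset.card_eq_zero.2, mul_zero]
    rw [Finset.filter_eq_empty_iff]
    intro t _ ht
    have := (d_valley_props hH hV ht).2.1
    exact hx (mem_range.2 this)
  have h3 : ∑ x ∈ Finset.Icc 1 N, x * ∑ c ∈ Finset.Icc 1 (2 * n + 1), arr n b h c x =
      ∑ x ∈ range (L + N + 1), x * ∑ c ∈ Finset.Icc 1 (2 * n + 1), arr n b h c x := by
    apply Finset.sum_subset
    · intro x hx
      rw [mem_Icc] at hx
      rw [mem_range]; omega
    · intro x _ hx
      rcases Nat.eq_zero_or_pos x with rfl | hx0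
      · simp
      · rw [Finset.sum_eq_zero, mul_zero]
        intro c hc
        rw [mem_Icc] at hc
        by_contra hcon
        have := hN c x hcon hc.1 hc.2
        exact hx (by rw [mem_Icc]; omega)
  rw [h2, h3]

theorem d_arr_mem (n : ℕ) (k : ℕ → ℕ) (l N : ℕ)
    (h : ℕ → Fin (∑ t ∈ range (n + 1), k t) → Bool)
    (hF : h ∈ Fam n (fun t : Fin (∑ t ∈ range (n + 1), k t) => bpos n k t) (2 * l))
    (hw : wt n (fun t : Fin (∑ t ∈ range (n + 1), k t) => bpos n k t) (2 * l) h = N) :
    arr n (fun t : Fin (∑ t ∈ range (n + 1), k t) => bpos n k t) h ∈ SS n k N := by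
  classical
  set b := (fun t : Fin (∑ t ∈ range (n + 1), k t) => bpos n k t) with hb
  rw [Fam, mem_filter] at hF
  obtain ⟨hH, hV, hT⟩ := hF
  have hbound : ∀ c x, arr n b h c x ≠ 0 → 1 ≤ c ∧ c ≤ 2 * n + 1 ∧ 1 ≤ x ∧ x ≤ N ∧
      Even (c + x) := by
    intro c x hne
    unfold arr at hne
    obtain ⟨t, ht⟩ := Finset.card_ne_zero.1 hne
    rw [mem_filter] at ht
    obtain ⟨_, ht1, ht2⟩ := ht
    obtain ⟨h1, h2, h3, h4⟩ := d_valley_props hH hV ht1
    have h5 := dY_parity b h x t
    refine ⟨by omega, by omega, h1, ?_, ?_⟩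
    · rw [← hw]
      unfold wt
      have h6 : x ≤ x * (Finset.univ.filter fun t => Valley n b h x t).card := by
        have : 0 < (Finset.univ.filter fun t => Valley n b h x t).card :=
          Finset.card_pos.2 ⟨t, by simpa using ht1⟩
        nlinarith
      refine h6.trans ?_
      exact Finset.single_le_sum
        (f := fun x => x * (Finset.univ.filter fun t => Valley n b h x t).card)
        (fun _ _ => Nat.zero_le _) (mem_range.2 h2)
    · rw [ht2] at h5
      exact_mod_cast h5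
  refine ⟨hbound, ?_, ?_⟩
  · rw [← d_wt_eq hH hV N (fun c x h1 _ _ => (hbound c x h1).2.2.2.1), hw]
  · intro p hp1 hp2
    -- the sum is a double count
    set val : Fin (∑ t ∈ range (n + 1), k t) → ℕ → Prop := fun t c =>
      if p c = -1 then dY b h 0 t = c + 1 else
        Valley n b h (p c).toNat t ∧ dY b h (p c).toNat t = c with hval
    have h1 : ∀ c ∈ Finset.Icc 1 (2 * n + 1),
        (if p c = -1 then (if Odd c then k ((c - 1) / 2) else 0) else arr n b h c (p c).toNat) =
        (univ.filter fun t => val t c).card := by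
      intro c hc
      rw [mem_Icc] at hc
      have hpar := (hp1 c (by rw [mem_Icc]; exact hc)).2
      by_cases h2 : p c = -1
      · rw [if_pos h2]
        have hodd : Odd c := by
          rw [h2] at hpar
          rcases Nat.even_or_odd c with he | ho
          · exfalso
            obtain ⟨r, hr⟩ := he
            obtain ⟨s, hs⟩ := hpar
            omega
          · exact ho
        rw [if_pos hodd]
        obtain ⟨j, hj⟩ := hodd
        have e1 : (c - 1) / 2 = j := by omega
        rw [e1, ← d_cnt n k j (by omega)]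
        congr 1
        ext t
        simp only [mem_filter, mem_univ, true_and, hval, if_pos h2, dY_zero, hb]
        omega
      · rw [if_neg h2]
        unfold arr
        congr 1
        ext t
        simp only [mem_filter, mem_univ, true_and, hval, if_neg h2]
    rw [Finset.sum_congr rfl h1]
    have h2 : ∑ c ∈ Finset.Icc 1 (2 * n + 1), (univ.filter fun t => val t c).card =
        ∑ t : Fin (∑ t ∈ range (n + 1), k t), ((Finset.Icc 1 (2 * n + 1)).filter fun c => val t c).card := by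
      simp only [Finset.card_filter]
      rw [Finset.sum_comm]
    rw [h2]
    calc ∑ t : Fin (∑ t ∈ range (n + 1), k t), ((Finset.Icc 1 (2 * n + 1)).filter fun c => val t c).card
        ≤ ∑ t : Fin (∑ t ∈ range (n + 1), k t), 1 := by
          apply Finset.sum_le_sum
          intro t _
          rw [Finset.card_le_one]
          intro c hc c' hc'
          rw [mem_filter, mem_Icc] at hc hc'
          have hp1' : ∀ c ∈ Finset.Icc 1 (2 * n + 1), -1 ≤ p c := fun c hc => (hp1 c hc).1
          have hp2' : ∀ c, 1 ≤ c → c + 1 ≤ 2 * n + 1 → |p c - p (c + 1)| = 1 := by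
            intro c hc1 hc2
            exact hp2 c (by rw [mem_Icc]; omega)
          rcases lt_trichotomy c c' with h3 | h3 | h3
          · exact (d_path_le n b h t p (2 * n + 1) hp1' hp2' c c' hc.1.1 h3 hc'.1.2 hc.2 hc'.2).elim
          · exact h3
          · exact (d_path_le n b h t p (2 * n + 1) hp1' hp2' c' c hc'.1.1 h3 hc.1.2 hc'.2 hc.2).elim
      _ = ∑ t ∈ range (n + 1), k t := by simp

/-! ### Injectivity -/

theorem d_valley_iff {n k : ℕ} {b : Fin k → ℕ} {h : ℕ → Fin k → Bool} {x c : ℕ} {t : Fin k}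
    (hc : c ≤ 2 * n + 1) :
    (Valley n b h (x + 1) t ∧ dY b h (x + 1) t = c) ↔
      ((h x t = false ∧ h (x + 1) t = true) ∧ dY b h (x + 1) t = c) := by
  unfold Valley
  rw [Nat.add_sub_cancel]
  constructor
  · rintro ⟨⟨h1, h2, _⟩, h4⟩
    exact ⟨⟨h1, h2⟩, h4⟩
  · rintro ⟨⟨h1, h2⟩, h4⟩
    refine ⟨⟨h1, h2, ?_⟩, h4⟩
    intro hcon
    simp only [dY] at h4
    omega

/-- the number of paths at height at most `c` -/
noncomputable def dN {k : ℕ} (b : Fin k → ℕ) (h : ℕ → Fin k → Bool) (c x : ℕ) : ℕ :=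
  (Finset.univ.filter fun t : Fin k => dY b h x t ≤ c).card

theorem dN_rec {n k : ℕ} {b : Fin k → ℕ} {h : ℕ → Fin k → Bool} {L x c : ℕ}
    (hV : ∀ x ≤ L, Valid n x (pos b h x)) (hx : x + 2 ≤ L) (hc : c + 1 ≤ 2 * n + 1)
    (hpar : Even (c + x)) :
    dN b h (c + 1) (x + 1) = arr n b h (c + 1) (x + 1) + max (dN b h c x) (dN b h c (x + 2)) := by
  have h1 := d_rec (dY b h x) (dY b h (x + 1)) (dY b h (x + 2))
    (d_valid_mono (hV x (by omega))) (d_valid_mono (hV (x + 2) (by omega))) (h x) (h (x + 1))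
    (fun t => dY_succ b h x t) (fun t => dY_succ b h (x + 1) t) ((c + 1 : ℕ) : ℤ) (by
      intro t
      obtain ⟨r, hr⟩ := dY_parity b h (x + 1) t
      obtain ⟨s, hs⟩ := hpar
      push_cast at hr ⊢
      exact ⟨r + s - x, by have : (c : ℤ) + x = s + s := by exact_mod_cast hs
                           linarith⟩)
  have h2 : ((c + 1 : ℕ) : ℤ) - 1 = c := by push_cast; ring
  rw [h2] at h1
  unfold dN
  rw [h1]
  congr 1
  unfold arr
  congr 1
  ext t
  simp only [mem_filter, mem_univ, true_and]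
  rw [d_valley_iff hc]

theorem d_inj {n k : ℕ} {b : Fin k → ℕ} {l : ℕ} {h h' : ℕ → Fin k → Bool}
    (hF : h ∈ Fam n b (2 * l)) (hF' : h' ∈ Fam n b (2 * l)) (heq : arr n b h = arr n b h') :
    h = h' := by
  classical
  rw [Fam, mem_filter] at hF hF'
  obtain ⟨hH, hV, hT⟩ := hF
  obtain ⟨hH', hV', hT'⟩ := hF'
  have hN : ∀ c, c ≤ 2 * n + 1 → ∀ x, x ≤ 2 * l → Even (c + x) → dN b h c x = dN b h' c x := by
    intro c
    induction c with
    | zero =>
      intro _ x hx _
      unfold dN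
      rw [Finset.filter_eq_empty_iff.2, Finset.filter_eq_empty_iff.2]
      · intro t _ hcon
        have := d_valid_ge (hV' x hx) t
        push_cast at hcon
        linarith
      · intro t _ hcon
        have := d_valid_ge (hV x hx) t
        push_cast at hcon
        linarith
    | succ c ih =>
      intro hc x hx hpar
      rcases Nat.eq_zero_or_pos x with rfl | hx0
      · unfold dN
        simp only [dY_zero]
      · rcases eq_or_lt_of_le hx with rfl | hxl
        · unfold dN
          rw [Finset.filter_eq_empty_iff.2, Finset.filter_eq_empty_iff.2]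
          · intro t _ hcon
            have h1 := hT' t
            simp only [dY] at hcon
            push_cast at hcon h1
            have : (c : ℤ) + 1 ≤ 2 * n + 1 := by exact_mod_cast hc
            linarith
          · intro t _ hcon
            have h1 := hT t
            simp only [dY] at hcon
            push_cast at hcon h1
            have : (c : ℤ) + 1 ≤ 2 * n + 1 := by exact_mod_cast hc
            linarith
        · obtain ⟨y, rfl⟩ : ∃ y, x = y + 1 := ⟨x - 1, by omega⟩
          have hpar' : Even (c + y) := by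
            obtain ⟨r, hr⟩ := hpar
            exact ⟨r - 1, by omega⟩
          have hpar'' : Even (c + (y + 2)) := by
            obtain ⟨r, hr⟩ := hpar
            exact ⟨r, by omega⟩
          rw [dN_rec hV (by omega) hc hpar', dN_rec hV' (by omega) hc hpar', heq,
            ih (by omega) y (by omega) hpar', ih (by omega) (y + 2) (by omega) hpar'']
  have hle : ∀ x, x ≤ 2 * l → ∀ c, c ≤ 2 * n + 1 → Even (c + x) → ∀ t,
      (dY b h x t ≤ c ↔ dY b h' x t ≤ c) := by
    intro x hx c hc hpar t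
    have h1 := d_initial (Finset.univ.filter fun t : Fin k => dY b h x t ≤ c) (by
      intro t t' htt' ht'
      simp only [mem_filter, mem_univ, true_and] at ht' ⊢
      exact (d_valid_mono (hV x hx) htt').trans ht') t
    have h2 := d_initial (Finset.univ.filter fun t : Fin k => dY b h' x t ≤ c) (by
      intro t t' htt' ht'
      simp only [mem_filter, mem_univ, true_and] at ht' ⊢
      exact (d_valid_mono (hV' x hx) htt').trans ht') t
    simp only [mem_filter, mem_univ, true_and] at h1 h2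
    rw [h1, h2]
    have h3 := hN c hc x hx hpar
    unfold dN at h3
    rw [h3]
  have hYeq : ∀ x, x ≤ 2 * l → ∀ t, dY b h x t = dY b h' x t := by
    intro x hx t
    have p1 := dY_parity b h x t
    have p2 := dY_parity b h' x t
    have g1 := d_valid_ge (hV x hx) t
    have g2 := d_valid_ge (hV' x hx) t
    have l1 := d_valid_le (hV x hx) t
    have l2 := d_valid_le (hV' x hx) t
    rcases lt_trichotomy (dY b h x t) (dY b h' x t) with h1 | h1 | h1
    · exfalso
      have h2 : dY b h x t + 2 ≤ dY b h' x t := by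
        obtain ⟨r, hr⟩ := p1
        obtain ⟨s, hs⟩ := p2
        omega
      have h3 := hle x hx (dY b h x t).toNat (by omega) (by
        obtain ⟨r, hr⟩ := p1
        exact ⟨r.toNat, by omega⟩) t
      have e : (((dY b h x t).toNat : ℕ) : ℤ) = dY b h x t := by omega
      rw [e] at h3
      have := h3.1 le_rfl
      linarith
    · exact h1
    · exfalso
      have h2 : dY b h' x t + 2 ≤ dY b h x t := by
        obtain ⟨r, hr⟩ := p1
        obtain ⟨s, hs⟩ := p2
        omega
      have h3 := hle x hx (dY b h' x t).toNat (by omega) (by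
        obtain ⟨r, hr⟩ := p2
        exact ⟨r.toNat, by omega⟩) t
      have e : (((dY b h' x t).toNat : ℕ) : ℤ) = dY b h' x t := by omega
      rw [e] at h3
      have := h3.2 le_rfl
      linarith
  funext x
  rcases Nat.lt_or_ge x (2 * l) with hx | hx
  · funext t
    have e0 := hYeq x hx.le t
    have e1 := hYeq (x + 1) hx t
    rw [dY_succ, dY_succ, e0] at e1
    rcases h1 : h x t with _ | _ <;> rcases h2 : h' x t with _ | _ <;> simp [h1, h2] at e1 ⊢
  · rw [(d_mem_Hist k _ h).1 hH x hx, (d_mem_Hist k _ h').1 hH' x hx]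

/-! ### Maximal path sums -/

/-- boundary-extended entries -/
def dF (k : ℕ → ℕ) (f : ℕ → ℕ → ℕ) (c : ℕ) (x : ℤ) : ℕ :=
  if x = -1 then (if Odd c then k ((c - 1) / 2) else 0) else f c x.toNat

/-- maximal path sums -/
def dT (k : ℕ → ℕ) (f : ℕ → ℕ → ℕ) : ℕ → ℤ → ℕ
  | 0, _ => 0
  | c + 1, x => if x < -1 then 0 else
      dF k f (c + 1) x + max (dT k f c (x - 1)) (dT k f c (x + 1))

theorem dT_path (k : ℕ → ℕ) (f : ℕ → ℕ → ℕ) (c : ℕ) (hc : 1 ≤ c) :
    ∀ x : ℤ, -1 ≤ x → Even (x + c) → ∃ p : ℕ → ℤ, p c = x ∧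
      (∀ c' ∈ Finset.Icc 1 c, -1 ≤ p c' ∧ Even (p c' + (c' : ℤ))) ∧
      (∀ c', 1 ≤ c' → c' + 1 ≤ c → |p c' - p (c' + 1)| = 1) ∧
      dT k f c x = ∑ c' ∈ Finset.Icc 1 c, dF k f c' (p c') := by
  induction c, hc using Nat.le_induction with
  | base =>
    intro x hx hpar
    refine ⟨fun _ => x, rfl, ?_, ?_, ?_⟩
    · intro c' hc'
      rw [mem_Icc] at hc'
      have : c' = 1 := by omega
      subst this
      exact ⟨hx, hpar⟩
    · intro c' h1 h2; omega
    · simp [dT, not_lt.2 hx]
  | succ c hc ih =>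
    intro x hx hpar
    obtain ⟨x', hx', hxx', hmax⟩ : ∃ x' : ℤ, -1 ≤ x' ∧ |x' - x| = 1 ∧
        max (dT k f c (x - 1)) (dT k f c (x + 1)) = dT k f c x' := by
      rcases eq_or_lt_of_le hx with h1 | h1
      · refine ⟨x + 1, by omega, by simp, ?_⟩
        apply max_eq_right
        have : dT k f c (x - 1) = 0 := by
          obtain ⟨d, rfl⟩ : ∃ d, c = d + 1 := ⟨c - 1, by omega⟩
          rw [dT, if_pos (by omega)]
        rw [this]; exact Nat.zero_le _
      · rcases le_total (dT k f c (x - 1)) (dT k f c (x + 1)) with h2 | h2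
        · exact ⟨x + 1, by omega, by simp, max_eq_right h2⟩
        · exact ⟨x - 1, by omega, by simp, max_eq_left h2⟩
    have hpar' : Even (x' + c) := by
      obtain ⟨r, hr⟩ := hpar
      push_cast at hr
      rcases (abs_eq (by norm_num : (0 : ℤ) ≤ 1)).1 hxx' with h6 | h6
      · exact ⟨r, by linarith⟩
      · exact ⟨r - 1, by linarith⟩
    obtain ⟨p, hp0, hp1, hp2, hp3⟩ := ih x' hx' hpar'
    refine ⟨Function.update p (c + 1) x, by simp, ?_, ?_, ?_⟩
    · intro c' hc'
      rw [mem_Icc] at hc'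
      by_cases h1 : c' = c + 1
      · subst h1; simp only [Function.update_self]; exact ⟨hx, hpar⟩
      · rw [Function.update_of_ne h1]
        exact hp1 c' (by rw [mem_Icc]; omega)
    · intro c' h1 h2
      rw [Function.update_of_ne (by omega)]
      by_cases h3 : c' = c
      · subst h3
        rw [Function.update_self, hp0]; exact hxx'
      · rw [Function.update_of_ne (by omega)]
        exact hp2 c' h1 (by omega)
    · rw [dT, if_neg (not_lt.2 hx), hmax, hp3, Finset.sum_Icc_succ_top (by omega),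
        Function.update_self, add_comm]
      congr 1
      refine Finset.sum_congr rfl (fun c' hc' => ?_)
      rw [mem_Icc] at hc'
      rw [Function.update_of_ne (by omega)]

theorem dT_le_right (k : ℕ → ℕ) (f : ℕ → ℕ → ℕ) (c : ℕ) (x : ℤ) (hx : -1 ≤ x + 1) :
    dT k f c x ≤ dT k f (c + 1) (x + 1) := by
  rw [dT, if_neg (not_lt.2 hx)]
  have : x + 1 - 1 = x := by ring
  rw [this]
  exact (le_max_left _ _).trans (Nat.le_add_left _ _)

theorem dT_le_left (k : ℕ → ℕ) (f : ℕ → ℕ → ℕ) (c : ℕ) (x : ℤ) (hx : -1 ≤ x) :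
    dT k f c (x + 1) ≤ dT k f (c + 1) x := by
  rw [dT, if_neg (not_lt.2 hx)]
  exact (le_max_right _ _).trans (Nat.le_add_left _ _)

theorem dT_step (k : ℕ → ℕ) (f : ℕ → ℕ → ℕ) (j : ℕ) :
    dT k f (2 * j) 0 + k j ≤ dT k f (2 * j + 1) (-1) ∧
    dT k f (2 * j) 0 + k j ≤ dT k f (2 * (j + 1)) 0 := by
  have h1 : dT k f (2 * j) 0 + k j ≤ dT k f (2 * j + 1) (-1) := by
    rw [dT, if_neg (by norm_num)]
    have e1 : dF k f (2 * j + 1) (-1) = k j := by
      unfold dF
      rw [if_pos rfl, if_pos ⟨j, rfl⟩]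
      congr 1; omega
    rw [e1]
    have e2 : (-1 : ℤ) + 1 = 0 := by norm_num
    rw [e2, add_comm]
    exact Nat.add_le_add_left (le_max_right _ _) _
  refine ⟨h1, h1.trans ?_⟩
  have := dT_le_right k f (2 * j + 1) (-1) (by norm_num)
  exact this

theorem dT_boundary (k : ℕ → ℕ) (f : ℕ → ℕ → ℕ) (j i : ℕ) :
    dT k f (2 * j) 0 + ∑ t ∈ range (j + i), k t ≤
      dT k f (2 * (j + i)) 0 + ∑ t ∈ range j, k t := by
  induction i with
  | zero => simp
  | succ i ih =>
    have h1 := (dT_step k f (j + i)).2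
    have e1 : j + (i + 1) = (j + i) + 1 := by ring
    rw [e1, Finset.sum_range_succ]
    omega

theorem dT_zero (k : ℕ → ℕ) (f : ℕ → ℕ → ℕ) (N : ℕ) (hf : ∀ c i, N < i → f c i = 0) (c : ℕ) :
    ∀ x : ℤ, (N : ℤ) + c < x → dT k f c x = 0 := by
  induction c with
  | zero => intro x _; rfl
  | succ c ih =>
    intro x hx
    push_cast at hx
    rw [dT, if_neg (by omega), ih (x - 1) (by omega), ih (x + 1) (by omega)]
    unfold dF
    rw [if_neg (by omega), hf _ _ (by omega)]
    simp

/-! ### Surjectivity -/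

theorem d_initial_card (K m : ℕ) (hm : m ≤ K) :
    (Finset.univ.filter fun t : Fin K => (t : ℕ) < m).card = m := by
  have h1 : (Finset.univ.filter fun t : Fin K => (t : ℕ) < m).card = (Finset.range m).card := by
    refine Finset.card_bij (fun t _ => (t : ℕ)) ?_ ?_ ?_
    · intro t ht
      simpa using ht
    · intro t _ t' _ h
      exact Fin.ext h
    · intro s hs
      rw [mem_range] at hs
      exact ⟨⟨s, by omega⟩, by simpa using hs, rfl⟩
  rw [h1, Finset.card_range]

/-- The construction of the family from the table of maximal path sums. -/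
theorem d_surj_aux (n : ℕ) (k : ℕ → ℕ) (l : ℕ) (T : ℕ → ℕ → ℕ)
    (P0 : ∀ x, T 0 x = 0)
    (P1 : ∀ c x, c ≤ 2 * n + 2 → Even (c + x) → T c x ≤ T (c + 1) (x + 1))
    (P2 : ∀ c x, c ≤ 2 * n + 2 → Even (c + (x + 1)) → T c (x + 1) ≤ T (c + 1) x)
    (P3 : ∀ x, T (2 * n + 2) x = ∑ t ∈ range (n + 1), k t)
    (P3' : ∀ x, T (2 * n + 3) x = ∑ t ∈ range (n + 1), k t)
    (P4 : ∀ j ≤ n, T (2 * j) 0 = ∑ t ∈ range j, k t)
    (P6 : ∀ c, c ≤ 2 * n + 1 → T c (2 * l) = 0) :
    ∃ h : ℕ → Fin (∑ t ∈ range (n + 1), k t) → Bool,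
      h ∈ Hist _ (2 * l) ∧
      (∀ x ≤ 2 * l, Valid n x (pos (fun t : Fin (∑ t ∈ range (n + 1), k t) => bpos n k t) h x)) ∧
      (∀ t : Fin (∑ t ∈ range (n + 1), k t),
        2 * pos (fun t : Fin (∑ t ∈ range (n + 1), k t) => bpos n k t) h (2 * l) t =
          ((2 * l : ℕ) : ℤ) + 2 * n + 2 * (t : ℕ) + 2) ∧
      (∀ c x, c ≤ 2 * n + 1 → x ≤ 2 * l → Even (c + x) →
        dN (fun t : Fin (∑ t ∈ range (n + 1), k t) => bpos n k t) h c x = T c x) := by
  classical
  set b := (fun t : Fin (∑ t ∈ range (n + 1), k t) => bpos n k t) with hb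
  -- two steps up a column
  have hcol : ∀ c x, c ≤ 2 * n + 1 → Even (c + x) → T c x ≤ T (c + 2) x := by
    intro c x hc hpar
    refine (P1 c x (by omega) hpar).trans (P2 (c + 1) x (by omega) ?_)
    obtain ⟨r, hr⟩ := hpar
    exact ⟨r + 1, by omega⟩
  have hcol2 : ∀ d c x, c + 2 * d ≤ 2 * n + 3 → Even (c + x) → T c x ≤ T (c + 2 * d) x := by
    intro d
    induction d with
    | zero => intro c x _ _; simp
    | succ d ih =>
      intro c x hc hpar
      have h1 := ih c x (by omega) hpar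
      have h2 := hcol (c + 2 * d) x (by omega) (by
        obtain ⟨r, hr⟩ := hpar
        exact ⟨r + d, by omega⟩)
      exact h1.trans h2
  have hTle : ∀ c x, c ≤ 2 * n + 3 → Even (c + x) → T c x ≤ ∑ t ∈ range (n + 1), k t := by
    intro c x hc hpar
    rcases Nat.even_or_odd c with ⟨r, hr⟩ | ⟨r, hr⟩
    · have h1 := hcol2 (n + 1 - r) c x (by omega) hpar
      have e1 : c + 2 * (n + 1 - r) = 2 * n + 2 := by omega
      rw [e1, P3] at h1
      exact h1
    · have h1 := hcol2 (n + 1 - r) c x (by omega) hpar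
      have e1 : c + 2 * (n + 1 - r) = 2 * n + 3 := by omega
      rw [e1, P3'] at h1
      exact h1
  -- the heights
  set S : ℕ → Fin (∑ t ∈ range (n + 1), k t) → Set ℕ :=
    fun x t => {y | y ≤ 2 * n + 3 ∧ Even (y + x) ∧ (t : ℕ) < T y x} with hS
  have hSne : ∀ x t, (S x t).Nonempty := by
    intro x t
    rcases Nat.even_or_odd x with ⟨r, hr⟩ | ⟨r, hr⟩
    · exact ⟨2 * n + 2, by omega, ⟨r + n + 1, by omega⟩, by rw [P3]; exact t.2⟩
    · exact ⟨2 * n + 3, by omega, ⟨r + n + 2, by omega⟩, by rw [P3']; exact t.2⟩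
  set Y : ℕ → Fin (∑ t ∈ range (n + 1), k t) → ℕ := fun x t => sInf (S x t) with hY
  have Y1 : ∀ x (t : Fin (∑ t ∈ range (n + 1), k t)), Y x t ≤ 2 * n + 3 ∧ Even (Y x t + x) ∧ (t : ℕ) < T (Y x t) x :=
    fun x t => Nat.sInf_mem (hSne x t)
  have Ymin : ∀ x (t : Fin (∑ t ∈ range (n + 1), k t)) y, y ≤ 2 * n + 3 → Even (y + x) → (t : ℕ) < T y x → Y x t ≤ y :=
    fun x t y h1 h2 h3 => Nat.sInf_le ⟨h1, h2, h3⟩
  have Y2 : ∀ x (t : Fin (∑ t ∈ range (n + 1), k t)) c, c ≤ 2 * n + 3 → Even (c + x) → (Y x t ≤ c ↔ (t : ℕ) < T c x) := by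
    intro x t c hc hpar
    constructor
    · intro h1
      obtain ⟨_, h2, h3⟩ := Y1 x t
      obtain ⟨r, hr⟩ := hpar
      obtain ⟨s, hs⟩ := h2
      have h4 := hcol2 (r - s) (Y x t) x (by omega) ⟨s, hs⟩
      have e1 : Y x t + 2 * (r - s) = c := by omega
      rw [e1] at h4
      exact lt_of_lt_of_le h3 h4
    · exact Ymin x t c hc hpar
  -- upper bound at top
  have Y2n2 : ∀ x t, Even x → Y x t ≤ 2 * n + 2 := by
    intro x t hx
    obtain ⟨r, hr⟩ := hx
    exact Ymin x t (2 * n + 2) (by omega) ⟨r + n + 1, by omega⟩ (by rw [P3]; exact t.2)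
  have Y5 : ∀ x t, 1 ≤ Y x t := by
    intro x t
    by_contra hcon
    have h0 : Y x t = 0 := by omega
    have := (Y1 x t).2.2
    rw [h0, P0] at this
    omega
  have Y3 : ∀ x t, Y (x + 1) t = Y x t + 1 ∨ Y (x + 1) t + 1 = Y x t := by
    intro x t
    obtain ⟨a1, a2, a3⟩ := Y1 x t
    obtain ⟨b1, b2, b3⟩ := Y1 (x + 1) t
    have h1 : Y (x + 1) t ≤ Y x t + 1 := by
      rcases Nat.lt_or_ge (Y x t) (2 * n + 3) with h | h
      · apply Ymin (x + 1) t (Y x t + 1) (by omega)
        · obtain ⟨r, hr⟩ := a2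
          exact ⟨r + 1, by omega⟩
        · exact lt_of_lt_of_le a3 (P1 _ _ (by omega) a2)
      · omega
    have h2 : Y x t ≤ Y (x + 1) t + 1 := by
      rcases Nat.lt_or_ge (Y (x + 1) t) (2 * n + 3) with h | h
      · apply Ymin x t (Y (x + 1) t + 1) (by omega)
        · obtain ⟨r, hr⟩ := b2
          exact ⟨r, by omega⟩
        · exact lt_of_lt_of_le b3 (P2 _ _ (by omega) b2)
      · omega
    obtain ⟨r, hr⟩ := a2
    obtain ⟨s, hs⟩ := b2
    omega
  have Y6 : ∀ x t t', t ≤ t' → Y x t ≤ Y x t' := by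
    intro x t t' htt'
    obtain ⟨b1, b2, b3⟩ := Y1 x t'
    exact Ymin x t _ b1 b2 (lt_of_le_of_lt (show (t : ℕ) ≤ t' from htt') b3)
  have Y7 : ∀ t, Y (2 * l) t = 2 * n + 2 := by
    intro t
    have h1 := Y2n2 (2 * l) t ⟨l, by ring⟩
    obtain ⟨b1, b2, b3⟩ := Y1 (2 * l) t
    by_contra hcon
    rw [P6 _ (by omega)] at b3
    omega
  have Y4 : ∀ t : Fin (∑ t ∈ range (n + 1), k t), ((Y 0 t : ℕ) : ℤ) = 2 * b t - 2 * (t : ℕ) := by
    intro t
    obtain ⟨b1, b2, b3⟩ := Y1 0 t
    have hct := d_ct_le n k t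
    obtain ⟨r, hr⟩ := b2
    have h5 := Y5 0 t
    have h2n := Y2n2 0 t ⟨0, rfl⟩
    have hr' : Y 0 t = 2 * r := by omega
    -- r - 1 = c_t
    have h1 : r - 1 ≤ ((Finset.Icc 1 n).filter fun j => ∑ i ∈ range j, k i ≤ (t : ℕ)).card := by
      rw [d_ct_ge n k t (r - 1) (by omega)]
      by_contra hcon
      have h2 := (Y2 0 t (2 * (r - 1)) (by omega) ⟨r - 1, by omega⟩).2 (by
        rw [P4 _ (by omega)]; omega)
      omega
    have h2 : ((Finset.Icc 1 n).filter fun j => ∑ i ∈ range j, k i ≤ (t : ℕ)).card ≤ r - 1 := by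
      rcases Nat.lt_or_ge n r with hrn | hrn
      · omega
      · by_contra hcon
        have h3 := (d_ct_ge n k t r hrn).1 (by omega)
        rw [← P4 r hrn, ← hr'] at h3
        omega
    simp only [hb, bpos]
    push_cast
    omega
  -- the family
  set h : ℕ → Fin (∑ t ∈ range (n + 1), k t) → Bool :=
    fun x t => decide (x < 2 * l ∧ Y (x + 1) t = Y x t + 1) with hh
  have hdY : ∀ x, x ≤ 2 * l → ∀ t, dY b h x t = Y x t := by
    intro x
    induction x with
    | zero =>
      intro _ t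
      rw [dY_zero, Y4]
    | succ x ih =>
      intro hx t
      rw [dY_succ, ih (by omega) t]
      simp only [hh, decide_eq_true_eq]
      rcases Y3 x t with h1 | h1
      · rw [if_pos ⟨by omega, h1⟩, h1]; push_cast; ring
      · rw [if_neg (by rintro ⟨_, h2⟩; omega)]; omega
  have hpos : ∀ x, x ≤ 2 * l → ∀ t : Fin (∑ t ∈ range (n + 1), k t),
      2 * pos b h x t = Y x t + x + 2 * (t : ℕ) := by
    intro x hx t
    have := hdY x hx t
    simp only [dY] at this
    linarith
  refine ⟨h, ?_, ?_, ?_, ?_⟩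
  · rw [d_mem_Hist]
    intro x hx
    funext t
    simp only [hh, decide_eq_false_iff_not]
    rintro ⟨h1, _⟩
    omega
  · intro x hx
    refine ⟨?_, ?_, ?_⟩
    · intro t t' htt'
      have h1 := hpos x hx t
      have h2 := hpos x hx t'
      have h3 := Y6 x t t' htt'.le
      have h4 : (t : ℕ) < t' := htt'
      omega
    · intro t
      have h1 := hpos x hx t
      have h2 := Y5 x t
      omega
    · intro t
      have h1 := hpos x hx t
      have h2 := (Y1 x t).1
      omega
  · intro t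
    rw [hpos (2 * l) le_rfl t, Y7]
    push_cast; ring
  · intro c x hc hx hpar
    unfold dN
    have h1 : (Finset.univ.filter fun t : Fin (∑ t ∈ range (n + 1), k t) => dY b h x t ≤ c) =
        Finset.univ.filter fun t : Fin (∑ t ∈ range (n + 1), k t) => (t : ℕ) < T c x := by
      ext t
      simp only [mem_filter, mem_univ, true_and]
      rw [hdY x hx t, ← Y2 x t c (by omega) hpar]
      exact Nat.cast_le
    rw [h1, d_initial_card _ _ (hTle c x (by omega) hpar)]

/-- extended table -/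
def dTT (n : ℕ) (k : ℕ → ℕ) (f : ℕ → ℕ → ℕ) (c x : ℕ) : ℕ :=
  if c ≤ 2 * n + 1 then dT k f c x else ∑ t ∈ range (n + 1), k t

theorem d_arr_bound {n k : ℕ} {b : Fin k → ℕ} {h : ℕ → Fin k → Bool} {L : ℕ}
    (hH : h ∈ Hist k L) (hV : ∀ x ≤ L, Valid n x (pos b h x)) (c x : ℕ)
    (hne : arr n b h c x ≠ 0) :
    1 ≤ c ∧ c ≤ 2 * n + 1 ∧ 1 ≤ x ∧ x < L ∧ Even (c + x) := by
  classical
  unfold arr at hne
  obtain ⟨t, ht⟩ := Finset.card_ne_zero.1 hne
  rw [mem_filter] at ht
  obtain ⟨_, ht1, ht2⟩ := ht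
  obtain ⟨h1, h2, h3, h4⟩ := d_valley_props hH hV ht1
  have h5 := dY_parity b h x t
  rw [ht2] at h5
  exact ⟨by omega, by omega, h1, h2, by exact_mod_cast h5⟩

theorem d_surj (n : ℕ) (k : ℕ → ℕ) (l N : ℕ) (hl : N + 2 * n + 4 ≤ 2 * l) (f : ℕ → ℕ → ℕ)
    (hf : f ∈ SS n k N) :
    ∃ h ∈ Fam n (fun t : Fin (∑ t ∈ range (n + 1), k t) => bpos n k t) (2 * l),
      wt n (fun t : Fin (∑ t ∈ range (n + 1), k t) => bpos n k t) (2 * l) h = N ∧
      arr n (fun t : Fin (∑ t ∈ range (n + 1), k t) => bpos n k t) h = f := by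
  classical
  obtain ⟨hf1, hf2, hf3⟩ := hf
  -- the path sums are at most k
  have hTmax : ∀ x : ℤ, -1 ≤ x → Even (x + ((2 * n + 1 : ℕ) : ℤ)) →
      dT k f (2 * n + 1) x ≤ ∑ t ∈ range (n + 1), k t := by
    intro x hx hpar
    obtain ⟨p, hp0, hp1, hp2, hp3⟩ := dT_path k f (2 * n + 1) (by omega) x hx hpar
    rw [hp3]
    refine hf3 p hp1 ?_
    intro c hc
    rw [mem_Icc] at hc
    exact hp2 c hc.1 (by omega)
  have hfz : ∀ c i, N < i → f c i = 0 := by
    intro c i hi
    by_contra hcon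
    have := (hf1 c i hcon).2.2.2.1
    omega
  have hTT0 : ∀ c x, c ≤ 2 * n + 1 → dTT n k f c x = dT k f c x := fun c x hc => if_pos hc
  have hTT1 : ∀ c x, 2 * n + 1 < c → dTT n k f c x = ∑ t ∈ range (n + 1), k t :=
    fun c x hc => if_neg (not_le.2 hc)
  obtain ⟨h, hH, hV, hT, hN⟩ := d_surj_aux n k l (dTT n k f)
    (by intro x; rw [hTT0 0 x (by omega)]; rfl)
    (by
      intro c x hc hpar
      rcases Nat.lt_or_ge c (2 * n + 1) with h1 | h1
      · rw [hTT0 c x (by omega), hTT0 (c + 1) (x + 1) (by omega)]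
        have := dT_le_right k f c x (by omega)
        push_cast
        exact this
      · rcases eq_or_lt_of_le h1 with h2 | h2
        · rw [hTT0 c x (by omega), hTT1 (c + 1) (x + 1) (by omega), ← h2]
          apply hTmax x (by omega)
          obtain ⟨r, hr⟩ := hpar
          exact ⟨r, by omega⟩
        · rw [hTT1 c x (by omega), hTT1 (c + 1) (x + 1) (by omega)])
    (by
      intro c x hc hpar
      rcases Nat.lt_or_ge c (2 * n + 1) with h1 | h1
      · rw [hTT0 c (x + 1) (by omega), hTT0 (c + 1) x (by omega)]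
        have := dT_le_left k f c x (by omega)
        push_cast
        exact this
      · rcases eq_or_lt_of_le h1 with h2 | h2
        · rw [hTT0 c (x + 1) (by omega), hTT1 (c + 1) x (by omega), ← h2]
          apply hTmax _ (by omega)
          obtain ⟨r, hr⟩ := hpar
          exact ⟨r, by omega⟩
        · rw [hTT1 c (x + 1) (by omega), hTT1 (c + 1) x (by omega)])
    (fun x => hTT1 _ _ (by omega)) (fun x => hTT1 _ _ (by omega))
    (by
      intro j hj
      rw [hTT0 (2 * j) 0 (by omega)]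
      have e0 : ((0 : ℕ) : ℤ) = 0 := rfl
      rw [e0]
      have h1 := dT_boundary k f 0 j
      have h2 := dT_boundary k f j (n - j)
      have h3 := (dT_step k f n).1
      have h4 := hTmax (-1) le_rfl ⟨n, by push_cast; ring⟩
      have e1 : j + (n - j) = n := by omega
      rw [e1] at h2
      rw [Finset.sum_range_succ] at h4
      simp only [Nat.zero_add, Finset.sum_range_zero, Nat.add_zero, Nat.mul_zero] at h1
      omega)
    (by
      intro c hc
      rw [hTT0 c _ hc]
      apply dT_zero k f N hfz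
      omega)
  have harr : arr n (fun t : Fin (∑ t ∈ range (n + 1), k t) => bpos n k t) h = f := by
    funext c x
    by_cases hcase : 1 ≤ c ∧ c ≤ 2 * n + 1 ∧ 1 ≤ x ∧ x < 2 * l ∧ Even (c + x)
    · obtain ⟨h1, h2, h3, h4, h5⟩ := hcase
      obtain ⟨c', rfl⟩ : ∃ c', c = c' + 1 := ⟨c - 1, by omega⟩
      obtain ⟨y, rfl⟩ : ∃ y, x = y + 1 := ⟨x - 1, by omega⟩
      have hpar : Even (c' + y) := by
        obtain ⟨r, hr⟩ := h5
        exact ⟨r - 1, by omega⟩
      have hpar' : Even (c' + (y + 2)) := by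
        obtain ⟨r, hr⟩ := h5
        exact ⟨r, by omega⟩
      have hrec := dN_rec (b := fun t : Fin (∑ t ∈ range (n + 1), k t) => bpos n k t)
        (h := h) (L := 2 * l) (x := y) (c := c') hV (by omega) h2 hpar
      rw [hN (c' + 1) (y + 1) h2 (by omega) h5, hN c' y (by omega) (by omega) hpar,
        hN c' (y + 2) (by omega) (by omega) hpar', hTT0 _ _ h2, hTT0 _ _ (by omega),
        hTT0 _ _ (by omega), dT, if_neg (by omega)] at hrec
      have e1 : (((y + 1 : ℕ) : ℤ) - 1) = (y : ℤ) := by push_cast; ring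
      have e2 : (((y + 1 : ℕ) : ℤ) + 1) = ((y + 2 : ℕ) : ℤ) := by push_cast; ring
      rw [e1, e2] at hrec
      have e3 : dF k f (c' + 1) ((y + 1 : ℕ) : ℤ) = f (c' + 1) (y + 1) := by
        unfold dF
        rw [if_neg (by omega)]
        rfl
      rw [e3] at hrec
      omega
    · have h1 : arr n (fun t : Fin (∑ t ∈ range (n + 1), k t) => bpos n k t) h c x = 0 := by
        by_contra hcon
        exact hcase (d_arr_bound hH hV c x hcon)
      have h2 : f c x = 0 := by
        by_contra hcon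
        obtain ⟨g1, g2, g3, g4, g5⟩ := hf1 c x hcon
        exact hcase ⟨g1, g2, g3, by omega, g5⟩
      rw [h1, h2]
  refine ⟨h, ?_, ?_, harr⟩
  · rw [Fam, mem_filter]
    exact ⟨hH, hV, hT⟩
  · rw [d_wt_eq hH hV N, harr, hf2]
    intro c x hne _ _
    rw [harr] at hne
    exact (hf1 c x hne).2.2.2.1

theorem d_image (n : ℕ) (k : ℕ → ℕ) (l N : ℕ) (hl : N + 2 * n + 4 ≤ 2 * l) :
    (arr n (fun t : Fin (∑ t ∈ range (n + 1), k t) => bpos n k t)) ''
      (((Fam n (fun t : Fin (∑ t ∈ range (n + 1), k t) => bpos n k t) (2 * l)).filter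
      (fun h => wt n (fun t : Fin (∑ t ∈ range (n + 1), k t) => bpos n k t) (2 * l) h = N) :
        Finset _) : Set _) = SS n k N := by
  ext f
  constructor
  · rintro ⟨h, hh, rfl⟩
    rw [Finset.mem_coe, mem_filter] at hh
    exact d_arr_mem n k l N h hh.1 hh.2
  · intro hf
    obtain ⟨h, h1, h2, h3⟩ := d_surj n k l N hl f hf
    exact ⟨h, by rw [Finset.mem_coe, mem_filter]; exact ⟨h1, h2⟩, h3⟩

theorem d_finite (n : ℕ) (k : ℕ → ℕ) (N : ℕ) : (SS n k N).Finite := by
  rw [← d_image n k (N + n + 2) N (by omega)]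
  exact (Finset.finite_toSet _).image _

theorem d_injOn (n : ℕ) (k : ℕ → ℕ) (l N : ℕ) :
    Set.InjOn (arr n (fun t : Fin (∑ t ∈ range (n + 1), k t) => bpos n k t))
      (((Fam n (fun t : Fin (∑ t ∈ range (n + 1), k t) => bpos n k t) (2 * l)).filter
      (fun h => wt n (fun t : Fin (∑ t ∈ range (n + 1), k t) => bpos n k t) (2 * l) h = N) :
        Finset _) : Set _) := by
  intro h hh h' hh' heq
  rw [Finset.mem_coe, mem_filter] at hh hh'
  exact d_inj hh.1 hh'.1 heq

theorem D_le (n : ℕ) (k : ℕ → ℕ) (l N : ℕ) :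
    ((Fam n (fun t : Fin (∑ t ∈ range (n + 1), k t) => bpos n k t) (2 * l)).filter
      (fun h => wt n (fun t : Fin (∑ t ∈ range (n + 1), k t) => bpos n k t) (2 * l) h = N)).card
      ≤ (SS n k N).ncard := by
  rw [← Set.ncard_coe_finset, ← (d_injOn n k l N).ncard_image]
  refine Set.ncard_le_ncard ?_ (d_finite n k N)
  rintro f ⟨h, hh, rfl⟩
  rw [Finset.mem_coe, mem_filter] at hh
  exact d_arr_mem n k l N h hh.1 hh.2

theorem D_eq (n : ℕ) (k : ℕ → ℕ) (N : ℕ) : ∃ l0, ∀ l, l0 ≤ l →
    ((Fam n (fun t : Fin (∑ t ∈ range (n + 1), k t) => bpos n k t) (2 * l)).filter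
      (fun h => wt n (fun t : Fin (∑ t ∈ range (n + 1), k t) => bpos n k t) (2 * l) h = N)).card
      = (SS n k N).ncard := by
  refine ⟨N + n + 2, fun l hl => ?_⟩
  rw [← Set.ncard_coe_finset, ← (d_injOn n k l N).ncard_image, d_image n k l N (by omega)]

end Pool.Agent.H680_CP
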