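import Pool.Agent.H680_CP.Defs

/-!
# Functions with quasi-periodic Laurent coefficients (used for task T2)
-/

set_option autoImplicit false

namespace Pool.Agent.H680_CP.T2N

open Finset

/-- `f y = ∑ a_n y^n` for all `y > 0`, with `a_(n+d) = c p^n a_n`. -/
def Th (p : ℝ) (d : ℤ) (c : ℝ) (f : ℝ → ℝ) : Prop :=
  ∃ a : ℤ → ℝ, (∀ y : ℝ, 0 < y → HasSum (fun n : ℤ => a n * y ^ n) (f y)) ∧
    ∀ n : ℤ, a (n + d) = c * p ^ n * a n

theorem Th.congr {p : ℝ} {d : ℤ} {c : ℝ} {f g : ℝ → ℝ} (hf : Th p d c f)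
    (h : ∀ y : ℝ, 0 < y → g y = f y) : Th p d c g := by
  obtain ⟨a, ha, ha'⟩ := hf
  exact ⟨a, fun y hy => by rw [h y hy]; exact ha y hy, ha'⟩

theorem Th.mul {p : ℝ} (hp : 0 < p) {d e : ℤ} {c c' : ℝ} {f g : ℝ → ℝ} (hf : Th p d c f)
    (hg : Th p e c' g) : Th p (d + e) (c * c') (fun y => f y * g y) := by
  obtain ⟨a, ha, ha'⟩ := hf
  obtain ⟨b, hb, hb'⟩ := hg
  have hprod : ∀ y : ℝ, 0 < y →
      HasSum (fun x : ℤ × ℤ => (a x.2 * b (x.1 - x.2)) * y ^ x.1) (f y * g y) := by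
    intro y hy
    have h1 : Summable fun x : ℤ × ℤ => (a x.1 * y ^ x.1) * (b x.2 * y ^ x.2) :=
      summable_mul_of_summable_norm (ha y hy).summable.norm (hb y hy).summable.norm
    have h2 := (ha y hy).mul (hb y hy) h1
    let e : ℤ × ℤ ≃ ℤ × ℤ :=
      { toFun := fun x => (x.2, x.1 - x.2)
        invFun := fun x => (x.1 + x.2, x.1)
        left_inv := fun x => by ext <;> simp
        right_inv := fun x => by ext <;> simp }
    have h3 := e.hasSum_iff.mpr h2
    refine HasSum.congr_fun h3 ?_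
    intro x
    have hx : y ^ x.1 = y ^ x.2 * y ^ (x.1 - x.2) := by
      rw [← zpow_add₀ hy.ne']; congr 1; ring
    simp only [Function.comp, e, Equiv.coe_fn_mk, hx]
    ring
  have hsum : ∀ n : ℤ, Summable fun m : ℤ => a m * b (n - m) := by
    intro n
    have := (hprod 1 one_pos).summable.prod_factor n
    simpa using this
  refine ⟨fun n => ∑' m : ℤ, a m * b (n - m), ?_, ?_⟩
  · intro y hy
    refine (hprod y hy).prod_fiberwise ?_
    intro n
    exact (hsum n).hasSum.mul_right (y ^ n)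
  · intro n
    show ∑' m : ℤ, a m * b (n + (d + e) - m) = c * c' * p ^ n * ∑' m : ℤ, a m * b (n - m)
    rw [← (Equiv.addRight d).tsum_eq, ← tsum_mul_left]
    congr 1
    ext m
    have h1 : n + (d + e) - (Equiv.addRight d) m = (n - m) + e := by
      simp; ring
    rw [h1, hb']
    have h2 : a ((Equiv.addRight d) m) = c * p ^ m * a m := ha' m
    rw [h2]
    have h3 : p ^ n = p ^ m * p ^ (n - m) := by
      rw [← zpow_add₀ hp.ne']; congr 1; ring
    rw [h3]
    ring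

theorem Th.const (p C : ℝ) : Th p 0 1 (fun _ => C) := by
  refine ⟨fun n => if n = 0 then C else 0, ?_, ?_⟩
  · intro y hy
    have := hasSum_single (f := fun n : ℤ => (if n = 0 then C else 0) * y ^ n) (0 : ℤ) (by
      intro n hn
      simp [hn])
    simpa using this
  · intro n
    by_cases hn : n = 0
    · simp [hn]
    · simp [hn]

theorem Th.const_mul {p : ℝ} {d : ℤ} {c : ℝ} {f : ℝ → ℝ} (hf : Th p d c f) (C : ℝ) :
    Th p d c (fun y => C * f y) := by
  obtain ⟨a, ha, ha'⟩ := hf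
  refine ⟨fun n => C * a n, ?_, ?_⟩
  · intro y hy
    refine HasSum.congr_fun ((ha y hy).mul_left C) ?_
    intro n; ring
  · intro n
    show C * a (n + d) = c * p ^ n * (C * a n)
    rw [ha' n]; ring

/-- Multiplication by `y⁻¹`. -/
theorem Th.inv_mul {p : ℝ} (hp : 0 < p) {d : ℤ} {c : ℝ} {f : ℝ → ℝ} (hf : Th p d c f) :
    Th p d (c * p) (fun y => y⁻¹ * f y) := by
  obtain ⟨a, ha, ha'⟩ := hf
  refine ⟨fun n => a (n + 1), ?_, ?_⟩
  · intro y hy
    have h := (Equiv.addRight (1 : ℤ)).hasSum_iff.mpr ((ha y hy).mul_left y⁻¹)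
    refine HasSum.congr_fun h ?_
    intro n
    show a (n + 1) * y ^ n = y⁻¹ * (a (n + 1) * y ^ (n + 1))
    rw [zpow_add_one₀ hy.ne']
    field_simp
  · intro n
    show a (n + d + 1) = c * p * p ^ n * a (n + 1)
    have h := ha' (n + 1)
    rw [show n + d + 1 = n + 1 + d by ring, h, zpow_add_one₀ hp.ne']
    ring

theorem Th.prod {p : ℝ} (hp : 0 < p) {ι : Type*} (s : Finset ι) (d : ι → ℤ) (c : ι → ℝ)
    (f : ι → ℝ → ℝ) (h : ∀ i ∈ s, Th p (d i) (c i) (f i)) :
    Th p (∑ i ∈ s, d i) (∏ i ∈ s, c i) (fun y => ∏ i ∈ s, f i y) := by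
  classical
  induction s using Finset.induction_on with
  | empty => simpa using Th.const p 1
  | insert i s hi ih =>
    have h1 := ih (fun j hj => h j (mem_insert_of_mem hj))
    have h2 := h i (mem_insert_self i s)
    simp only [sum_insert hi, prod_insert hi]
    exact h2.mul hp h1

/-- Reflection. -/
theorem Th.antisymm {p : ℝ} (hp : 0 < p) {K : ℤ} {f : ℝ → ℝ} (hf : Th p (2 * K) (p ^ K) f)
    (hinv : ∀ y : ℝ, 0 < y → f y⁻¹ = - f y) :
    ∃ b : ℤ → ℝ, (∀ y : ℝ, 0 < y → HasSum (fun n : ℤ => b n * y ^ n) (f y)) ∧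
      (∀ n : ℤ, b (n + 2 * K) = p ^ (n + K) * b n) ∧ ∀ n : ℤ, b (-n) = - b n := by
  obtain ⟨a, ha, ha'⟩ := hf
  refine ⟨fun n => (a n - a (-n)) / 2, ?_, ?_, ?_⟩
  · intro y hy
    have h1 := ha y hy
    have h2 := (Equiv.neg ℤ).hasSum_iff.mpr (ha y⁻¹ (inv_pos.mpr hy))
    have h3 := (h1.sub h2).div_const 2
    rw [hinv y hy] at h3
    have h4 : (f y - - f y) / 2 = f y := by ring
    rw [h4] at h3
    refine HasSum.congr_fun h3 ?_
    intro n
    simp only [Function.comp, Equiv.neg_apply, inv_zpow', neg_neg]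
    ring
  · intro n
    show (a (n + 2 * K) - a (-(n + 2 * K))) / 2 = p ^ (n + K) * ((a n - a (-n)) / 2)
    have h1 := ha' n
    have h2 := ha' (-n - 2 * K)
    rw [show -n - 2 * K + 2 * K = -n by ring] at h2
    rw [h1, h2, show -(n + 2 * K) = -n - 2 * K by ring]
    have h3 : p ^ (n + K) = p ^ K * p ^ n := by
      rw [← zpow_add₀ hp.ne']; congr 1; ring
    have h4 : p ^ (n + K) * (p ^ K * p ^ (-n - 2 * K)) = 1 := by
      rw [← zpow_add₀ hp.ne', ← zpow_add₀ hp.ne',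
        show n + K + (K + (-n - 2 * K)) = 0 by ring, zpow_zero]
    calc (p ^ K * p ^ n * a n - a (-n - 2 * K)) / 2
        = (p ^ (n + K) * a n - p ^ (n + K) * (p ^ K * p ^ (-n - 2 * K)) * a (-n - 2 * K)) / 2 := by
          rw [h4, h3]; ring
      _ = p ^ (n + K) * ((a n - p ^ K * p ^ (-n - 2 * K) * a (-n - 2 * K)) / 2) := by ring
  · intro n
    show (a (-n) - a (- -n)) / 2 = -((a n - a (-n)) / 2)
    rw [neg_neg]; ring

end Pool.Agent.H680_CP.T2N
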