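import Pool.Agent.H680_CP.T_T2A

/-!
# Expansion of antisymmetric quasi-periodic Laurent series in the functions `phi`
-/

set_option autoImplicit false

namespace Pool.Agent.H680_CP.T2N

open Finset

/-- Membership in the span of `phi_1, …, phi_k` (on positive reals). -/
def InV (k : ℕ) (p : ℝ) (f : ℝ → ℝ) : Prop :=
  ∃ β : Fin k → ℝ, ∀ y : ℝ, 0 < y → f y = ∑ t : Fin k, β t * phi (k + 1) p (((t : ℕ) : ℤ) + 1) y

theorem qp_coeff {p : ℝ} (hp : 0 < p) {K : ℤ} {b : ℤ → ℝ}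
    (hb : ∀ n : ℤ, b (n + 2 * K) = p ^ (n + K) * b n) (r s : ℤ) :
    b (2 * K * s - r) = p ^ (K * s ^ 2 - r * s) * b (-r) := by
  induction s using Int.induction_on with
  | zero => simp
  | succ i ih =>
    have h := hb (2 * K * i - r)
    rw [show 2 * K * ((i : ℤ) + 1) - r = 2 * K * i - r + 2 * K by ring, h, ih, ← mul_assoc,
      ← zpow_add₀ hp.ne']
    congr 2; ring
  | pred i ih =>
    have h := hb (2 * K * (-(i : ℤ) - 1) - r)
    rw [show 2 * K * (-(i : ℤ) - 1) - r + 2 * K = 2 * K * (-(i : ℤ)) - r by ring, ih] at h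
    have h2 : p ^ (2 * K * (-(i : ℤ) - 1) - r + K) ≠ 0 := zpow_ne_zero _ hp.ne'
    have h3 : b (2 * K * (-(i : ℤ) - 1) - r) =
        (p ^ (2 * K * (-(i : ℤ) - 1) - r + K))⁻¹ * (p ^ (K * (-(i : ℤ)) ^ 2 - r * (-(i : ℤ))) * b (-r)) := by
      rw [h]; field_simp
    rw [h3, ← mul_assoc, ← zpow_neg, ← zpow_add₀ hp.ne']
    congr 2; ring

/-- half of `phi` -/
noncomputable def psi (K : ℤ) (p : ℝ) (r : ℤ) (y : ℝ) : ℝ :=
  ∑' s : ℤ, p ^ (K * s ^ 2 - r * s) * y ^ (2 * K * s - r)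

theorem phi_eq_psi {K : ℕ} {p : ℝ} {t : ℤ} {y : ℝ}
    (h1 : Summable fun s : ℤ => p ^ ((K : ℤ) * s ^ 2 - t * s) * y ^ (2 * (K : ℤ) * s - t))
    (h2 : Summable fun s : ℤ => p ^ ((K : ℤ) * s ^ 2 - (-t) * s) * y ^ (2 * (K : ℤ) * s - (-t))) :
    phi K p t y = psi K p t y - psi K p (-t) y := by
  have h3 := (Equiv.neg ℤ).summable_iff.mpr h2
  have h4 : psi K p (-t) y = ∑' s : ℤ, p ^ ((K : ℤ) * s ^ 2 - t * s) * y ^ (t - 2 * (K : ℤ) * s) := by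
    rw [psi, ← (Equiv.neg ℤ).tsum_eq]
    congr 1
    ext s
    simp only [Equiv.neg_apply]
    congr 2 <;> ring
  have h5 : Summable fun s : ℤ => p ^ ((K : ℤ) * s ^ 2 - t * s) * y ^ (t - 2 * (K : ℤ) * s) := by
    refine h3.congr ?_
    intro s
    simp only [Function.comp, Equiv.neg_apply]
    congr 2 <;> ring
  rw [h4, psi, ← h1.tsum_sub h5, phi]
  congr 1
  ext s
  ring

theorem inV_of_coeff {k : ℕ} {p : ℝ} (hp : 0 < p) {f : ℝ → ℝ} {b : ℤ → ℝ}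
    (hf : ∀ y : ℝ, 0 < y → HasSum (fun n : ℤ => b n * y ^ n) (f y))
    (hb : ∀ n : ℤ, b (n + 2 * ((k + 1 : ℕ) : ℤ)) = p ^ (n + ((k + 1 : ℕ) : ℤ)) * b n)
    (hneg : ∀ n : ℤ, b (-n) = - b n) : InV k p f := by
  refine ⟨fun t => b (-(((t : ℕ) : ℤ) + 1)), ?_⟩
  intro y hy
  have hq := qp_coeff hp hb
  -- reindex
  let e : Fin (2 * (k + 1)) × ℤ ≃ ℤ :=
    (Equiv.prodComm _ _).trans ((Int.divModEquiv (2 * (k + 1))).symm.trans (Equiv.subLeft (k : ℤ)))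
  have he : ∀ (i : Fin (2 * (k + 1))) (s : ℤ),
      e (i, s) = 2 * ((k + 1 : ℕ) : ℤ) * (-s) - (((i : ℕ) : ℤ) - k) := by
    intro i s
    show (k : ℤ) - (s * ((2 * (k + 1) : ℕ) : ℤ) + ((i : ℕ) : ℤ)) = _
    push_cast; ring
  have h1 := e.hasSum_iff.mpr (hf y hy)
  have h1' : ∀ i : Fin (2 * (k + 1)), ∀ s : ℤ,
      ((fun n : ℤ => b n * y ^ n) ∘ e) (i, s) =
        b (-(((i : ℕ) : ℤ) - k)) * (p ^ (((k + 1 : ℕ) : ℤ) * (-s) ^ 2 - (((i : ℕ) : ℤ) - k) * (-s)) *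
          y ^ (2 * ((k + 1 : ℕ) : ℤ) * (-s) - (((i : ℕ) : ℤ) - k))) := by
    intro i s
    simp only [Function.comp, he, hq]
    ring
  have hfib : ∀ i : Fin (2 * (k + 1)),
      HasSum (fun s : ℤ => ((fun n : ℤ => b n * y ^ n) ∘ e) (i, s))
        (b (-(((i : ℕ) : ℤ) - k)) * psi ((k + 1 : ℕ) : ℤ) p (((i : ℕ) : ℤ) - k) y) := by
    intro i
    have h2 : Summable fun s : ℤ => ((fun n : ℤ => b n * y ^ n) ∘ e) (i, s) :=
      h1.summable.prod_factor i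
    have h3 : ∑' s : ℤ, ((fun n : ℤ => b n * y ^ n) ∘ e) (i, s) =
        b (-(((i : ℕ) : ℤ) - k)) * psi ((k + 1 : ℕ) : ℤ) p (((i : ℕ) : ℤ) - k) y := by
      rw [psi, ← (Equiv.neg ℤ).tsum_eq (fun s : ℤ => ((fun n : ℤ => b n * y ^ n) ∘ e) (i, s)),
        ← tsum_mul_left]
      congr 1
      ext s
      rw [h1']
      simp only [Equiv.neg_apply, neg_neg]
    rw [← h3]
    exact h2.hasSum
  have h4 := h1.prod_fiberwise hfib
  have h5 : f y = ∑ i : Fin (2 * (k + 1)),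
      b (-(((i : ℕ) : ℤ) - k)) * psi ((k + 1 : ℕ) : ℤ) p (((i : ℕ) : ℤ) - k) y :=
    h4.unique (hasSum_fintype _)
  -- summability of the pieces
  have hsum : ∀ r : ℤ, -k ≤ r → r ≤ k + 1 → b (-r) ≠ 0 →
      Summable fun s : ℤ => p ^ (((k + 1 : ℕ) : ℤ) * s ^ 2 - r * s) *
        y ^ (2 * ((k + 1 : ℕ) : ℤ) * s - r) := by
    intro r hr1 hr2 hbr
    obtain ⟨i, hi⟩ : ∃ i : Fin (2 * (k + 1)), ((i : ℕ) : ℤ) - k = r := by
      refine ⟨⟨(r + k).toNat, ?_⟩, ?_⟩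
      · omega
      · simp only; omega
    have h6 := (hfib i).summable
    have h7 := (Equiv.neg ℤ).summable_iff.mpr h6
    have h8 : Summable fun s : ℤ => b (-r) * (p ^ (((k + 1 : ℕ) : ℤ) * s ^ 2 - r * s) *
        y ^ (2 * ((k + 1 : ℕ) : ℤ) * s - r)) := by
      refine h7.congr ?_
      intro s
      show ((fun n : ℤ => b n * y ^ n) ∘ e) (i, -s) = _
      rw [h1', hi, neg_neg]
    exact (summable_mul_left_iff hbr).mp h8
  rw [h5, Fin.sum_univ_eq_sum_range (fun i : ℕ => b (-((i : ℤ) - k)) *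
    psi ((k + 1 : ℕ) : ℤ) p ((i : ℤ) - k) y) (2 * (k + 1))]
  rw [show 2 * (k + 1) = (k + 1 + k) + 1 by ring, Finset.sum_range_succ, Finset.sum_range_add,
    Finset.sum_range_succ]
  have hb0 : b 0 = 0 := by
    have := hneg 0
    rw [neg_zero] at this
    linarith
  have hbK : b (-((k + 1 : ℕ) : ℤ)) = 0 := by
    have h6 := hb (-((k + 1 : ℕ) : ℤ))
    rw [show -((k + 1 : ℕ) : ℤ) + 2 * ((k + 1 : ℕ) : ℤ) = ((k + 1 : ℕ) : ℤ) by ring,
      neg_add_cancel, zpow_zero, one_mul] at h6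
    have h7 := hneg ((k + 1 : ℕ) : ℤ)
    rw [h6] at h7
    linarith
  have e1 : b (-((((k + 1 + k : ℕ)) : ℤ) - k)) = 0 := by
    rw [← hbK]; congr 1; push_cast; ring
  have e2 : b (-(((k : ℕ) : ℤ) - k)) = 0 := by
    rw [← hb0]; congr 1; ring
  rw [e1, e2, zero_mul, zero_mul, add_zero, add_zero, ← Finset.sum_range_reflect, ← sum_add_distrib,
    Fin.sum_univ_eq_sum_range (fun t : ℕ => b (-((t : ℤ) + 1)) * phi (k + 1) p ((t : ℤ) + 1) y) k]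
  apply Finset.sum_congr rfl
  intro t ht
  have htk : t < k := Finset.mem_range.mp ht
  have e3 : (((k - 1 - t : ℕ)) : ℤ) - k = -((t : ℤ) + 1) := by omega
  have e4 : (((k + 1 + t : ℕ)) : ℤ) - k = (t : ℤ) + 1 := by push_cast; ring
  rw [e3, e4, neg_neg]
  by_cases hbt : b (-((t : ℤ) + 1)) = 0
  · have hbt' : b ((t : ℤ) + 1) = 0 := by
      have := hneg ((t : ℤ) + 1)
      rw [hbt] at this
      linarith
    rw [hbt, hbt']; ring
  · have hbt' : b ((t : ℤ) + 1) = - b (-((t : ℤ) + 1)) := by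
      rw [hneg]; ring
    have hs1 := hsum ((t : ℤ) + 1) (by omega) (by omega) hbt
    have hs2 := hsum (-((t : ℤ) + 1)) (by omega) (by omega) (by
      rw [neg_neg, hbt']; exact neg_ne_zero.mpr hbt)
    rw [phi_eq_psi hs1 hs2, hbt']
    ring

end Pool.Agent.H680_CP.T2N
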