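import Pool.Agent.H680_CP.T_T2B

/-!
# Facts on `th` and the theta determinant identity, given the Jacobi triple product
-/

set_option autoImplicit false

namespace Pool.Agent.H680_CP.T2N

open Finset

theorem summable_geom_mul {p : ℝ} (hp0 : 0 < p) (hp1 : p < 1) (x : ℝ) :
    Summable fun j : ℕ => x * p ^ j :=
  (summable_geometric_of_lt_one hp0.le hp1).mul_left x

theorem mult_th {p : ℝ} (hp0 : 0 < p) (hp1 : p < 1) (x : ℝ) :
    Multipliable fun j : ℕ => 1 - x * p ^ j := by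
  have h := Real.multipliable_one_add_of_summable (summable_geom_mul hp0 hp1 x).neg
  refine h.congr ?_
  intro j
  ring

theorem E_pos {p : ℝ} (hp0 : 0 < p) (hp1 : p < 1) : 0 < E p 1 1 := by
  have h1 : Summable fun j : ℕ => -(p * p ^ j) := (summable_geom_mul hp0 hp1 p).neg
  have h2 := Real.summable_log_one_add_of_summable h1
  have h3 : ∀ j : ℕ, 0 < 1 + -(p * p ^ j) := by
    intro j
    have : p * p ^ j < 1 := by
      rw [← pow_succ']
      exact pow_lt_one₀ hp0.le hp1 (Nat.succ_ne_zero j)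
    linarith
  have h4 := Real.rexp_tsum_eq_tprod h3 h2
  have h5 : E p 1 1 = ∏' j : ℕ, (1 + -(p * p ^ j)) := by
    unfold E
    congr 1
    ext j
    rw [pow_add]; ring
  rw [h5, ← h4]
  exact Real.exp_pos _

theorem th_inv {p : ℝ} (hp0 : 0 < p) (hp1 : p < 1) {x : ℝ} (hx : x ≠ 0) :
    th p x⁻¹ = - x⁻¹ * th p x := by
  have key : ∀ y : ℝ, ∏' j : ℕ, (1 - y * p ^ j) = (1 - y) * ∏' j : ℕ, (1 - y * p ^ (j + 1)) := by
    intro y
    have h := mult_th hp0 hp1 (y * p)
    have h' : Multipliable fun j : ℕ => 1 - y * p ^ (j + 1) := by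
      refine h.congr ?_
      intro j
      rw [pow_succ']; ring
    have := tprod_eq_zero_mul' (f := fun j : ℕ => 1 - y * p ^ j) h'
    simpa using this
  unfold th
  rw [key x⁻¹, key x]
  have e1 : ∏' j : ℕ, (1 - p ^ (j + 1) / x⁻¹) = ∏' j : ℕ, (1 - x * p ^ (j + 1)) := by
    congr 1; ext j; rw [div_inv_eq_mul, mul_comm]
  have e2 : ∏' j : ℕ, (1 - p ^ (j + 1) / x) = ∏' j : ℕ, (1 - x⁻¹ * p ^ (j + 1)) := by
    congr 1; ext j; rw [div_eq_inv_mul]
  rw [e1, e2]
  field_simp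
  ring

theorem th_one {p : ℝ} (hp0 : 0 < p) (hp1 : p < 1) : th p 1 = 0 := by
  have h := th_inv hp0 hp1 (x := 1) one_ne_zero
  rw [inv_one] at h
  linarith

/-- The Jacobi triple product as a hypothesis. -/
def JTP (p : ℝ) : Prop := ∀ x : ℝ, 0 < x →
  HasSum (fun r : ℤ => (-1 : ℝ) ^ r * p ^ (r * (r - 1) / 2) * x ^ r) (E p 1 1 * th p x)

theorem tri_succ (n : ℤ) : (n + 1) * (n + 1 - 1) / 2 = n * (n - 1) / 2 + n := by
  have h : (n + 1) * (n + 1 - 1) = n * (n - 1) + n * 2 := by ring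
  rw [h, Int.add_mul_ediv_right _ _ (by norm_num)]

theorem alpha_succ {p : ℝ} (hp0 : 0 < p) (n : ℤ) :
    (-1 : ℝ) ^ (n + 1) * p ^ ((n + 1) * (n + 1 - 1) / 2) =
      - p ^ n * ((-1 : ℝ) ^ n * p ^ (n * (n - 1) / 2)) := by
  rw [tri_succ, zpow_add₀ hp0.ne', zpow_add_one₀ (by norm_num)]
  ring

theorem Th_mul_right {p : ℝ} (hp0 : 0 < p) (H : JTP p) {x : ℝ} (hx : 0 < x) :
    Th p 1 (-x) (fun y => E p 1 1 * th p (x * y)) := by
  refine ⟨fun n => (-1 : ℝ) ^ n * p ^ (n * (n - 1) / 2) * x ^ n, ?_, ?_⟩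
  · intro y hy
    refine HasSum.congr_fun (H (x * y) (mul_pos hx hy)) ?_
    intro n
    rw [mul_zpow]; ring
  · intro n
    show (-1 : ℝ) ^ (n + 1) * p ^ ((n + 1) * (n + 1 - 1) / 2) * x ^ (n + 1) =
      -x * p ^ n * ((-1 : ℝ) ^ n * p ^ (n * (n - 1) / 2) * x ^ n)
    rw [alpha_succ hp0, zpow_add_one₀ hx.ne']
    ring

/-- `E θ(x/y)` -/
theorem Th_div {p : ℝ} (hp0 : 0 < p) (hp1 : p < 1) (H : JTP p) {x : ℝ} (hx : 0 < x) :
    Th p 1 (-x⁻¹ * p) (fun y => E p 1 1 * th p (x / y)) := by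
  have h := ((Th_mul_right hp0 H (inv_pos.mpr hx)).inv_mul hp0).const_mul (-x)
  refine h.congr ?_
  intro y hy
  have h2 := th_inv hp0 hp1 (x := x⁻¹ * y) (by positivity)
  have h3 : x / y = (x⁻¹ * y)⁻¹ := by field_simp
  rw [h3, h2]
  field_simp

theorem Th_sq {p : ℝ} (hp0 : 0 < p) (H : JTP p) :
    Th p 4 (p * p) (fun y => y⁻¹ * (E p 1 1 * th p (y ^ 2))) := by
  apply Th.inv_mul hp0
  refine ⟨Function.extend (fun r : ℤ => 2 * r) (fun r => (-1 : ℝ) ^ r * p ^ (r * (r - 1) / 2)) 0,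
    ?_, ?_⟩
  · intro y hy
    have hinj : Function.Injective (fun r : ℤ => 2 * r) := fun a b h => by
      simpa using h
    rw [← Function.Injective.hasSum_iff hinj]
    · refine HasSum.congr_fun (H (y ^ 2) (by positivity)) ?_
      intro n
      simp only [Function.comp, hinj.extend_apply]
      congr 1
      rw [← zpow_natCast, ← zpow_mul]; rfl
    · intro n hn
      have hn' : ¬ ∃ a : ℤ, (fun r : ℤ => 2 * r) a = n := hn
      rw [Function.extend_apply' _ _ _ hn']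
      simp
  · intro n
    have hinj : Function.Injective (fun r : ℤ => 2 * r) := fun a b h => by
      simpa using h
    rcases Int.even_or_odd' n with ⟨r, hr | hr⟩
    · have e1 : n + 4 = (fun r : ℤ => 2 * r) (r + 1 + 1) := by simp [hr]; ring
      have e2 : n = (fun r : ℤ => 2 * r) r := by simp [hr]
      rw [e1]
      conv_rhs => rw [e2]
      rw [hinj.extend_apply, hinj.extend_apply, alpha_succ hp0, alpha_succ hp0]
      have e3 : p ^ (r + 1) = p ^ r * p := zpow_add_one₀ hp0.ne' r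
      have e4 : p ^ ((fun r : ℤ => 2 * r) r) = p ^ r * p ^ r := by
        rw [← zpow_add₀ hp0.ne']; congr 1; simp; ring
      rw [e3, e4]; ring
    · have hno : ∀ m : ℤ, (∃ j, m = 2 * j + 1) →
          Function.extend (fun r : ℤ => 2 * r) (fun r => (-1 : ℝ) ^ r * p ^ (r * (r - 1) / 2)) 0 m = 0 := by
        intro m hm
        rw [Function.extend_apply']
        · rfl
        · rintro ⟨a, ha⟩
          obtain ⟨j, hj⟩ := hm
          have ha' : 2 * a = m := ha
          omega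
      rw [hno n ⟨r, hr⟩, hno (n + 4) ⟨r + 2, by omega⟩]
      simp

end Pool.Agent.H680_CP.T2N
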