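import Pool.Agent.H680_CP.T_T2C

/-!
# The theta determinant identity, given the Jacobi triple product
-/

set_option autoImplicit false

namespace Pool.Agent.H680_CP.T2N

open Finset

/-- The factor of `Pprod` for a pair. -/
noncomputable def pf (p u v : ℝ) : ℝ := v⁻¹ * th p (v / u) * th p (u * v)

theorem pf_antisymm {p : ℝ} (hp0 : 0 < p) (hp1 : p < 1) {u v : ℝ} (hu : u ≠ 0) (hv : v ≠ 0) :
    pf p u v = - pf p v u := by
  unfold pf
  have h := th_inv hp0 hp1 (x := u / v) (div_ne_zero hu hv)
  rw [inv_div] at h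
  rw [h, mul_comm u v]
  field_simp

theorem Pprod_eq (k : ℕ) (p : ℝ) (x : Fin k → ℝ) :
    Pprod k p x = (∏ i, (x i)⁻¹ * th p (x i ^ 2)) * ∏ i, ∏ j ∈ Finset.Ioi i, pf p (x i) (x j) := rfl

theorem Pprod_perm {k : ℕ} {p : ℝ} (hp0 : 0 < p) (hp1 : p < 1) {x : Fin k → ℝ}
    (hx : ∀ i, 0 < x i) (σ : Equiv.Perm (Fin k)) :
    Pprod k p (x ∘ σ) = ((Equiv.Perm.sign σ : ℤ) : ℝ) * Pprod k p x := by
  have h1 : ∏ i, ((x ∘ σ) i)⁻¹ * th p ((x ∘ σ) i ^ 2) = ∏ i, (x i)⁻¹ * th p (x i ^ 2) :=
    Equiv.prod_comp σ (fun i => (x i)⁻¹ * th p (x i ^ 2))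
  have h2 := Equiv.Perm.prod_Ioi_comp_eq_sign_mul_prod σ (f := fun i j => pf p (x i) (x j))
    (fun i j => pf_antisymm hp0 hp1 (hx i).ne' (hx j).ne')
  rw [Pprod_eq, Pprod_eq, h1]
  have h3 : ∏ i, ∏ j ∈ Finset.Ioi i, pf p ((x ∘ σ) i) ((x ∘ σ) j) =
      ((Equiv.Perm.sign σ : ℤ) : ℝ) * ∏ i, ∏ j ∈ Finset.Ioi i, pf p (x i) (x j) := h2
  rw [h3]
  ring

theorem Rdet_perm {k : ℕ} {p : ℝ} (x : Fin k → ℝ) (σ : Equiv.Perm (Fin k)) :
    Rdet k p (x ∘ σ) = ((Equiv.Perm.sign σ : ℤ) : ℝ) * Rdet k p x := by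
  unfold Rdet
  have := Matrix.det_permute' σ (Matrix.of fun t i : Fin k => phi (k + 1) p (((t : ℕ) : ℤ) + 1) (x i))
  rw [← this]
  rfl

theorem Pprod_eq_zero {k : ℕ} {p : ℝ} (hp0 : 0 < p) (hp1 : p < 1) {x : Fin k → ℝ}
    (hx : ∀ i, 0 < x i) {a b : Fin k} (hab : a ≠ b) (h : x a = x b) : Pprod k p x = 0 := by
  wlog hlt : a < b generalizing a b
  · exact this hab.symm h.symm (lt_of_le_of_ne (not_lt.mp hlt) hab.symm)
  rw [Pprod_eq]
  have h1 : pf p (x a) (x b) = 0 := by
    unfold pf
    rw [h, div_self (hx b).ne', th_one hp0 hp1]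
    ring
  have h2 : ∏ j ∈ Finset.Ioi a, pf p (x a) (x j) = 0 :=
    Finset.prod_eq_zero (Finset.mem_Ioi.mpr hlt) h1
  have h3 : ∏ i, ∏ j ∈ Finset.Ioi i, pf p (x i) (x j) = 0 :=
    Finset.prod_eq_zero (Finset.mem_univ a) h2
  rw [h3, mul_zero]

theorem Rdet_eq_zero {k : ℕ} {p : ℝ} {x : Fin k → ℝ}
    {a b : Fin k} (hab : a ≠ b) (h : x a = x b) : Rdet k p x = 0 := by
  unfold Rdet
  apply Matrix.det_zero_of_column_eq hab
  intro t
  simp [h]

/-! ### One variable -/

/-- `E² pf` in the second variable -/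
theorem Th_pf_right {p : ℝ} (hp0 : 0 < p) (H : JTP p) {x : ℝ} (hx : 0 < x) :
    Th p 2 p (fun y => E p 1 1 ^ 2 * pf p x y) := by
  have h := ((Th_mul_right hp0 H hx).mul hp0 (Th_mul_right hp0 H (inv_pos.mpr hx))).inv_mul hp0
  have e : -x * -x⁻¹ * p = p := by field_simp
  rw [e] at h
  refine h.congr ?_
  intro y hy
  unfold pf
  rw [div_eq_inv_mul y x]
  ring

theorem Th_pf_left {p : ℝ} (hp0 : 0 < p) (hp1 : p < 1) (H : JTP p) {x : ℝ} (hx : 0 < x) :
    Th p 2 p (fun y => E p 1 1 ^ 2 * pf p y x) := by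
  refine ((Th_pf_right hp0 H hx).const_mul (-1)).congr ?_
  intro y hy
  rw [pf_antisymm hp0 hp1 hy.ne' hx.ne']
  ring

theorem card_pairs {k : ℕ} (i : Fin k) :
    ∑ a : Fin k, ∑ b ∈ Finset.Ioi a, (if a = i ∨ b = i then 1 else 0) = k - 1 := by
  have h1 : ∀ a : Fin k, ∀ b ∈ Finset.Ioi a, (if a = i ∨ b = i then 1 else 0) =
      (if a = i then 1 else 0) + (if b = i then 1 else 0 : ℕ) := by
    intro a b hb
    have hab : a < b := Finset.mem_Ioi.mp hb
    by_cases ha : a = i
    · have hb' : b ≠ i := by rintro rfl; exact absurd ha hab.ne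
      simp [ha, hb']
    · simp [ha]
  rw [Finset.sum_congr rfl (fun a _ => Finset.sum_congr rfl (h1 a))]
  simp only [Finset.sum_add_distrib]
  have h2 : ∑ a : Fin k, ∑ b ∈ Finset.Ioi a, (if a = i then 1 else 0 : ℕ) = k - 1 - i := by
    rw [Finset.sum_eq_single i]
    · simp
    · intro a _ ha
      simp [ha]
    · simp
  have h3 : ∑ a : Fin k, ∑ b ∈ Finset.Ioi a, (if b = i then 1 else 0 : ℕ) = i := by
    have : ∀ a : Fin k, ∑ b ∈ Finset.Ioi a, (if b = i then 1 else 0 : ℕ) = if a < i then 1 else 0 := by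
      intro a
      rw [Finset.sum_ite_eq']
      simp
    rw [Finset.sum_congr rfl (fun a _ => this a), Finset.sum_boole]
    have : (Finset.univ.filter fun a : Fin k => a < i) = Finset.Iio i := by
      ext a; simp
    simp [this]
  rw [h2, h3]
  have := i.isLt
  omega

theorem Pprod_inV {k : ℕ} {p : ℝ} (hp0 : 0 < p) (hp1 : p < 1) (H : JTP p) {x : Fin k → ℝ}
    (hx : ∀ i, 0 < x i) (i : Fin k) : InV k p (fun y => Pprod k p (Function.update x i y)) := by
  -- quasi-periodicity
  have hE := E_pos hp0 hp1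
  have h1 : Th p (∑ j : Fin k, if j = i then 4 else 0) (∏ j : Fin k, if j = i then p * p else 1)
      (fun y => ∏ j : Fin k, (if j = i then E p 1 1 else 1) *
        ((Function.update x i y j)⁻¹ * th p (Function.update x i y j ^ 2))) := by
    apply Th.prod hp0
    intro j _
    by_cases hj : j = i
    · subst hj
      simp only [if_true, Function.update_self]
      refine (Th_sq hp0 H).congr ?_
      intro y hy
      ring
    · simp only [if_neg hj, Function.update_of_ne hj]
      exact Th.const p _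
  have h2 : Th p (∑ a : Fin k, ∑ b ∈ Finset.Ioi a, if a = i ∨ b = i then 2 else 0)
      (∏ a : Fin k, ∏ b ∈ Finset.Ioi a, if a = i ∨ b = i then p else 1)
      (fun y => ∏ a : Fin k, ∏ b ∈ Finset.Ioi a, (if a = i ∨ b = i then E p 1 1 ^ 2 else 1) *
        pf p (Function.update x i y a) (Function.update x i y b)) := by
    apply Th.prod hp0
    intro a _
    apply Th.prod hp0
    intro b hb
    have hab : a < b := Finset.mem_Ioi.mp hb
    by_cases ha : a = i
    · subst ha
      have hb' : b ≠ a := hab.ne'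
      simp only [true_or, if_true, Function.update_self, Function.update_of_ne hb']
      exact Th_pf_left hp0 hp1 H (hx b)
    · by_cases hb' : b = i
      · subst hb'
        simp only [or_true, if_true, Function.update_self, Function.update_of_ne ha]
        exact Th_pf_right hp0 H (hx a)
      · simp only [or_self, ha, hb', if_false,
          Function.update_of_ne ha, Function.update_of_ne hb']
        exact Th.const p _
  have h3 := h1.mul hp0 h2
  -- the constants
  have hk : 1 ≤ k := by have := i.isLt; omega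
  have hd : (∑ j : Fin k, if j = i then (4 : ℤ) else 0) +
      (∑ a : Fin k, ∑ b ∈ Finset.Ioi a, if a = i ∨ b = i then (2 : ℤ) else 0) =
      2 * ((k + 1 : ℕ) : ℤ) := by
    have e1 : ∀ a : Fin k, ∑ b ∈ Finset.Ioi a, (if a = i ∨ b = i then (2 : ℤ) else 0) =
        2 * ((∑ b ∈ Finset.Ioi a, (if a = i ∨ b = i then 1 else 0) : ℕ) : ℤ) := by
      intro a
      push_cast
      rw [Finset.mul_sum]
      apply Finset.sum_congr rfl
      intro b _
      split_ifs <;> simp
    rw [Finset.sum_congr rfl (fun a _ => e1 a), ← Finset.mul_sum, ← Nat.cast_sum, card_pairs]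
    simp
    omega
  have hc : (∏ j : Fin k, if j = i then p * p else 1) *
      (∏ a : Fin k, ∏ b ∈ Finset.Ioi a, if a = i ∨ b = i then p else 1) =
      p ^ ((k + 1 : ℕ) : ℤ) := by
    have e1 : ∀ a : Fin k, ∏ b ∈ Finset.Ioi a, (if a = i ∨ b = i then p else 1) =
        p ^ (∑ b ∈ Finset.Ioi a, (if a = i ∨ b = i then 1 else 0) : ℕ) := by
      intro a
      rw [← Finset.prod_pow_eq_pow_sum]
      apply Finset.prod_congr rfl
      intro b _
      split_ifs <;> simp
    rw [Finset.prod_congr rfl (fun a _ => e1 a), Finset.prod_pow_eq_pow_sum, card_pairs]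
    rw [zpow_natCast]
    simp only [Finset.prod_ite_eq', Finset.mem_univ, if_true]
    rw [← pow_two, ← pow_add]
    congr 1; omega
  rw [hd, hc] at h3
  -- remove the powers of E
  set C : ℝ := (∏ j : Fin k, (if j = i then E p 1 1 else 1)) *
    ∏ a : Fin k, ∏ b ∈ Finset.Ioi a, (if a = i ∨ b = i then E p 1 1 ^ 2 else 1) with hC
  have hC0 : C ≠ 0 := by
    rw [hC]
    apply mul_ne_zero
    · apply Finset.prod_ne_zero_iff.mpr
      intro j _
      split_ifs
      · exact hE.ne'
      · exact one_ne_zero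
    · apply Finset.prod_ne_zero_iff.mpr
      intro a _
      apply Finset.prod_ne_zero_iff.mpr
      intro b _
      split_ifs
      · exact pow_ne_zero _ hE.ne'
      · exact one_ne_zero
  have h4 : Th p (2 * ((k + 1 : ℕ) : ℤ)) (p ^ ((k + 1 : ℕ) : ℤ))
      (fun y => Pprod k p (Function.update x i y)) := by
    refine (h3.const_mul C⁻¹).congr ?_
    intro y hy
    simp only [Finset.prod_mul_distrib]
    rw [Pprod_eq]
    simp only [Finset.prod_mul_distrib]
    field_simp
    rw [hC]
    ring
  -- reflection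
  have h5 : ∀ y : ℝ, 0 < y →
      Pprod k p (Function.update x i y⁻¹) = - Pprod k p (Function.update x i y) := by
    intro y hy
    rw [Pprod_eq, Pprod_eq]
    have e1 : ∏ j : Fin k, ((Function.update x i y⁻¹ j)⁻¹ * th p (Function.update x i y⁻¹ j ^ 2)) =
        (∏ j : Fin k, if j = i then (-1 : ℝ) else 1) *
        ∏ j : Fin k, ((Function.update x i y j)⁻¹ * th p (Function.update x i y j ^ 2)) := by
      rw [← Finset.prod_mul_distrib]
      apply Finset.prod_congr rfl
      intro j _
      by_cases hj : j = i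
      · subst hj
        simp only [Function.update_self, if_true]
        have := th_inv hp0 hp1 (x := y ^ 2) (by positivity)
        rw [inv_pow, this]
        field_simp
      · simp [Function.update_of_ne hj, if_neg hj]
    have e2 : (∏ j : Fin k, if j = i then (-1 : ℝ) else 1) = -1 := by simp
    have e3 : ∀ z : ℝ, 0 < z → pf p y⁻¹ z = pf p y z := by
      intro z hz
      unfold pf
      rw [div_inv_eq_mul, mul_comm z y, show y⁻¹ * z = z / y by field_simp]
      ring
    have e4 : ∀ z : ℝ, 0 < z → pf p z y⁻¹ = pf p z y := by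
      intro z hz
      rw [pf_antisymm hp0 hp1 hz.ne' (inv_ne_zero hy.ne'), e3 z hz,
        pf_antisymm hp0 hp1 hz.ne' hy.ne']
    rw [e1, e2]
    have e5 : ∏ a : Fin k, ∏ b ∈ Finset.Ioi a,
          pf p (Function.update x i y⁻¹ a) (Function.update x i y⁻¹ b) =
        ∏ a : Fin k, ∏ b ∈ Finset.Ioi a,
          pf p (Function.update x i y a) (Function.update x i y b) := by
      apply Finset.prod_congr rfl
      intro a _
      apply Finset.prod_congr rfl
      intro b hb
      have hab : a < b := Finset.mem_Ioi.mp hb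
      by_cases ha : a = i
      · subst ha
        simp only [Function.update_self, Function.update_of_ne hab.ne']
        exact e3 _ (hx b)
      · by_cases hb' : b = i
        · subst hb'
          simp only [Function.update_self, Function.update_of_ne ha]
          exact e4 _ (hx a)
        · simp only [Function.update_of_ne ha, Function.update_of_ne hb']
    rw [e5]
    ring
  obtain ⟨b, hb1, hb2, hb3⟩ := h4.antisymm hp0 h5
  exact inV_of_coeff hp0 hb1 hb2 hb3

theorem Rdet_inV {k : ℕ} {p : ℝ} (x : Fin k → ℝ) (i : Fin k) :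
    InV k p (fun y => Rdet k p (Function.update x i y)) := by
  set A : Matrix (Fin k) (Fin k) ℝ :=
    Matrix.of fun t i : Fin k => phi (k + 1) p (((t : ℕ) : ℤ) + 1) (x i) with hA
  refine ⟨fun t => A.cramer (Pi.single t 1) i, ?_⟩
  intro y hy
  have h1 : Rdet k p (Function.update x i y) =
      A.cramer (fun t => phi (k + 1) p (((t : ℕ) : ℤ) + 1) y) i := by
    rw [Matrix.cramer_apply]
    unfold Rdet
    congr 1
    ext t j
    by_cases hj : j = i
    · subst hj
      simp
    · simp [Matrix.updateCol_ne hj, Function.update_of_ne hj, hA]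
  show Rdet k p (Function.update x i y) = _
  rw [h1]
  have h2 : (fun t : Fin k => phi (k + 1) p (((t : ℕ) : ℤ) + 1) y) =
      ∑ t : Fin k, phi (k + 1) p (((t : ℕ) : ℤ) + 1) y • (Pi.single t (1 : ℝ) : Fin k → ℝ) := by
    ext s
    simp [Finset.sum_apply, Pi.single_apply]
  rw [h2, map_sum, Finset.sum_apply]
  apply Finset.sum_congr rfl
  intro t _
  rw [map_smul, Pi.smul_apply, smul_eq_mul]
  ring

/-- A function in the span that vanishes at the nodes `z i` vanishes. -/
theorem InV.eq_zero {k : ℕ} {p : ℝ} {f : ℝ → ℝ} (hf : InV k p f) {z : Fin k → ℝ}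
    (hz : ∀ i, 0 < z i) (hR : Rdet k p z ≠ 0) (h0 : ∀ i, f (z i) = 0) :
    ∀ y : ℝ, 0 < y → f y = 0 := by
  obtain ⟨β, hβ⟩ := hf
  have h1 : Matrix.vecMul β
      (Matrix.of fun t i : Fin k => phi (k + 1) p (((t : ℕ) : ℤ) + 1) (z i)) = 0 := by
    ext i
    have := hβ (z i) (hz i)
    rw [h0 i] at this
    simpa [Matrix.vecMul, dotProduct] using this.symm
  have h2 : β = 0 := Matrix.eq_zero_of_vecMul_eq_zero hR h1
  intro y hy
  rw [hβ y hy, h2]
  simp

theorem InV.sub_mul {k : ℕ} {p : ℝ} {f g : ℝ → ℝ} (hf : InV k p f) (hg : InV k p g) (c d : ℝ) :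
    InV k p (fun y => f y * c - g y * d) := by
  obtain ⟨β, hβ⟩ := hf
  obtain ⟨γ, hγ⟩ := hg
  refine ⟨fun t => β t * c - γ t * d, ?_⟩
  intro y hy
  show f y * c - g y * d = _
  rw [hβ y hy, hγ y hy, Finset.sum_mul, Finset.sum_mul, ← Finset.sum_sub_distrib]
  apply Finset.sum_congr rfl
  intro t _
  ring

theorem T2_aux (k : ℕ) (p : ℝ) (hp0 : 0 < p) (hp1 : p < 1) (H : JTP p) (x z : Fin k → ℝ)
    (hx : ∀ i, 0 < x i) (hz : ∀ i, 0 < z i) (hR : Rdet k p z ≠ 0) :
    Pprod k p x * Rdet k p z = Rdet k p x * Pprod k p z := by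
  have main : ∀ (s : Finset (Fin k)) (x : Fin k → ℝ), (∀ i, 0 < x i) →
      (∀ i, i ∉ s → ∃ j, x i = z j) →
      Pprod k p x * Rdet k p z - Rdet k p x * Pprod k p z = 0 := by
    intro s
    induction s using Finset.induction_on with
    | empty =>
      intro x hx hxs
      choose r hr using fun i => hxs i (Finset.notMem_empty i)
      have hxr : x = z ∘ r := funext hr
      by_cases hinj : Function.Injective r
      · have hbij : Function.Bijective r := Finite.injective_iff_bijective.mp hinj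
        have hσ : x = z ∘ (Equiv.ofBijective r hbij) := hxr
        rw [hσ, Pprod_perm hp0 hp1 hz, Rdet_perm]
        ring
      · obtain ⟨a, b, hab, hne⟩ : ∃ a b, r a = r b ∧ a ≠ b := by
          simpa [Function.Injective] using hinj
        have hxab : x a = x b := by rw [hr, hr, hab]
        rw [Pprod_eq_zero hp0 hp1 hx hne hxab, Rdet_eq_zero hne hxab]
        ring
    | insert i s hi ih =>
      intro x hx hxs
      have h1 : InV k p (fun y => Pprod k p (Function.update x i y) * Rdet k p z -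
          Rdet k p (Function.update x i y) * Pprod k p z) :=
        (Pprod_inV hp0 hp1 H hx i).sub_mul (Rdet_inV x i) _ _
      have h2 := h1.eq_zero hz hR (by
        intro j
        apply ih
        · intro l
          by_cases hl : l = i
          · subst hl; simpa using hz j
          · simpa [Function.update_of_ne hl] using hx l
        · intro l hl
          by_cases hli : l = i
          · subst hli; exact ⟨j, by simp⟩
          · rw [Function.update_of_ne hli]
            exact hxs l (by simp [hli, hl])) (x i) (hx i)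
      simpa using h2
  have := main Finset.univ x hx (fun i hi => absurd (Finset.mem_univ i) hi)
  linarith

end Pool.Agent.H680_CP.T2N
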